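import Pool.Agent.N866.GN.P0Ad
import Pool.Agent.N157.GN.Mub

/-!
# Project GN, P0A: the Moebius function twisted by a nonprincipal character (helper866)
-/

set_option autoImplicit false

namespace Pool.Agent.N866.GN

open Finset
open Pool.Agent.N782.GN
open Pool.Agent.H304R3.HK (UH bb LamK lg_bb)

theorem card_bl {Y : ℝ} (hY : 1 ≤ Y) : ((bl Y).card : ℝ) ≤ 9 * Y := by
  classical
  have h1 : (bl Y).card ≤ (2 * ⌊Real.sqrt Y⌋₊ + 1) ^ 2 := by
    unfold bl
    refine (card_filter_le _ _).trans (card_image_le.trans ?_)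
    rw [card_product, Int.card_Icc, sq]
    have e : ((⌊Real.sqrt Y⌋₊ : ℤ) + 1 - -(⌊Real.sqrt Y⌋₊ : ℤ)).toNat = 2 * ⌊Real.sqrt Y⌋₊ + 1 := by omega
    rw [e]
  have h2 : (⌊Real.sqrt Y⌋₊ : ℝ) ≤ Real.sqrt Y := Nat.floor_le (Real.sqrt_nonneg _)
  have h3 : 1 ≤ Real.sqrt Y := Real.one_le_sqrt.2 hY
  calc ((bl Y).card : ℝ) ≤ (((2 * ⌊Real.sqrt Y⌋₊ + 1) ^ 2 : ℕ) : ℝ) := by exact_mod_cast h1
    _ = (2 * (⌊Real.sqrt Y⌋₊ : ℝ) + 1) ^ 2 := by push_cast; ring
    _ ≤ (3 * Real.sqrt Y) ^ 2 := by gcongr; linarith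
    _ = 9 * Y := by rw [mul_pow, Real.sq_sqrt (by linarith)]; norm_num

theorem unit_i : IsUnit (⟨0, 1⟩ : ZI) := by
  refine ⟨⟨⟨0, 1⟩, ⟨0, -1⟩, ?_, ?_⟩, rfl⟩ <;> decide

theorem nz_i (z : ZI) : nz (⟨0, 1⟩ * z) = nz z := by
  rw [nz_eq, nz_eq]
  simp
  ring

/-- characters nontrivial at `i` -/
theorem sum_zero (χ : ZI →* ℂ) (hi : χ ⟨0, 1⟩ ≠ 1) (Y : ℝ) : ∑ z ∈ bl Y, (mu z : ℂ) * χ z = 0 := by
  classical
  have h1 : ∑ z ∈ bl Y, (mu z : ℂ) * χ z = ∑ z ∈ bl Y, χ ⟨0, 1⟩ * ((mu z : ℂ) * χ z) := by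
    refine (sum_bij (fun z _ => (⟨0, 1⟩ : ZI) * z) ?_ ?_ ?_ ?_).symm
    · intro z hz
      rw [mem_bl] at hz ⊢
      exact ⟨mul_ne_zero unit_i.ne_zero hz.1, by rw [nz_i]; exact hz.2⟩
    · intro a _ b _ h
      exact mul_left_cancel₀ unit_i.ne_zero h
    · intro z hz
      rw [mem_bl] at hz
      have e : (⟨0, 1⟩ : ZI) * (⟨0, -1⟩ * z) = z := by
        rw [← mul_assoc]
        have : (⟨0, 1⟩ : ZI) * ⟨0, -1⟩ = 1 := by decide
        rw [this, one_mul]
      refine ⟨⟨0, -1⟩ * z, ?_, e⟩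
      rw [mem_bl]
      constructor
      · intro h0
        rw [h0, mul_zero] at e
        exact hz.1 e.symm
      · rw [← nz_i, e]
        exact hz.2
    · intro z _
      rw [Pool.Agent.N157.GN.mu_unit_mul unit_i, map_mul]
      ring
  rw [← mul_sum] at h1
  have h2 : (1 - χ ⟨0, 1⟩) * ∑ z ∈ bl Y, (mu z : ℂ) * χ z = 0 := by linear_combination h1
  exact (mul_eq_zero.1 h2).resolve_left (sub_ne_zero.2 hi.symm)

open Filter in
theorem ev2 (M : ℕ) : ∀ᶠ l : ℝ in atTop, 8 * l ^ M ≤ Real.exp (l / 2) := by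
  have h5 := (isLittleO_pow_exp_pos_mul_atTop M (b := 1 / 2) (by norm_num)).bound
    (c := 1 / 8) (by positivity)
  filter_upwards [h5, eventually_ge_atTop (1 : ℝ)] with l h6 h7
  rw [Real.norm_of_nonneg (by positivity), Real.norm_of_nonneg (Real.exp_pos _).le] at h6
  have e : l / 2 = 1 / 2 * l := by ring
  rw [e]
  linarith

/-- large `Y` -/
theorem p0a_large (h0 : S_EL) (h2 : S_GROW) (h3 : S_INVL) (h4 : S_PER) (h5 : S_SIEG) (A B : ℕ) :
    ∃ (C l₀ : ℝ), 0 < C ∧ 16 ≤ l₀ ∧ ∀ (l : ℝ) (q : ℕ) (χ : ZI →* ℂ), l₀ ≤ l → 1 ≤ q →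
    (q : ℝ) ≤ l ^ (100 * B) → Chi q χ → χ ⟨0, 1⟩ = 1 → (∃ a : ZI, IsCoprime a ((q : ℕ) : ZI) ∧ χ a ≠ 1) →
    ‖∑ t ∈ bl (Real.exp (l ^ 100)), (mu t : ℂ) * χ t‖ ≤ C * Real.exp (l ^ 100) / l ^ (100 * A) := by
  obtain ⟨K, l₁, hl₁, h⟩ := inv_all h0 h2 h3 h5 B
  obtain ⟨C4, hC4, hper⟩ := h4
  obtain ⟨l₂, hev⟩ := Filter.eventually_atTop.1 (ev2 (200 * A + K + 1000))
  refine ⟨4 * (4 * C4), max l₁ l₂, by linarith, hl₁.trans (le_max_left _ _), ?_⟩
  intro l q χ hl hq hql hχ hi hnp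
  have hl1' : l₁ ≤ l := (le_max_left _ _).trans hl
  have hl16 : 16 ≤ l := hl₁.trans hl1'
  have hl0 : 0 < l := by linarith
  have hl1 : 1 ≤ l := by linarith
  have hq2 := np_two hq hχ hnp
  have hU := uh_chi hq2 hχ hi
  have hpow : ∀ {a b : ℕ}, a ≤ b → l ^ a ≤ l ^ b := fun h => pow_le_pow_right₀ hl1 h
  have he := hev l ((le_max_right _ _).trans hl)
  obtain ⟨L, a1, a2, a3⟩ := h q χ l hl1' hq hql hχ hi hnp
  set Y : ℝ := Real.exp (l ^ 100) with hY
  have hYpos : 0 < Y := Real.exp_pos _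
  have hlogY : Real.log Y = l ^ 100 := Real.log_exp _
  set δ : ℝ := 1 / l ^ (100 * (A + 2)) with hδ
  have hδ0 : 0 < δ := by positivity
  have hδ1 : δ ≤ 1 := by
    rw [hδ, div_le_one (by positivity)]
    exact one_le_pow₀ hl1
  have hexp4 : 12 ≤ Real.exp l := by
    have := Real.add_one_le_exp l
    linarith
  have hw1 : (1 : ℝ) / l ^ 20 ≤ 1 / 40 := by
    apply one_div_le_one_div_of_le (by norm_num)
    calc (40 : ℝ) ≤ 16 * 16 := by norm_num
      _ ≤ l * l := by gcongr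
      _ = l ^ 2 := by ring
      _ ≤ l ^ 20 := hpow (by norm_num)
  have hY2 : 2 ≤ Y := by
    have h6 := Real.add_one_le_exp (l ^ 100)
    have h7 : 1 ≤ l ^ 100 := one_le_pow₀ hl1
    linarith
  have key := hper χ hU (Real.exp l / 4) (1 / l ^ 20) (l ^ K) Y δ L (by linarith) (by positivity)
    (by linarith) (one_le_pow₀ hl1) hY2 hδ0 hδ1 (a1.mono (by
      intro s hs
      have h6 : 1 - 2 * (1 / l ^ 20) < s.re := hs
      change 9 / 10 < s.re
      linarith)) a2 a3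
  -- the sum
  have e1 : ∑ n ∈ Icc 1 ⌊Y⌋₊, bm χ n = (1 / 4 : ℂ) * ∑ z ∈ bl Y, (mu z : ℂ) * χ z := by
    have h6 := sum_bb (fun z => (mu z : ℂ) * χ z) (fun _ => 1) Y hYpos.le
    simp only [mul_one] at h6
    exact h6
  rw [e1, norm_mul] at key
  have e4 : ‖(1 / 4 : ℂ)‖ = 1 / 4 := by norm_num
  rw [e4, hlogY] at key
  -- estimates
  set E : ℝ := Y / l ^ (100 * A) with hE
  have hE0 : 0 < E := by positivity
  have hM1 : l ^ (200 * A + K + 1000) ≤ Real.exp (l / 2) := by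
    have : 0 ≤ l ^ (200 * A + K + 1000) := by positivity
    linarith
  have t1 : δ * Y * l ^ 100 ≤ E := by
    rw [hδ, hE]
    calc 1 / l ^ (100 * (A + 2)) * Y * l ^ 100 = Y / l ^ (100 * A + 100) := by
          field_simp
          ring
      _ ≤ Y / l ^ (100 * A) := by
          apply div_le_div_of_nonneg_left hYpos.le (by positivity) (hpow (by omega))
  have t2 : Real.sqrt Y * l ^ 100 ≤ E := by
    rw [hE, le_div_iff₀ (by positivity)]
    have h6 : Y = Real.sqrt Y * Real.sqrt Y := (Real.mul_self_sqrt hYpos.le).symm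
    have h7 : Real.sqrt Y = Real.exp (l ^ 100 / 2) := by rw [hY, Real.exp_half]
    calc Real.sqrt Y * l ^ 100 * l ^ (100 * A) = Real.sqrt Y * l ^ (100 + 100 * A) := by ring
      _ ≤ Real.sqrt Y * Real.sqrt Y := by
          apply mul_le_mul_of_nonneg_left _ (Real.sqrt_nonneg _)
          rw [h7]
          calc l ^ (100 + 100 * A) ≤ l ^ (200 * A + K + 1000) := hpow (by omega)
            _ ≤ Real.exp (l / 2) := hM1
            _ ≤ Real.exp (l ^ 100 / 2) := by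
                apply Real.exp_le_exp.2
                have : l ^ 1 ≤ l ^ 100 := hpow (by norm_num)
                rw [pow_one] at this
                linarith
      _ = Y := h6.symm
  have t3 : Y / δ * (l ^ K * Y ^ (-(1 / l ^ 20))) ≤ E := by
    have h6 : Y ^ (-(1 / l ^ 20)) = Real.exp (-l ^ 80) := by
      rw [hY, ← Real.exp_mul]
      congr 1
      field_simp
    rw [h6, hδ, hE, div_div_eq_mul_div, div_one, le_div_iff₀ (by positivity)]
    have h7 : Real.exp (-l ^ 80) ≤ Real.exp (-(l / 2)) := by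
      apply Real.exp_le_exp.2
      have : l ^ 1 ≤ l ^ 80 := hpow (by norm_num)
      rw [pow_one] at this
      linarith
    calc Y * l ^ (100 * (A + 2)) * (l ^ K * Real.exp (-l ^ 80)) * l ^ (100 * A)
        = Y * (l ^ (200 * A + K + 200) * Real.exp (-l ^ 80)) := by ring
      _ ≤ Y * (l ^ (200 * A + K + 1000) * Real.exp (-(l / 2))) := by
          gcongr
          norm_num
      _ ≤ Y * (Real.exp (l / 2) * Real.exp (-(l / 2))) := by gcongr
      _ = Y := by rw [← Real.exp_add, add_neg_cancel, Real.exp_zero, mul_one]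
  have t4 : Y / δ * (((l ^ 100) ^ 2 + l ^ K) / (Real.exp l / 4)) ≤ E := by
    rw [hδ, hE, div_div_eq_mul_div, div_one, le_div_iff₀ (by positivity)]
    have h7 : (l ^ 100) ^ 2 + l ^ K ≤ 2 * l ^ (200 + K) := by
      have h8 : l ^ K ≤ l ^ (200 + K) := hpow (by omega)
      have h9 : l ^ 200 ≤ l ^ (200 + K) := hpow (by omega)
      have h10 : (l ^ 100) ^ 2 = l ^ 200 := by ring
      rw [h10]
      linarith
    have h8 : Real.exp (l / 2) ≤ Real.exp l := Real.exp_le_exp.2 (by linarith)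
    calc Y * l ^ (100 * (A + 2)) * (((l ^ 100) ^ 2 + l ^ K) / (Real.exp l / 4)) * l ^ (100 * A)
        ≤ Y * l ^ (100 * (A + 2)) * ((2 * l ^ (200 + K)) / (Real.exp l / 4)) * l ^ (100 * A) := by gcongr
      _ = Y * ((8 * l ^ (200 * A + K + 400)) / Real.exp l) := by
          field_simp
          ring
      _ ≤ Y * 1 := by
          gcongr
          rw [div_le_one (Real.exp_pos _)]
          calc 8 * l ^ (200 * A + K + 400) ≤ 8 * l ^ (200 * A + K + 1000) := by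
                gcongr
                norm_num
            _ ≤ Real.exp (l / 2) := he
            _ ≤ Real.exp l := h8
      _ = Y := mul_one Y
  have t34 : Y / δ * (l ^ K * Y ^ (-(1 / l ^ 20)) + ((l ^ 100) ^ 2 + l ^ K) / (Real.exp l / 4)) ≤ 2 * E := by
    rw [mul_add]
    linarith
  have hfin : 1 / 4 * ‖∑ z ∈ bl Y, (mu z : ℂ) * χ z‖ ≤ C4 * (4 * E) := by
    refine key.trans ?_
    apply mul_le_mul_of_nonneg_left _ (by linarith)
    linarith
  have e5 : 4 * (4 * C4) * Y / l ^ (100 * A) = 4 * (C4 * (4 * E)) := by rw [hE]; ring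
  rw [e5]
  linarith

/-- GN/P0A -/
theorem p0a (h0 : S_EL) (h2 : S_GROW) (h3 : S_INVL) (h4 : S_PER) (h5 : S_SIEG) : S_P0A := by
  intro A B
  obtain ⟨C, l₀, hC, hl₀, h⟩ := p0a_large h0 h2 h3 h4 h5 A B
  refine ⟨C + 9 * l₀ ^ (100 * A), by positivity, ?_⟩
  intro Y q χ hY hq hqY hχ hnp
  have hlogY : 0 < Real.log Y := Real.log_pos (by linarith)
  have hYpos : 0 < Y := by linarith
  by_cases hi : χ ⟨0, 1⟩ = 1
  swap
  · rw [sum_zero χ hi, norm_zero]
    positivity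
  set l : ℝ := (Real.log Y) ^ (1 / 100 : ℝ) with hl
  have hl0 : 0 < l := Real.rpow_pos_of_pos hlogY _
  have hl100 : l ^ 100 = Real.log Y := by
    rw [hl, ← Real.rpow_natCast, ← Real.rpow_mul hlogY.le]
    norm_num
  have hlY : Real.exp (l ^ 100) = Y := by rw [hl100, Real.exp_log hYpos]
  have hA : l ^ (100 * A) = (Real.log Y) ^ A := by rw [pow_mul, hl100]
  have hB : l ^ (100 * B) = (Real.log Y) ^ B := by rw [pow_mul, hl100]
  rw [← hA]
  rcases le_total l₀ l with hbig | hsmall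
  · have h6 := h l q χ hbig hq (by rw [hB]; exact hqY) hχ hi hnp
    rw [hlY] at h6
    refine h6.trans ?_
    gcongr
    have : 0 ≤ 9 * l₀ ^ (100 * A) := by positivity
    linarith
  · have h6 : ‖∑ t ∈ bl Y, (mu t : ℂ) * χ t‖ ≤ 9 * Y := by
      refine le_trans ?_ (card_bl (by linarith))
      refine (norm_sum_le_of_le (f := fun t => (mu t : ℂ) * χ t) (n := fun _ => (1 : ℝ)) (bl Y) ?_).trans ?_
      · intro z _
        rw [norm_mul, Complex.norm_real]
        calc ‖mu z‖ * ‖χ z‖ ≤ 1 * 1 := mul_le_mul (abs_mu_le z) (chi_le hχ z) (norm_nonneg _) zero_le_one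
          _ = 1 := one_mul _
      · rw [sum_const, nsmul_eq_mul, mul_one]
    refine h6.trans ?_
    rw [le_div_iff₀ (by positivity)]
    have h7 : l ^ (100 * A) ≤ l₀ ^ (100 * A) := pow_le_pow_left₀ hl0.le hsmall _
    calc 9 * Y * l ^ (100 * A) ≤ 9 * Y * l₀ ^ (100 * A) := by gcongr
      _ = 9 * l₀ ^ (100 * A) * Y := by ring
      _ ≤ (C + 9 * l₀ ^ (100 * A)) * Y := by gcongr; linarith

end Pool.Agent.N866.GN
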