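import Pool.Agent.N866.GN.M1f

/-!
# Project GN, MT1: the main term, sums of the Moebius function with the densities (helper866)
-/

set_option autoImplicit false

namespace Pool.Agent.N866.GN.MT

open Finset Filter Topology MeasureTheory
open Pool.Agent.N782.GN
open Pool.Agent.N521.GN (nn nn_real)

/-- the coefficients divided by `n` -/
noncomputable def fl (l : ℤ) (n : ℕ) : ℝ := cf l 1 n / n

theorem fl_zero (l : ℤ) : fl l 0 = 0 := by simp [fl]

theorem sum_cf (l : ℤ) (g : ℕ → ℝ) {x : ℝ} (hx : 0 ≤ x) :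
    ∑ n ∈ Icc 1 ⌊x⌋₊, fl l n * g n = 1 / 4 * ∑ b ∈ bl x, mu b * (kap l b / nz b) * g (nn b) := by
  classical
  have h1 := sum_real (fun b => if IsCoprime b ((1 : ℕ) : ZI) then mu b * kap l b else 0)
    (fun n => (n : ℝ)⁻¹ * g n) x hx
  have e1 : ∑ n ∈ Icc 1 ⌊x⌋₊, fl l n * g n = ∑ n ∈ Icc 1 ⌊x⌋₊, cf l 1 n * ((n : ℝ)⁻¹ * g n) := by
    refine sum_congr rfl fun n _ => ?_
    unfold fl
    rw [div_eq_mul_inv]
    ring
  rw [e1]
  unfold cf
  rw [h1]
  congr 1
  refine sum_congr rfl fun b _ => ?_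
  have hc : IsCoprime b ((1 : ℕ) : ZI) := by
    rw [Nat.cast_one]
    exact isCoprime_one_right
  rw [if_pos hc, nn_real, div_eq_mul_inv]
  ring

theorem Hs_fl (l : ℤ) (v : ℝ) : Hs (fl l) v = 1 / 4 * ∑ b ∈ bl (Real.exp v), mu b * (kap l b / nz b) := by
  have h1 := sum_cf l (fun _ => 1) (Real.exp_pos v).le
  simp only [mul_one] at h1
  exact h1

theorem fl_summable {l : ℤ} (hl : 1 ≤ l) (ε : ℝ) (hε : 0 < ε) :
    Summable (fun n : ℕ => |fl l n| * (n : ℝ) ^ (-ε)) ∧
    ∑' n : ℕ, fl l n * (n : ℝ) ^ (-ε) = DD l 1 (1 + ε) := by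
  have h0 : ∀ n : ℕ, fl l n * (n : ℝ) ^ (-ε) = cf l 1 n * (n : ℝ) ^ (-(1 + ε)) := by
    intro n
    rcases Nat.eq_zero_or_pos n with rfl | hn
    · rw [fl_zero, Nat.cast_zero, Real.zero_rpow (by linarith), Real.zero_rpow (by linarith)]
      ring
    · have hn0 : (0 : ℝ) < n := by exact_mod_cast hn
      unfold fl
      rw [neg_add, Real.rpow_add hn0, Real.rpow_neg_one]
      ring
  constructor
  · refine Summable.of_nonneg_of_le (fun n => by positivity) (fun n => ?_) (mj_summable l (s := 1 + ε) (by linarith))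
    have h1 := cf_mj hl 1 (s := 1 + ε) (by linarith) n
    rw [← h0, norm_mul, Real.norm_eq_abs, Real.norm_of_nonneg (by positivity)] at h1
    exact h1
  · unfold DD
    exact tsum_congr h0

/-- the averages of the partial sums -/
theorem Hs_avg (hm : S_MUB) (hp : S_P0B) (A : ℕ) : ∃ C : ℝ, 0 < C ∧ ∀ (L v : ℝ), 1 ≤ L → 3 ≤ Real.exp v →
    ∑ l ∈ Icc 1 ⌊L⌋, |Hs (fl l) v| ≤ C * L / v ^ A := by
  obtain ⟨C, hC, h⟩ := avg1 hm hp A
  refine ⟨C, hC, ?_⟩
  intro L v hL hv
  have h1 := h L (Real.exp v) hL hv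
  rw [Real.log_exp] at h1
  have h2 : ∑ l ∈ Icc 1 ⌊L⌋, |Hs (fl l) v| = 1 / 4 * ∑ l ∈ Icc 1 ⌊L⌋, |∑ b ∈ bl (Real.exp v), mu b * (kap l b / nz b)| := by
    rw [mul_sum]
    refine sum_congr rfl fun l _ => ?_
    rw [Hs_fl, abs_mul, abs_of_nonneg (by norm_num : (0 : ℝ) ≤ 1 / 4)]
  rw [h2]
  have h3 : 0 ≤ ∑ l ∈ Icc 1 ⌊L⌋, |∑ b ∈ bl (Real.exp v), mu b * (kap l b / nz b)| :=
    sum_nonneg fun _ _ => abs_nonneg _
  linarith

theorem Hs_int (hm : S_MUB) (hp : S_P0B) {l : ℤ} (hl : 1 ≤ l) : IntegrableOn (Hs (fl l)) (Set.Ioi 0) := by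
  obtain ⟨C, hC, h⟩ := Hs_avg hm hp 2
  have hl1 : (1 : ℝ) ≤ l := by exact_mod_cast hl
  have hu : Set.Ioi (0 : ℝ) = Set.Ioc 0 2 ∪ Set.Ioi 2 := (Set.Ioc_union_Ioi_eq_Ioi (by norm_num)).symm
  rw [hu]
  apply IntegrableOn.union
  · refine Measure.integrableOn_of_bounded (M := ∑ n ∈ Icc 1 ⌊Real.exp 2⌋₊, |fl l n|) (by simp)
      (Hs_meas _).aestronglyMeasurable ?_
    rw [ae_restrict_iff' measurableSet_Ioc]
    refine Eventually.of_forall fun v hv => ?_
    unfold Hs
    rw [Real.norm_eq_abs]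
    refine (abs_sum_le_sum_abs _ _).trans ?_
    apply sum_le_sum_of_subset_of_nonneg
    · apply Icc_subset_Icc_right
      exact Nat.floor_le_floor (Real.exp_le_exp.2 hv.2)
    · exact fun _ _ _ => abs_nonneg _
  · have h1 : IntegrableOn (fun v : ℝ => C * l * v ^ (-2 : ℝ)) (Set.Ioi 2) :=
      (integrableOn_Ioi_rpow_of_lt (by norm_num) (by norm_num)).const_mul _
    refine Integrable.mono' h1 (Hs_meas _).aestronglyMeasurable ?_
    rw [ae_restrict_iff' measurableSet_Ioi]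
    refine Eventually.of_forall fun v hv => ?_
    have hv : 2 < v := hv
    have h3 : 3 ≤ Real.exp v := by
      have := Real.add_one_le_exp v
      linarith
    have h2 := h l v hl1 h3
    rw [Int.floor_intCast] at h2
    have h4 : |Hs (fl l) v| ≤ ∑ l' ∈ Icc 1 l, |Hs (fl l') v| :=
      single_le_sum (f := fun l' : ℤ => |Hs (fl l') v|) (fun _ _ => abs_nonneg _) (by
        rw [mem_Icc]; exact ⟨hl, le_rfl⟩)
    rw [Real.norm_eq_abs]
    refine h4.trans (h2.trans (le_of_eq ?_))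
    rw [Real.rpow_neg (by linarith), div_eq_mul_inv]
    norm_num

theorem zr_res : Tendsto (fun ε : ℝ => ε * zr (1 + ε)) (𝓝[>] 0) (𝓝 1) := by
  have h1 := riemannZeta_residue_one
  have h2 : Tendsto (fun ε : ℝ => ((1 + ε : ℝ) : ℂ)) (𝓝[>] 0) (𝓝[≠] 1) := by
    refine tendsto_nhdsWithin_iff.2 ⟨?_, ?_⟩
    · have : Continuous (fun ε : ℝ => ((1 + ε : ℝ) : ℂ)) := by fun_prop
      have h3 := this.tendsto 0
      simp only [add_zero, Complex.ofReal_one] at h3
      exact h3.mono_left nhdsWithin_le_nhds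
    · filter_upwards [self_mem_nhdsWithin] with ε hε
      have hε : 0 < ε := hε
      simp only [Set.mem_compl_iff, Set.mem_singleton_iff]
      intro h
      have : 1 + ε = 1 := by exact_mod_cast h
      linarith
  have h3 := (Complex.continuous_re.tendsto _).comp (h1.comp h2)
  rw [Complex.one_re] at h3
  refine h3.congr fun ε => ?_
  simp only [Function.comp]
  have e : (((1 + ε : ℝ) : ℂ) - 1) = ((ε : ℝ) : ℂ) := by push_cast; ring
  rw [e, Complex.re_ofReal_mul]
  rfl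

/-- the constant -/
theorem int_eq (hm : S_MUB) (hs : S_SSL) (hp : S_P0B) {l : ℤ} (hl : 1 ≤ l) :
    ∫ v in Set.Ioi (0 : ℝ), Hs (fl l) v = SS l := by
  have h1 := abel2 (fl_zero l) (Hs_int hm hp hl) (fun ε hε => (fl_summable hl ε hε).1)
  have h2 := h1.mul zr_res
  rw [mul_one] at h2
  refine tendsto_nhds_unique (h2.congr' ?_) (SS_limit hm hs hl)
  filter_upwards [self_mem_nhdsWithin] with ε hε
  have hε : 0 < ε := hε
  rw [(fl_summable hl ε hε).2]
  field_simp

/-- partial summation with the logarithm -/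
theorem log_sum {f : ℕ → ℝ} {V : ℝ} (hV : 0 < V) :
    ∑ n ∈ Icc 1 ⌊Real.exp V⌋₊, f n * Real.log n = V * Hs f V - ∫ v in Set.Ioc (0 : ℝ) V, Hs f v := by
  have hlog : ∀ n ∈ Icc 1 ⌊Real.exp V⌋₊, 0 ≤ Real.log n ∧ Real.log n ≤ V := by
    intro n hn
    rw [mem_Icc] at hn
    refine ⟨Real.log_natCast_nonneg n, ?_⟩
    rw [Real.log_le_iff_le_exp (by exact_mod_cast hn.1)]
    exact (Nat.le_floor_iff (Real.exp_pos V).le).1 hn.2
  have h1 : ∀ v ∈ Set.Ioc (0 : ℝ) V, Hs f v = ∑ n ∈ Icc 1 ⌊Real.exp V⌋₊,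
      f n * (Set.Ici (Real.log n)).indicator (fun _ => (1 : ℝ)) v := by
    intro v hv
    unfold Hs
    have h2 : Icc 1 ⌊Real.exp v⌋₊ = (Icc 1 ⌊Real.exp V⌋₊).filter (fun n : ℕ => Real.log n ≤ v) := by
      ext n
      rw [mem_filter, mem_Icc, mem_Icc]
      constructor
      · rintro ⟨a1, a2⟩
        refine ⟨⟨a1, a2.trans (Nat.floor_le_floor (Real.exp_le_exp.2 hv.2))⟩, ?_⟩
        rw [Real.log_le_iff_le_exp (by exact_mod_cast a1)]
        exact (Nat.le_floor_iff (Real.exp_pos v).le).1 a2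
      · rintro ⟨⟨a1, a2⟩, a3⟩
        rw [Real.log_le_iff_le_exp (by exact_mod_cast a1)] at a3
        exact ⟨a1, Nat.le_floor a3⟩
    rw [h2, sum_filter]
    refine sum_congr rfl fun n _ => ?_
    rw [Set.indicator_apply]
    by_cases h : Real.log n ≤ v
    · rw [if_pos h, if_pos (Set.mem_Ici.2 h), mul_one]
    · rw [if_neg h, if_neg (fun h' => h (Set.mem_Ici.1 h')), mul_zero]
  have h2 : ∀ n ∈ Icc 1 ⌊Real.exp V⌋₊, IntegrableOn
      (fun v : ℝ => f n * (Set.Ici (Real.log n)).indicator (fun _ => (1 : ℝ)) v) (Set.Ioc 0 V) := by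
    intro n _
    refine Integrable.const_mul ?_ _
    rw [integrable_indicator_iff measurableSet_Ici]
    refine (integrable_const 1).mono_measure Measure.restrict_le_self
  rw [setIntegral_congr_fun measurableSet_Ioc h1, integral_finsetSum _ h2]
  have h3 : ∀ n ∈ Icc 1 ⌊Real.exp V⌋₊, ∫ v in Set.Ioc (0 : ℝ) V,
      f n * (Set.Ici (Real.log n)).indicator (fun _ => (1 : ℝ)) v = f n * (V - Real.log n) := by
    intro n hn
    obtain ⟨a1, a2⟩ := hlog n hn
    rw [integral_const_mul]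
    congr 1
    rw [setIntegral_indicator measurableSet_Ici, setIntegral_const, smul_eq_mul, mul_one]
    have e : (Set.Ioc (0 : ℝ) V ∩ Set.Ici (Real.log n) : Set ℝ) =ᵐ[volume] (Set.Icc (Real.log n) V : Set ℝ) := by
      rcases a1.eq_or_lt with h | h
      · rw [← h]
        have : (Set.Ioc (0 : ℝ) V ∩ Set.Ici 0 : Set ℝ) = Set.Ioc 0 V := by
          ext x
          simp only [Set.mem_inter_iff, Set.mem_Ioc, Set.mem_Ici]
          constructor
          · exact fun h => h.1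
          · exact fun h => ⟨h, h.1.le⟩
        rw [this]
        exact Ioc_ae_eq_Icc
      · have : (Set.Ioc (0 : ℝ) V ∩ Set.Ici (Real.log n) : Set ℝ) = Set.Icc (Real.log n) V := by
          ext x
          simp only [Set.mem_inter_iff, Set.mem_Ioc, Set.mem_Ici, Set.mem_Icc]
          constructor
          · exact fun h => ⟨h.2, h.1.2⟩
          · exact fun h' => ⟨⟨lt_of_lt_of_le h h'.1, h'.2⟩, h'.1⟩
        rw [this]
    rw [measureReal_congr e, Real.volume_real_Icc, max_eq_left (by linarith)]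
  rw [sum_congr rfl h3]
  unfold Hs
  rw [mul_sum, ← sum_sub_distrib]
  refine sum_congr rfl fun n _ => ?_
  ring

/-- GN/MT1 -/
theorem mt1 (hm : S_MUB) (hs : S_SSL) (hp : S_P0B) : S_MT1 := by
  intro A
  obtain ⟨C1, hC1, h1⟩ := avg1 hm hp A
  obtain ⟨C2, hC2, h2⟩ := Hs_avg hm hp (A + 2)
  refine ⟨C1 + 2 * C2, by positivity, ?_⟩
  intro L y hL hy
  have hy0 : 0 < y := by linarith
  have hlog1 := log_ge_one hy
  set V : ℝ := Real.log y with hV
  have hV0 : 0 < V := by linarith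
  have heV : Real.exp V = y := Real.exp_log hy0
  constructor
  · refine (h1 L y hL hy).trans ?_
    gcongr
    linarith
  · -- the second sum
    have h3 : ∀ l ∈ Icc 1 ⌊L⌋, |1 / 4 * ∑ b ∈ bl y, mu b * (kap l b / nz b) * Real.log (nz b) + SS l| ≤
        V * |Hs (fl l) V| + ∫ v in Set.Ioi V, |Hs (fl l) v| := by
      intro l hl
      rw [mem_Icc] at hl
      have hint := Hs_int hm hp hl.1
      have e1 : 1 / 4 * ∑ b ∈ bl y, mu b * (kap l b / nz b) * Real.log (nz b) =
          V * Hs (fl l) V - ∫ v in Set.Ioc (0 : ℝ) V, Hs (fl l) v := by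
        rw [← log_sum hV0, heV, sum_cf l (fun n => Real.log n) hy0.le]
        congr 1
        refine sum_congr rfl fun b _ => ?_
        rw [nn_real]
      have e2 : SS l = (∫ v in Set.Ioc (0 : ℝ) V, Hs (fl l) v) + ∫ v in Set.Ioi V, Hs (fl l) v := by
        rw [← int_eq hm hs hp hl.1, ← Set.Ioc_union_Ioi_eq_Ioi hV0.le]
        apply setIntegral_union (Set.Ioc_disjoint_Ioi le_rfl) measurableSet_Ioi
        · exact hint.mono_set (fun x hx => hx.1)
        · exact hint.mono_set (fun x hx => lt_trans hV0 hx)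
      rw [e1, e2]
      have e3 : V * Hs (fl l) V - (∫ v in Set.Ioc (0 : ℝ) V, Hs (fl l) v) +
          ((∫ v in Set.Ioc (0 : ℝ) V, Hs (fl l) v) + ∫ v in Set.Ioi V, Hs (fl l) v) =
          V * Hs (fl l) V + ∫ v in Set.Ioi V, Hs (fl l) v := by ring
      rw [e3]
      refine (abs_add_le _ _).trans ?_
      rw [abs_mul, abs_of_pos hV0]
      gcongr
      exact norm_integral_le_integral_norm (f := Hs (fl l)) (μ := volume.restrict (Set.Ioi V))
    refine (sum_le_sum h3).trans ?_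
    rw [sum_add_distrib, ← mul_sum]
    have h4 := h2 L V hL (by rw [heV]; exact hy)
    have hintV : ∀ l ∈ Icc 1 ⌊L⌋, IntegrableOn (fun v => |Hs (fl l) v|) (Set.Ioi V) := by
      intro l hl
      rw [mem_Icc] at hl
      exact ((Hs_int hm hp hl.1).mono_set (fun x hx => lt_trans hV0 hx)).abs
    have h5 : ∑ l ∈ Icc 1 ⌊L⌋, ∫ v in Set.Ioi V, |Hs (fl l) v| ≤ C2 * L / V ^ (A + 1) := by
      rw [← integral_finsetSum _ hintV]
      have h6 : IntegrableOn (fun v : ℝ => C2 * L * v ^ (-((A : ℝ) + 2))) (Set.Ioi V) :=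
        (integrableOn_Ioi_rpow_of_lt (by have : (0 : ℝ) ≤ A := Nat.cast_nonneg A; linarith) hV0).const_mul _
      calc ∫ v in Set.Ioi V, ∑ l ∈ Icc 1 ⌊L⌋, |Hs (fl l) v| ≤ ∫ v in Set.Ioi V, C2 * L * v ^ (-((A : ℝ) + 2)) := by
            refine setIntegral_mono_on (integrable_finsetSum _ hintV) h6 measurableSet_Ioi ?_
            intro v hv
            have hv : V < v := hv
            have h7 := h2 L v hL (by
              have : Real.exp V ≤ Real.exp v := Real.exp_le_exp.2 hv.le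
              linarith)
            refine h7.trans (le_of_eq ?_)
            rw [Real.rpow_neg (by linarith), div_eq_mul_inv]
            congr 2
            rw [← Real.rpow_natCast]
            push_cast
            rfl
        _ = C2 * L * (V ^ (-((A : ℝ) + 1)) / (A + 1)) := by
            rw [integral_const_mul, integral_Ioi_rpow_of_lt (by have : (0 : ℝ) ≤ A := Nat.cast_nonneg A; linarith) hV0]
            have e1 : -((A : ℝ) + 2) + 1 = -((A : ℝ) + 1) := by ring
            rw [e1]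
            rw [neg_div_neg_eq]
        _ ≤ C2 * L * V ^ (-((A : ℝ) + 1)) := by
            apply mul_le_mul_of_nonneg_left _ (by positivity)
            apply div_le_self (by positivity)
            have : (0 : ℝ) ≤ A := Nat.cast_nonneg A
            linarith
        _ = C2 * L / V ^ (A + 1) := by
            rw [Real.rpow_neg hV0.le, div_eq_mul_inv]
            congr 2
            rw [← Real.rpow_natCast]
            push_cast
            rfl
    have h6 : V * ∑ l ∈ Icc 1 ⌊L⌋, |Hs (fl l) V| ≤ C2 * L / V ^ (A + 1) := by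
      calc V * ∑ l ∈ Icc 1 ⌊L⌋, |Hs (fl l) V| ≤ V * (C2 * L / V ^ (A + 2)) := by gcongr
        _ = C2 * L / V ^ (A + 1) := by
            rw [pow_succ V (A + 1)]
            field_simp
    have h7 : C2 * L / V ^ (A + 1) ≤ C2 * L / V ^ A := by
      apply div_le_div_of_nonneg_left (by positivity) (by positivity)
      exact pow_le_pow_right₀ hlog1 (by omega)
    calc V * ∑ l ∈ Icc 1 ⌊L⌋, |Hs (fl l) V| + ∑ l ∈ Icc 1 ⌊L⌋, ∫ v in Set.Ioi V, |Hs (fl l) v|
        ≤ C2 * L / V ^ A + C2 * L / V ^ A := by linarith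
      _ = 2 * C2 * L / V ^ A := by ring
      _ ≤ (C1 + 2 * C2) * L / V ^ A := by
          gcongr
          linarith

end Pool.Agent.N866.GN.MT
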