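import Pool.Agent.N866.GN.P0Aa
import Pool.Agent.N27.GN.PerA
import Pool.Agent.N521.GN.Mt2a

/-!
# Project GN, MT1, part a: the first inequality, from P0B (decomposition by the content)
-/

set_option autoImplicit false

namespace Pool.Agent.N866.GN.MT

open Finset
open Pool.Agent.N782.GN
open Pool.Agent.H304R3.HK (UH bb LamK lg_bb)
open Pool.Agent.N521.GN (nn nn_real nn_mul nn_P nn_pos dvd_ct ct_dvd ct_pos ct_sq_dvd)

/-! ### elementary sums -/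

lemma harm (N : ℕ) : ∑ n ∈ Icc 1 N, (1 : ℝ) / n ≤ 1 + Real.log N := by
  have h := harmonic_le_one_add_log N
  rw [harmonic_eq_sum_Icc] at h
  push_cast at h
  have e : ∑ n ∈ Icc 1 N, (1 / (n : ℝ)) = ∑ n ∈ Icc 1 N, ((n : ℝ))⁻¹ := by simp
  rw [e]; exact h

lemma conv_le (N : ℕ) (F : ℕ → ℕ → ℝ) (hF : ∀ a b, 0 ≤ F a b) :
    ∑ n ∈ Icc 1 N, ∑ i ∈ n.divisorsAntidiagonal, F i.1 i.2 ≤
      ∑ a ∈ Icc 1 N, ∑ b ∈ Icc 1 N, F a b := by
  rw [← sum_product' (Icc 1 N) (Icc 1 N) F]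
  have h1 : ∑ n ∈ Icc 1 N, ∑ i ∈ n.divisorsAntidiagonal, F i.1 i.2 =
      ∑ n ∈ Icc 1 N, ∑ p ∈ ((Icc 1 N ×ˢ Icc 1 N).filter (fun p => p.1 * p.2 ≤ N)).filter
        (fun p => p.1 * p.2 = n), F p.1 p.2 := by
    apply sum_congr rfl
    intro n hn
    rw [mem_Icc] at hn
    apply sum_congr _ (fun _ _ => rfl)
    ext ⟨a, b⟩
    rw [Nat.mem_divisorsAntidiagonal, mem_filter, mem_filter, mem_product, mem_Icc, mem_Icc]
    constructor
    · rintro ⟨h1, h2⟩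
      simp only at h1 ⊢
      have ha : a ≠ 0 := by rintro rfl; simp at h1; omega
      have hb : b ≠ 0 := by rintro rfl; simp at h1; omega
      have ha2 : a ≤ a * b := Nat.le_mul_of_pos_right a (by omega)
      have hb2 : b ≤ a * b := Nat.le_mul_of_pos_left b (by omega)
      refine ⟨⟨⟨⟨by omega, by omega⟩, by omega, by omega⟩, by omega⟩, h1⟩
    · rintro ⟨_, h2⟩
      exact ⟨h2, by omega⟩
  rw [h1, sum_fiberwise_of_maps_to]
  · apply sum_le_sum_of_subset_of_nonneg (filter_subset _ _)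
    intro p _ _
    exact hF _ _
  · intro p hp
    rw [mem_filter, mem_product, mem_Icc, mem_Icc] at hp
    rw [mem_Icc]
    exact ⟨Nat.mul_pos hp.1.1.1 hp.1.2.1, hp.2⟩

lemma card_anti (n : ℕ) : n.divisorsAntidiagonal.card = n.divisors.card := by
  rw [← Nat.map_div_right_divisors, card_map]

lemma tau_sum (N : ℕ) : ∑ n ∈ Icc 1 N, (n.divisors.card : ℝ) / n ≤ (1 + Real.log N) ^ 2 := by
  have h1 : ∑ n ∈ Icc 1 N, (n.divisors.card : ℝ) / n =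
      ∑ n ∈ Icc 1 N, ∑ i ∈ n.divisorsAntidiagonal, (1 : ℝ) / i.1 * (1 / i.2) := by
    apply sum_congr rfl
    intro n hn
    have h2 : ∀ i ∈ n.divisorsAntidiagonal, (1 : ℝ) / i.1 * (1 / i.2) = 1 / n := by
      intro i hi
      rw [Nat.mem_divisorsAntidiagonal] at hi
      rw [← hi.1]; push_cast; rw [one_div_mul_one_div]
    rw [sum_congr rfl h2, sum_const, nsmul_eq_mul, card_anti]
    ring
  rw [h1]
  refine (conv_le N (fun a b => (1 : ℝ) / a * (1 / b)) (fun a b => by positivity)).trans ?_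
  have h3 : 0 ≤ ∑ c ∈ Icc 1 N, (1 : ℝ) / c := sum_nonneg fun _ _ => by positivity
  have h4 := harm N
  rw [← sum_mul_sum, ← sq]
  exact pow_le_pow_left₀ h3 h4 2

/-- `∑_{N(t) ≤ x} 1 / N(t)` -/
theorem sum_inv {x : ℝ} (hx : 1 ≤ x) : ∑ t ∈ bl x, 1 / nz t ≤ 4 * (1 + Real.log x) ^ 2 := by
  have h1 := sum_bb (fun _ => (1 : ℂ)) (fun n => (1 / (n : ℂ))) x (by linarith)
  have h2 : ((∑ t ∈ bl x, 1 / nz t : ℝ) : ℂ) =
      4 * ∑ n ∈ Icc 1 ⌊x⌋₊, bb (fun _ => (1 : ℂ)) n * (1 / (n : ℂ)) := by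
    rw [h1, ← mul_assoc]
    norm_num
    refine sum_congr rfl fun z _ => ?_
    rw [nz_natAbs]
    norm_num
  have h3 : ‖((∑ t ∈ bl x, 1 / nz t : ℝ) : ℂ)‖ ≤ 4 * ∑ n ∈ Icc 1 ⌊x⌋₊, (n.divisors.card : ℝ) / n := by
    rw [h2, norm_mul]
    have e : ‖(4 : ℂ)‖ = 4 := by norm_num
    rw [e]
    gcongr
    refine norm_sum_le_of_le _ fun n hn => ?_
    rw [mem_Icc] at hn
    rw [norm_mul, norm_div, norm_one, Complex.norm_natCast, mul_one_div]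
    gcongr
    exact Pool.Agent.N27.GN.bb_le _ (fun z => by simp) n (by omega)
  rw [Complex.norm_real] at h3
  have h4 := (le_abs_self _).trans h3
  refine h4.trans ?_
  have hN : 1 ≤ ⌊x⌋₊ := Nat.le_floor (by simpa using hx)
  have hN1 : (1 : ℝ) ≤ ⌊x⌋₊ := by exact_mod_cast hN
  have h5 := tau_sum ⌊x⌋₊
  have h6 : Real.log ⌊x⌋₊ ≤ Real.log x := Real.log_le_log (by linarith) (Nat.floor_le (by linarith))
  have h7 : 0 ≤ Real.log ⌊x⌋₊ := Real.log_nonneg hN1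
  calc 4 * ∑ n ∈ Icc 1 ⌊x⌋₊, (n.divisors.card : ℝ) / n ≤ 4 * (1 + Real.log ⌊x⌋₊) ^ 2 := by gcongr
    _ ≤ 4 * (1 + Real.log x) ^ 2 := by gcongr

theorem bl_mono {x y : ℝ} (h : x ≤ y) : bl x ⊆ bl y := by
  intro z hz
  rw [mem_bl] at hz ⊢
  exact ⟨hz.1, hz.2.trans h⟩

open Classical in
/-- `∑ μ(t) / N(t)` over `t` coprime to `d` -/
noncomputable def Qd (d : ℕ) (x : ℝ) : ℝ :=
  ∑ t ∈ (bl x).filter (fun t => IsCoprime t ((d : ℕ) : ZI)), mu t / nz t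

theorem Qd_triv (d : ℕ) {x y : ℝ} (hy : 1 ≤ y) (hxy : x ≤ y) : |Qd d x| ≤ 4 * (1 + Real.log y) ^ 2 := by
  classical
  refine le_trans ?_ (sum_inv hy)
  unfold Qd
  refine (abs_sum_le_sum_abs _ _).trans ?_
  calc ∑ t ∈ (bl x).filter (fun t => IsCoprime t ((d : ℕ) : ZI)), |mu t / nz t|
      ≤ ∑ t ∈ (bl x).filter (fun t => IsCoprime t ((d : ℕ) : ZI)), 1 / nz t := by
        refine sum_le_sum fun t _ => ?_
        rw [abs_div, abs_of_nonneg (nz_nonneg t)]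
        exact div_le_div_of_nonneg_right (abs_mu_le t) (nz_nonneg t)
    _ ≤ ∑ t ∈ bl y, 1 / nz t := by
        refine sum_le_sum_of_subset_of_nonneg ((filter_subset _ _).trans (bl_mono hxy)) ?_
        intro t _ _
        exact div_nonneg zero_le_one (nz_nonneg t)

/-! ### inversion of the densities -/

/-- `n` if `n ∣ l` -/
noncomputable def gl (l : ℤ) (n : ℕ) : ℝ := if ((n : ℕ) : ℤ) ∣ l then (n : ℝ) else 0

theorem gl_nonneg (l : ℤ) (n : ℕ) : 0 ≤ gl l n := by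
  unfold gl
  split_ifs <;> positivity

/-- the inverse -/
noncomputable def Fp (l : ℤ) (d : ℕ) : ℝ :=
  ∑ x ∈ d.divisorsAntidiagonal, ((ArithmeticFunction.moebius x.1 : ℤ) : ℝ) * gl l x.2

theorem Fp_sum (l : ℤ) {n : ℕ} (hn : 0 < n) : ∑ d ∈ n.divisors, Fp l d = gl l n :=
  (ArithmeticFunction.sum_eq_iff_sum_mul_moebius_eq (f := Fp l) (g := gl l)).2 (fun _ _ => rfl) n hn

theorem Fp_abs (l : ℤ) (d : ℕ) : |Fp l d| ≤ ∑ x ∈ d.divisorsAntidiagonal, gl l x.2 := by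
  unfold Fp
  refine (abs_sum_le_sum_abs _ _).trans (sum_le_sum fun x _ => ?_)
  rw [abs_mul, abs_of_nonneg (gl_nonneg l x.2)]
  have h1 : |((ArithmeticFunction.moebius x.1 : ℤ) : ℝ)| ≤ 1 := by
    have := ArithmeticFunction.abs_moebius_le_one (n := x.1)
    rw [← Int.cast_abs]
    exact_mod_cast this
  calc _ ≤ 1 * gl l x.2 := mul_le_mul_of_nonneg_right h1 (gl_nonneg l x.2)
    _ = _ := one_mul _

theorem gl_avg {L : ℝ} (hL : 1 ≤ L) {c : ℕ} (hc : 0 < c) : ∑ l ∈ Icc 1 ⌊L⌋, gl l c ≤ L := by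
  classical
  have hc0 : (0 : ℝ) < c := by exact_mod_cast hc
  have hcz : (0 : ℤ) < c := by exact_mod_cast hc
  have h1 : ∑ l ∈ Icc 1 ⌊L⌋, gl l c = ((Icc 1 ⌊L⌋).filter (fun l : ℤ => ((c : ℕ) : ℤ) ∣ l)).card * (c : ℝ) := by
    unfold gl
    rw [← sum_filter, sum_const, nsmul_eq_mul]
  rw [h1]
  have h2 : ((Icc 1 ⌊L⌋).filter (fun l : ℤ => ((c : ℕ) : ℤ) ∣ l)).card ≤ (⌊L⌋ / (c : ℤ)).toNat := by
    have h3 : (Icc 1 ⌊L⌋).filter (fun l : ℤ => ((c : ℕ) : ℤ) ∣ l) ⊆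
        (Icc 1 (⌊L⌋ / (c : ℤ))).image (fun k => (c : ℤ) * k) := by
      intro l hl
      rw [mem_filter, mem_Icc] at hl
      obtain ⟨k, rfl⟩ := hl.2
      rw [mem_image]
      refine ⟨k, ?_, rfl⟩
      rw [mem_Icc]
      constructor
      · by_contra h
        push Not at h
        nlinarith [hl.1.1]
      · rw [Int.le_ediv_iff_mul_le hcz]
        linarith [hl.1.2]
    refine (card_le_card h3).trans (card_image_le.trans ?_)
    rw [Int.card_Icc]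
    simp
  have h0 : 0 ≤ ⌊L⌋ / (c : ℤ) := Int.ediv_nonneg (Int.floor_nonneg.2 (by linarith)) hcz.le
  have h4 : (((⌊L⌋ / (c : ℤ)).toNat : ℕ) : ℝ) = ((⌊L⌋ / (c : ℤ) : ℤ) : ℝ) := by
    have : (((⌊L⌋ / (c : ℤ)).toNat : ℕ) : ℤ) = ⌊L⌋ / (c : ℤ) := Int.toNat_of_nonneg h0
    exact_mod_cast this
  have h5 : ((⌊L⌋ / (c : ℤ) : ℤ) : ℝ) * c ≤ L := by
    have h6 : ⌊L⌋ / (c : ℤ) * c ≤ ⌊L⌋ := Int.ediv_mul_le _ hcz.ne'
    have h7 : ((⌊L⌋ / (c : ℤ) * c : ℤ) : ℝ) ≤ ((⌊L⌋ : ℤ) : ℝ) := by exact_mod_cast h6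
    push_cast at h7
    exact h7.trans (Int.floor_le L)
  calc (((Icc 1 ⌊L⌋).filter (fun l : ℤ => ((c : ℕ) : ℤ) ∣ l)).card : ℝ) * (c : ℝ)
      ≤ (((⌊L⌋ / (c : ℤ)).toNat : ℕ) : ℝ) * c := by
        gcongr
    _ = ((⌊L⌋ / (c : ℤ) : ℤ) : ℝ) * c := by rw [h4]
    _ ≤ L := h5

theorem Fp_avg {L : ℝ} (hL : 1 ≤ L) {d : ℕ} (hd : 0 < d) :
    ∑ l ∈ Icc 1 ⌊L⌋, |Fp l d| ≤ d.divisors.card * L := by
  calc ∑ l ∈ Icc 1 ⌊L⌋, |Fp l d| ≤ ∑ l ∈ Icc 1 ⌊L⌋, ∑ x ∈ d.divisorsAntidiagonal, gl l x.2 :=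
        sum_le_sum fun l _ => Fp_abs l d
    _ = ∑ x ∈ d.divisorsAntidiagonal, ∑ l ∈ Icc 1 ⌊L⌋, gl l x.2 := sum_comm
    _ ≤ ∑ x ∈ d.divisorsAntidiagonal, L := by
        refine sum_le_sum fun x hx => gl_avg hL ?_
        rw [Nat.mem_divisorsAntidiagonal] at hx
        rcases Nat.eq_zero_or_pos x.2 with h | h
        · rw [h, mul_zero] at hx; omega
        · exact h
    _ = d.divisors.card * L := by rw [sum_const, nsmul_eq_mul, card_anti]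

theorem kap_eq (l : ℤ) (b : ZI) : kap l b = gl l (ct b) := rfl

theorem cast_ne {d : ℕ} (hd : 0 < d) : ((d : ℕ) : ZI) ≠ 0 := by
  intro h
  have := nn_P d
  rw [h] at this
  have h3 : nn (0 : ZI) = 0 := by decide
  rw [h3] at this
  nlinarith

theorem nz_cast (d : ℕ) : nz ((d : ℕ) : ZI) = (d : ℝ) ^ 2 := by
  rw [← nn_real, nn_P]
  push_cast
  ring

open Classical in
/-- multiples of `d` -/
theorem sum_mult (hm : S_MUB) {d : ℕ} (hd : 0 < d) (y : ℝ) (g : ZI → ℝ)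
    (hg : ∀ b, g (((d : ℕ) : ZI) * b) = g ((d : ℕ) : ZI) * g b) :
    (∑ b ∈ bl y, if ((d : ℕ) : ZI) ∣ b then mu b * g b else 0) =
      mu ((d : ℕ) : ZI) * g ((d : ℕ) : ZI) *
        ∑ t ∈ (bl (y / (d : ℝ) ^ 2)).filter (fun t => IsCoprime t ((d : ℕ) : ZI)), mu t * g t := by
  have hd0 := cast_ne hd
  have hdr : (0 : ℝ) < d := by exact_mod_cast hd
  rw [← sum_filter]
  have h1 : ∑ b ∈ (bl y).filter (fun b => ((d : ℕ) : ZI) ∣ b), mu b * g b =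
      ∑ t ∈ bl (y / (d : ℝ) ^ 2), mu (((d : ℕ) : ZI) * t) * g (((d : ℕ) : ZI) * t) := by
    symm
    refine sum_bij (fun t _ => ((d : ℕ) : ZI) * t) ?_ ?_ ?_ ?_
    · intro t ht
      rw [mem_bl, le_div_iff₀ (by positivity)] at ht
      rw [mem_filter, mem_bl, nz_mul, nz_cast]
      exact ⟨⟨mul_ne_zero hd0 ht.1, by linarith [ht.2]⟩, dvd_mul_right _ _⟩
    · intro a _ b _ h
      exact mul_left_cancel₀ hd0 h
    · intro b hb
      rw [mem_filter, mem_bl] at hb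
      obtain ⟨t, rfl⟩ := hb.2
      refine ⟨t, ?_, rfl⟩
      rw [mem_bl, le_div_iff₀ (by positivity)]
      have h2 := hb.1.2
      rw [nz_mul, nz_cast] at h2
      exact ⟨right_ne_zero_of_mul hb.1.1, by linarith⟩
    · intro t _
      rfl
  rw [h1, sum_filter, mul_sum]
  refine sum_congr rfl fun t ht => ?_
  rw [mem_bl] at ht
  by_cases hc : IsCoprime t ((d : ℕ) : ZI)
  · rw [if_pos hc, hm.1 _ _ hc.symm, hg]
    ring
  · rw [if_neg hc, mul_zero, hm.2.1 _ _ hd0 ht.1 (fun h => hc h.symm), zero_mul]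

open Classical in
/-- the divisors of the content -/
theorem ct_divisors {y : ℝ} {b : ZI} (hb : b ∈ bl y) :
    (ct b).divisors = (Icc 1 ⌊Real.sqrt y⌋₊).filter (fun d : ℕ => ((d : ℕ) : ZI) ∣ b) := by
  rw [mem_bl] at hb
  ext d
  rw [Nat.mem_divisors, mem_filter, mem_Icc, dvd_ct]
  constructor
  · rintro ⟨h1, h2⟩
    have hd0 : 0 < d := by
      rcases Nat.eq_zero_or_pos d with h | h
      · rw [h, Nat.cast_zero, zero_dvd_iff] at h1
        exact absurd h1 hb.1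
      · exact h
    refine ⟨⟨hd0, Nat.le_floor ?_⟩, h1⟩
    apply Real.le_sqrt_of_sq_le
    refine le_trans ?_ hb.2
    obtain ⟨c, hc⟩ := h1
    have hc0 : c ≠ 0 := by
      rintro rfl
      exact hb.1 (by rw [hc, mul_zero])
    rw [hc, nz_mul, nz_cast]
    have := one_le_nz hc0
    have h3 : (0 : ℝ) ≤ (d : ℝ) ^ 2 := by positivity
    nlinarith
  · rintro ⟨_, h1⟩
    exact ⟨h1, by have := ct_pos hb.1; omega⟩

open Classical in
/-- decomposition by the content -/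
theorem dec_ct (hm : S_MUB) (l : ℤ) (y : ℝ) (g : ZI → ℝ) (hg : ∀ a b, g (a * b) = g a * g b) :
    ∑ b ∈ bl y, mu b * (kap l b * g b) = ∑ d ∈ Icc 1 ⌊Real.sqrt y⌋₊, Fp l d *
      (mu ((d : ℕ) : ZI) * g ((d : ℕ) : ZI) *
        ∑ t ∈ (bl (y / (d : ℝ) ^ 2)).filter (fun t => IsCoprime t ((d : ℕ) : ZI)), mu t * g t) := by
  have h1 : ∀ b ∈ bl y, mu b * (kap l b * g b) = ∑ d ∈ Icc 1 ⌊Real.sqrt y⌋₊,
      Fp l d * (if ((d : ℕ) : ZI) ∣ b then mu b * g b else 0) := by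
    intro b hb
    have hb' := (mem_bl y b).1 hb
    rw [kap_eq, ← Fp_sum l (ct_pos hb'.1), ct_divisors hb, sum_filter, sum_mul, mul_sum]
    refine sum_congr rfl fun d _ => ?_
    split_ifs <;> ring
  rw [sum_congr rfl h1, sum_comm]
  refine sum_congr rfl fun d hd => ?_
  rw [mem_Icc] at hd
  rw [← mul_sum, sum_mult hm hd.1 y g (fun b => hg _ _)]

end Pool.Agent.N866.GN.MT
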