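import Pool.Agent.N866.GN.M1a

/-!
# Project GN, MT1, part b: the first inequality
-/

set_option autoImplicit false

namespace Pool.Agent.N866.GN.MT

open Finset
open Pool.Agent.N782.GN

theorem log_ge_one {y : ℝ} (hy : 3 ≤ y) : 1 ≤ Real.log y := by
  rw [Real.le_log_iff_exp_le (by linarith)]
  have := Real.exp_one_lt_d9
  linarith

/-- bound of the coprime sums for all `d` -/
theorem Qd_bd (hp : S_P0B) (A : ℕ) : ∃ C : ℝ, 0 < C ∧ ∀ (y : ℝ) (d : ℕ), 3 ≤ y → 1 ≤ d →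
    |Qd d (y / (d : ℝ) ^ 2)| ≤ C * (d : ℝ) ^ (1 / 4 : ℝ) / (Real.log y) ^ A := by
  obtain ⟨C, hC, h⟩ := hp A (8 * (A + 2))
  obtain ⟨y₀, hy₀⟩ := Filter.eventually_atTop.1
    ((Real.isLittleO_pow_log_id_atTop (n := 16 * (A + 2))).bound (c := 1) one_pos)
  set y₁ : ℝ := max y₀ (Real.exp 4) with hy₁
  have hy₁4 : Real.exp 4 ≤ y₁ := le_max_right _ _
  have hly₁ : 4 ≤ Real.log y₁ := by
    rw [Real.le_log_iff_exp_le (lt_of_lt_of_le (Real.exp_pos 4) hy₁4)]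
    exact hy₁4
  refine ⟨C * 2 ^ A + 16 * (Real.log y₁) ^ (A + 2) + 16, by positivity, ?_⟩
  intro y d hy hd
  have hlog1 := log_ge_one hy
  have hd1 : (1 : ℝ) ≤ d := by exact_mod_cast hd
  have hd0 : (0 : ℝ) < d := by linarith
  have hy0 : 0 < y := by linarith
  have hd14 : (1 : ℝ) ≤ (d : ℝ) ^ (1 / 4 : ℝ) := Real.one_le_rpow hd1 (by norm_num)
  have hyd : y / (d : ℝ) ^ 2 ≤ y := div_le_self hy0.le (one_le_pow₀ hd1)
  have htriv : |Qd d (y / (d : ℝ) ^ 2)| ≤ 16 * (Real.log y) ^ 2 := by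
    refine (Qd_triv d (by linarith) hyd).trans ?_
    have h2 : 1 + Real.log y ≤ 2 * Real.log y := by linarith
    calc 4 * (1 + Real.log y) ^ 2 ≤ 4 * (2 * Real.log y) ^ 2 := by gcongr
      _ = 16 * (Real.log y) ^ 2 := by ring
  have hly₁0 : 0 ≤ (Real.log y₁) ^ (A + 2) := by positivity
  rw [le_div_iff₀ (by positivity)]
  rcases lt_or_ge y y₁ with hsmall | hlarge
  · -- small `y`
    have h2 : Real.log y ≤ Real.log y₁ := Real.log_le_log hy0 hsmall.le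
    calc |Qd d (y / (d : ℝ) ^ 2)| * (Real.log y) ^ A ≤ 16 * (Real.log y) ^ 2 * (Real.log y) ^ A := by gcongr
      _ = 16 * (Real.log y) ^ (A + 2) * 1 := by ring
      _ ≤ 16 * (Real.log y₁) ^ (A + 2) * (d : ℝ) ^ (1 / 4 : ℝ) := by gcongr
      _ ≤ (C * 2 ^ A + 16 * (Real.log y₁) ^ (A + 2) + 16) * (d : ℝ) ^ (1 / 4 : ℝ) := by
          gcongr
          have : 0 ≤ C * 2 ^ A := by positivity
          linarith
  rcases lt_or_ge ((Real.log y) ^ (4 * (A + 2))) d with hbig | hd2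
  · -- large `d`
    have h2 : (Real.log y) ^ (A + 2) ≤ (d : ℝ) ^ (1 / 4 : ℝ) := by
      calc (Real.log y) ^ (A + 2) = ((Real.log y) ^ (4 * (A + 2))) ^ (1 / 4 : ℝ) := by
            rw [← Real.rpow_natCast, ← Real.rpow_natCast, ← Real.rpow_mul (by linarith)]
            congr 1
            push_cast
            ring
        _ ≤ (d : ℝ) ^ (1 / 4 : ℝ) := Real.rpow_le_rpow (by positivity) hbig.le (by norm_num)
    calc |Qd d (y / (d : ℝ) ^ 2)| * (Real.log y) ^ A ≤ 16 * (Real.log y) ^ 2 * (Real.log y) ^ A := by gcongr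
      _ = 16 * (Real.log y) ^ (A + 2) := by ring
      _ ≤ 16 * (d : ℝ) ^ (1 / 4 : ℝ) := by gcongr
      _ ≤ (C * 2 ^ A + 16 * (Real.log y₁) ^ (A + 2) + 16) * (d : ℝ) ^ (1 / 4 : ℝ) := by
          gcongr
          have : 0 ≤ C * 2 ^ A := by positivity
          linarith
  · -- small `d`
    have hly : 4 ≤ Real.log y := hly₁.trans (Real.log_le_log (lt_of_lt_of_le (Real.exp_pos 4) hy₁4) hlarge)
    have h16 : (Real.log y) ^ (16 * (A + 2)) ≤ y := by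
      have := hy₀ y ((le_max_left _ _).trans hlarge)
      rw [one_mul, id, Real.norm_of_nonneg (by positivity), Real.norm_of_nonneg hy0.le] at this
      exact this
    have hd2' : (d : ℝ) ^ 2 ≤ (Real.log y) ^ (8 * (A + 2)) := by
      calc (d : ℝ) ^ 2 ≤ ((Real.log y) ^ (4 * (A + 2))) ^ 2 := by gcongr
        _ = (Real.log y) ^ (8 * (A + 2)) := by ring
    have hsq : (d : ℝ) ^ 2 ≤ Real.sqrt y := by
      refine hd2'.trans ?_
      apply Real.le_sqrt_of_sq_le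
      refine le_trans (le_of_eq ?_) h16
      ring
    have hY : Real.sqrt y ≤ y / (d : ℝ) ^ 2 := by
      rw [le_div_iff₀ (by positivity)]
      calc Real.sqrt y * (d : ℝ) ^ 2 ≤ Real.sqrt y * Real.sqrt y := by gcongr
        _ = y := Real.mul_self_sqrt hy0.le
    have hsqpos : 0 < Real.sqrt y := Real.sqrt_pos.2 hy0
    have hlogs : Real.log (Real.sqrt y) = Real.log y / 2 := by
      rw [Real.log_sqrt hy0.le]
    have hlogY : Real.log y / 2 ≤ Real.log (y / (d : ℝ) ^ 2) := by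
      rw [← hlogs]
      exact Real.log_le_log hsqpos hY
    have hlogY2 : 2 ≤ Real.log (y / (d : ℝ) ^ 2) := by linarith
    have hY0 : 0 < y / (d : ℝ) ^ 2 := by positivity
    have hY2 : 2 ≤ y / (d : ℝ) ^ 2 := by
      have h3 := Real.add_one_le_exp (Real.log (y / (d : ℝ) ^ 2))
      rw [Real.exp_log hY0] at h3
      linarith
    have h3 := (h (y / (d : ℝ) ^ 2) d hY2 hd (by
      calc (d : ℝ) ≤ (Real.log y) ^ (4 * (A + 2)) := hd2
        _ ≤ (2 * Real.log (y / (d : ℝ) ^ 2)) ^ (4 * (A + 2)) := by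
            gcongr
            linarith
        _ ≤ ((Real.log (y / (d : ℝ) ^ 2)) ^ 2) ^ (4 * (A + 2)) := by
            gcongr
            nlinarith
        _ = (Real.log (y / (d : ℝ) ^ 2)) ^ (8 * (A + 2)) := by ring)).2
    have h4 : |Qd d (y / (d : ℝ) ^ 2)| ≤ C / (Real.log (y / (d : ℝ) ^ 2)) ^ A := h3
    have h5 : C / (Real.log (y / (d : ℝ) ^ 2)) ^ A ≤ C * 2 ^ A / (Real.log y) ^ A := by
      rw [div_le_div_iff₀ (by positivity) (by positivity)]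
      calc C * (Real.log y) ^ A ≤ C * (2 * Real.log (y / (d : ℝ) ^ 2)) ^ A := by
            gcongr
            linarith
        _ = C * 2 ^ A * (Real.log (y / (d : ℝ) ^ 2)) ^ A := by rw [mul_pow]; ring
    have h6 : |Qd d (y / (d : ℝ) ^ 2)| * (Real.log y) ^ A ≤ C * 2 ^ A := by
      have := h4.trans h5
      rwa [le_div_iff₀ (by positivity)] at this
    calc |Qd d (y / (d : ℝ) ^ 2)| * (Real.log y) ^ A ≤ C * 2 ^ A * 1 := by linarith
      _ ≤ (C * 2 ^ A + 16 * (Real.log y₁) ^ (A + 2) + 16) * (d : ℝ) ^ (1 / 4 : ℝ) := by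
          gcongr
          linarith

theorem tau_dir (N : ℕ) : ∑ d ∈ Icc 1 N, (d.divisors.card : ℝ) * ((d : ℝ) ^ (1 / 4 : ℝ) / (d : ℝ) ^ 2) ≤ 6 := by
  obtain ⟨h1, h2⟩ := Pool.Agent.N27.GN.dseries (σ := 7 / 4) (by norm_num)
  have h3 : ∑ d ∈ Icc 1 N, (d.divisors.card : ℝ) * ((d : ℝ) ^ (1 / 4 : ℝ) / (d : ℝ) ^ 2) =
      ∑ d ∈ Icc 1 N, (if d = 0 then 0 else (d.divisors.card : ℝ) / (d : ℝ) ^ (7 / 4 : ℝ)) := by
    refine sum_congr rfl fun d hd => ?_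
    rw [mem_Icc] at hd
    rw [if_neg (by omega)]
    have hd0 : (0 : ℝ) < d := by exact_mod_cast hd.1
    rw [div_eq_mul_inv ((d.divisors.card : ℝ))]
    congr 1
    rw [← Real.rpow_natCast (d : ℝ) 2, ← Real.rpow_sub hd0, ← Real.rpow_neg hd0.le]
    norm_num
  rw [h3]
  refine (h1.sum_le_tsum _ fun d _ => ?_).trans (h2.trans ?_)
  · split_ifs <;> positivity
  · norm_num

theorem avg1 (hm : S_MUB) (hp : S_P0B) (A : ℕ) : ∃ C : ℝ, 0 < C ∧ ∀ (L y : ℝ), 1 ≤ L → 3 ≤ y →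
    ∑ l ∈ Icc 1 ⌊L⌋, |∑ b ∈ bl y, mu b * (kap l b / nz b)| ≤ C * L / (Real.log y) ^ A := by
  classical
  obtain ⟨C, hC, h⟩ := Qd_bd hp A
  refine ⟨6 * C, by positivity, ?_⟩
  intro L y hL hy
  have hlog1 := log_ge_one hy
  have hlA : 0 < (Real.log y) ^ A := by positivity
  have h1 : ∀ l : ℤ, |∑ b ∈ bl y, mu b * (kap l b / nz b)| ≤ ∑ d ∈ Icc 1 ⌊Real.sqrt y⌋₊,
      |Fp l d| * (C / (Real.log y) ^ A * ((d : ℝ) ^ (1 / 4 : ℝ) / (d : ℝ) ^ 2)) := by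
    intro l
    have h2 := dec_ct hm l y (fun b => (nz b)⁻¹) (fun a b => by rw [nz_mul, mul_inv])
    have h3 : ∑ b ∈ bl y, mu b * (kap l b / nz b) = ∑ b ∈ bl y, mu b * (kap l b * (nz b)⁻¹) := by
      refine sum_congr rfl fun b _ => ?_
      rw [div_eq_mul_inv]
    rw [h3, h2]
    refine (abs_sum_le_sum_abs _ _).trans (sum_le_sum fun d hd => ?_)
    rw [mem_Icc] at hd
    have hd0 : (0 : ℝ) < d := by exact_mod_cast hd.1
    rw [abs_mul, abs_mul, abs_mul]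
    apply mul_le_mul_of_nonneg_left _ (abs_nonneg _)
    have h4 : |∑ t ∈ (bl (y / (d : ℝ) ^ 2)).filter (fun t => IsCoprime t ((d : ℕ) : ZI)), mu t * (nz t)⁻¹| =
        |Qd d (y / (d : ℝ) ^ 2)| := by
      unfold Qd
      simp only [div_eq_mul_inv]
    rw [h4]
    have h5 := h y d hy hd.1
    have h6 : |(nz ((d : ℕ) : ZI))⁻¹| = 1 / (d : ℝ) ^ 2 := by
      rw [nz_cast, abs_of_nonneg (by positivity), one_div]
    rw [h6]
    calc |mu ((d : ℕ) : ZI)| * (1 / (d : ℝ) ^ 2) * |Qd d (y / (d : ℝ) ^ 2)|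
        ≤ 1 * (1 / (d : ℝ) ^ 2) * (C * (d : ℝ) ^ (1 / 4 : ℝ) / (Real.log y) ^ A) := by
          gcongr
          exact abs_mu_le _
      _ = C / (Real.log y) ^ A * ((d : ℝ) ^ (1 / 4 : ℝ) / (d : ℝ) ^ 2) := by ring
  calc ∑ l ∈ Icc 1 ⌊L⌋, |∑ b ∈ bl y, mu b * (kap l b / nz b)|
      ≤ ∑ l ∈ Icc 1 ⌊L⌋, ∑ d ∈ Icc 1 ⌊Real.sqrt y⌋₊,
        |Fp l d| * (C / (Real.log y) ^ A * ((d : ℝ) ^ (1 / 4 : ℝ) / (d : ℝ) ^ 2)) :=
        sum_le_sum fun l _ => h1 l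
    _ = ∑ d ∈ Icc 1 ⌊Real.sqrt y⌋₊, (∑ l ∈ Icc 1 ⌊L⌋, |Fp l d|) *
        (C / (Real.log y) ^ A * ((d : ℝ) ^ (1 / 4 : ℝ) / (d : ℝ) ^ 2)) := by
        rw [sum_comm]
        refine sum_congr rfl fun d _ => ?_
        rw [sum_mul]
    _ ≤ ∑ d ∈ Icc 1 ⌊Real.sqrt y⌋₊, (d.divisors.card * L) *
        (C / (Real.log y) ^ A * ((d : ℝ) ^ (1 / 4 : ℝ) / (d : ℝ) ^ 2)) := by
        refine sum_le_sum fun d hd => ?_
        rw [mem_Icc] at hd
        exact mul_le_mul_of_nonneg_right (Fp_avg hL hd.1) (by positivity)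
    _ = (C * L / (Real.log y) ^ A) *
        ∑ d ∈ Icc 1 ⌊Real.sqrt y⌋₊, (d.divisors.card : ℝ) * ((d : ℝ) ^ (1 / 4 : ℝ) / (d : ℝ) ^ 2) := by
        rw [mul_sum]
        refine sum_congr rfl fun d _ => ?_
        ring
    _ ≤ (C * L / (Real.log y) ^ A) * 6 := by
        gcongr
        exact tau_dir _
    _ = 6 * C * L / (Real.log y) ^ A := by ring

end Pool.Agent.N866.GN.MT
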