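import Mathlib

/-!
# Project GN, MT1, part c: Dirichlet series and integrals of their partial sums
-/

set_option autoImplicit false

namespace Pool.Agent.N866.GN.MT

open Finset MeasureTheory Filter Topology

/-- partial sums -/
noncomputable def Hs (f : ℕ → ℝ) (v : ℝ) : ℝ := ∑ n ∈ Icc 1 ⌊Real.exp v⌋₊, f n

theorem Hs_meas (f : ℕ → ℝ) : Measurable (Hs f) := by
  have h1 : Measurable (fun N : ℕ => ∑ n ∈ Icc 1 N, f n) := measurable_from_top
  exact h1.comp (Nat.measurable_floor.comp Real.measurable_exp)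

theorem int_piece {ε : ℝ} (hε : 0 < ε) {a : ℝ} (ha : 0 ≤ a) :
    IntegrableOn (fun v : ℝ => if a ≤ v then ε * Real.exp (-(ε * v)) else 0) (Set.Ioi 0) ∧
    ∫ v in Set.Ioi (0 : ℝ), (if a ≤ v then ε * Real.exp (-(ε * v)) else 0) = Real.exp (-(ε * a)) := by
  have h1 : IntegrableOn (fun v : ℝ => ε * Real.exp (-(ε * v))) (Set.Ioi a) := by
    have h0 : IntegrableOn (fun v : ℝ => ε * Real.exp (-ε * v)) (Set.Ioi a) :=
      (integrableOn_exp_mul_Ioi (a := -ε) (by linarith) a).const_mul ε
    refine IntegrableOn.congr_fun h0 (fun v _ => ?_) measurableSet_Ioi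
    simp only [neg_mul]
  have h2 : ∫ v in Set.Ioi a, ε * Real.exp (-(ε * v)) = Real.exp (-(ε * a)) := by
    rw [integral_const_mul]
    have h3 := integral_exp_mul_Ioi (a := -ε) (by linarith) a
    have h4 : ∫ v in Set.Ioi a, Real.exp (-(ε * v)) = ∫ v in Set.Ioi a, Real.exp (-ε * v) := by
      refine setIntegral_congr_fun measurableSet_Ioi fun v _ => ?_
      simp only [neg_mul]
    rw [h4, h3]
    field_simp
  have hset : (Set.Ici a ∩ Set.Ioi (0 : ℝ) : Set ℝ) =ᵐ[volume] (Set.Ioi a : Set ℝ) := by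
    rcases ha.eq_or_lt with h | h
    · rw [← h]
      have : Set.Ici (0 : ℝ) ∩ Set.Ioi 0 = Set.Ioi 0 := by
        ext x; simp only [Set.mem_inter_iff, Set.mem_Ici, Set.mem_Ioi]; constructor
        · exact fun h => h.2
        · exact fun h => ⟨h.le, h⟩
      rw [this]
    · have : Set.Ici a ∩ Set.Ioi 0 = Set.Ici a := by
        ext x; simp only [Set.mem_inter_iff, Set.mem_Ici, Set.mem_Ioi]; constructor
        · exact fun h => h.1
        · exact fun h' => ⟨h', lt_of_lt_of_le h h'⟩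
      rw [this]
      exact Ioi_ae_eq_Ici.symm
  have hfun : (fun v : ℝ => if a ≤ v then ε * Real.exp (-(ε * v)) else 0) =
      (Set.Ici a).indicator (fun v : ℝ => ε * Real.exp (-(ε * v))) := by
    funext v
    rw [Set.indicator_apply]
    rfl
  rw [hfun]
  constructor
  · rw [IntegrableOn, integrable_indicator_iff measurableSet_Ici, IntegrableOn,
      Measure.restrict_restrict measurableSet_Ici]
    rw [Measure.restrict_congr_set hset]
    exact h1
  · rw [integral_indicator measurableSet_Ici, Measure.restrict_restrict measurableSet_Ici,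
      Measure.restrict_congr_set hset, h2]

/-- a Dirichlet series as an integral of the partial sums -/
theorem dir_int {f : ℕ → ℝ} (hf0 : f 0 = 0) {ε : ℝ} (hε : 0 < ε)
    (hs : Summable (fun n : ℕ => |f n| * (n : ℝ) ^ (-ε))) :
    ∑' n : ℕ, f n * (n : ℝ) ^ (-ε) = ∫ v in Set.Ioi (0 : ℝ), ε * Real.exp (-(ε * v)) * Hs f v := by
  set F : ℕ → ℝ → ℝ := fun n v => f n * (if Real.log n ≤ v then ε * Real.exp (-(ε * v)) else 0) with hF
  have hlog : ∀ n : ℕ, 0 ≤ Real.log n := fun n => Real.log_natCast_nonneg n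
  have hval : ∀ n : ℕ, f n * Real.exp (-(ε * Real.log n)) = f n * (n : ℝ) ^ (-ε) := by
    intro n
    rcases Nat.eq_zero_or_pos n with rfl | hn
    · rw [hf0, zero_mul, zero_mul]
    · rw [Real.rpow_def_of_pos (by exact_mod_cast hn)]
      congr 2
      ring
  have hint : ∀ n, Integrable (F n) (volume.restrict (Set.Ioi 0)) := fun n =>
    (int_piece hε (hlog n)).1.const_mul (f n)
  have hI : ∀ n, ∫ v in Set.Ioi (0 : ℝ), F n v = f n * (n : ℝ) ^ (-ε) := by
    intro n
    rw [hF]
    simp only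
    rw [integral_const_mul, (int_piece hε (hlog n)).2, hval]
  have hIn : ∀ n, ∫ v in Set.Ioi (0 : ℝ), ‖F n v‖ = |f n| * (n : ℝ) ^ (-ε) := by
    intro n
    have h1 : ∀ v, ‖F n v‖ = |f n| * (if Real.log n ≤ v then ε * Real.exp (-(ε * v)) else 0) := by
      intro v
      rw [hF]
      simp only
      rw [norm_mul, Real.norm_eq_abs]
      congr 1
      split_ifs
      · rw [Real.norm_of_nonneg (by positivity)]
      · rw [norm_zero]
    simp_rw [h1]
    rw [integral_const_mul, (int_piece hε (hlog n)).2]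
    rcases Nat.eq_zero_or_pos n with rfl | hn
    · rw [hf0, abs_zero, zero_mul, zero_mul]
    · rw [Real.rpow_def_of_pos (by exact_mod_cast hn)]
      congr 2
      ring
  have key := hasSum_integral_of_summable_integral_norm hint (by simp_rw [hIn]; exact hs)
  simp_rw [hI] at key
  rw [key.tsum_eq]
  refine setIntegral_congr_fun measurableSet_Ioi fun v hv => ?_
  have hv : 0 < v := hv
  have h1 : ∀ n ∉ Icc 1 ⌊Real.exp v⌋₊, F n v = 0 := by
    intro n hn
    rw [mem_Icc, not_and_or] at hn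
    rw [hF]
    simp only
    rcases hn with h | h
    · have : n = 0 := by omega
      rw [this, hf0, zero_mul]
    · push Not at h
      have hn0 : 0 < n := by omega
      rw [if_neg, mul_zero]
      intro h2
      have h3 : (n : ℝ) ≤ Real.exp v := by
        rwa [Real.log_le_iff_le_exp (by exact_mod_cast hn0)] at h2
      have := Nat.le_floor h3
      omega
  beta_reduce
  rw [tsum_eq_sum h1]
  unfold Hs
  rw [mul_sum]
  refine sum_congr rfl fun n hn => ?_
  rw [mem_Icc] at hn
  rw [hF]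
  simp only
  have hn0 : (0 : ℝ) < n := by exact_mod_cast hn.1
  have h3 : (n : ℝ) ≤ Real.exp v := (Nat.le_floor_iff (Real.exp_pos v).le).1 hn.2
  rw [if_pos ((Real.log_le_iff_le_exp hn0).2 h3)]
  ring

/-- Abel's theorem for Dirichlet series -/
theorem abel {f : ℕ → ℝ} (hf0 : f 0 = 0) {X : ℝ}
    (hX : Tendsto (fun N : ℕ => ∑ n ∈ Icc 1 N, f n) atTop (𝓝 X))
    (hs : ∀ ε : ℝ, 0 < ε → Summable (fun n : ℕ => |f n| * (n : ℝ) ^ (-ε))) :
    Tendsto (fun ε : ℝ => ∑' n : ℕ, f n * (n : ℝ) ^ (-ε)) (𝓝[>] 0) (𝓝 X) := by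
  obtain ⟨M, hM⟩ := (isBounded_iff_forall_norm_le.1 (Metric.isBounded_range_of_tendsto _ hX))
  have hMb : ∀ v, ‖Hs f v‖ ≤ M := fun v => hM _ ⟨⌊Real.exp v⌋₊, rfl⟩
  have hlim : Tendsto (Hs f) atTop (𝓝 X) :=
    hX.comp (tendsto_nat_floor_atTop.comp Real.tendsto_exp_atTop)
  have h1 : ∀ ε : ℝ, 0 < ε → ∑' n : ℕ, f n * (n : ℝ) ^ (-ε) =
      ∫ w in Set.Ioi (0 : ℝ), Real.exp (-w) * Hs f (w / ε) := by
    intro ε hε
    rw [dir_int hf0 hε (hs ε hε)]
    have h2 := integral_comp_mul_left_Ioi (fun w : ℝ => Real.exp (-w) * Hs f (w / ε)) 0 hε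
    rw [mul_zero, smul_eq_mul] at h2
    have h3 : ∫ v in Set.Ioi (0 : ℝ), ε * Real.exp (-(ε * v)) * Hs f v =
        ε * ∫ v in Set.Ioi (0 : ℝ), Real.exp (-(ε * v)) * Hs f (ε * v / ε) := by
      rw [← integral_const_mul]
      refine setIntegral_congr_fun measurableSet_Ioi fun v _ => ?_
      beta_reduce
      rw [mul_div_cancel_left₀ _ hε.ne']
      ring
    rw [h3, h2, ← mul_assoc, mul_inv_cancel₀ hε.ne', one_mul]
  have h4 : Tendsto (fun ε : ℝ => ∫ w in Set.Ioi (0 : ℝ), Real.exp (-w) * Hs f (w / ε)) (𝓝[>] 0)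
      (𝓝 (∫ w in Set.Ioi (0 : ℝ), Real.exp (-w) * X)) := by
    refine tendsto_integral_filter_of_dominated_convergence (fun w => Real.exp (-w) * M) ?_ ?_ ?_ ?_
    · refine Eventually.of_forall fun ε => ?_
      exact ((Real.measurable_exp.comp measurable_neg).mul
        ((Hs_meas f).comp (measurable_id.div_const ε))).aestronglyMeasurable
    · refine Eventually.of_forall fun ε => Eventually.of_forall fun w => ?_
      rw [norm_mul, Real.norm_of_nonneg (Real.exp_pos _).le]
      exact mul_le_mul_of_nonneg_left (hMb _) (Real.exp_pos _).le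
    · exact (integrableOn_exp_neg_Ioi 0).mul_const M
    · rw [ae_restrict_iff' measurableSet_Ioi]
      refine Eventually.of_forall fun w hw => ?_
      have hw : 0 < w := hw
      apply Tendsto.const_mul
      apply hlim.comp
      have h5 : Tendsto (fun ε : ℝ => ε⁻¹) (𝓝[>] 0) atTop := tendsto_inv_nhdsGT_zero
      have h6 := h5.const_mul_atTop hw
      refine h6.congr fun ε => ?_
      rw [div_eq_mul_inv]
  rw [integral_mul_const, integral_exp_neg_Ioi_zero, one_mul] at h4
  refine h4.congr' ?_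
  filter_upwards [self_mem_nhdsWithin] with ε hε
  exact (h1 ε hε).symm

/-- series with summable partial sums -/
theorem abel2 {f : ℕ → ℝ} (hf0 : f 0 = 0) (hI : IntegrableOn (Hs f) (Set.Ioi 0))
    (hs : ∀ ε : ℝ, 0 < ε → Summable (fun n : ℕ => |f n| * (n : ℝ) ^ (-ε))) :
    Tendsto (fun ε : ℝ => (∑' n : ℕ, f n * (n : ℝ) ^ (-ε)) / ε) (𝓝[>] 0)
      (𝓝 (∫ v in Set.Ioi (0 : ℝ), Hs f v)) := by
  have h4 : Tendsto (fun ε : ℝ => ∫ v in Set.Ioi (0 : ℝ), Real.exp (-(ε * v)) * Hs f v) (𝓝[>] 0)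
      (𝓝 (∫ v in Set.Ioi (0 : ℝ), Hs f v)) := by
    refine tendsto_integral_filter_of_dominated_convergence (fun v => ‖Hs f v‖) ?_ ?_ ?_ ?_
    · refine Eventually.of_forall fun ε => ?_
      exact ((Real.measurable_exp.comp (measurable_id.const_mul ε).neg).mul
        (Hs_meas f)).aestronglyMeasurable
    · filter_upwards [self_mem_nhdsWithin] with ε hε
      rw [ae_restrict_iff' measurableSet_Ioi]
      refine Eventually.of_forall fun v hv => ?_
      have hv : 0 < v := hv
      have hε : 0 < ε := hε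
      rw [norm_mul, Real.norm_of_nonneg (Real.exp_pos _).le]
      have : Real.exp (-(ε * v)) ≤ 1 := by
        apply Real.exp_le_one_iff.2
        have := mul_pos hε hv
        linarith
      calc _ ≤ 1 * ‖Hs f v‖ := mul_le_mul_of_nonneg_right this (norm_nonneg _)
        _ = _ := one_mul _
    · exact hI.norm
    · refine Eventually.of_forall fun v => ?_
      have h5 : Tendsto (fun ε : ℝ => Real.exp (-(ε * v)) * Hs f v) (𝓝 0)
          (𝓝 (Real.exp (-(0 * v)) * Hs f v)) := by
        apply Continuous.tendsto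
        fun_prop
      rw [zero_mul, neg_zero, Real.exp_zero, one_mul] at h5
      exact h5.mono_left nhdsWithin_le_nhds
  refine h4.congr' ?_
  filter_upwards [self_mem_nhdsWithin] with ε hε
  have hε : 0 < ε := hε
  rw [dir_int hf0 hε (hs ε hε)]
  have h3 : ∫ v in Set.Ioi (0 : ℝ), ε * Real.exp (-(ε * v)) * Hs f v =
      ε * ∫ v in Set.Ioi (0 : ℝ), Real.exp (-(ε * v)) * Hs f v := by
    rw [← integral_const_mul]
    refine setIntegral_congr_fun measurableSet_Ioi fun v _ => ?_
    beta_reduce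
    ring
  rw [h3, mul_div_cancel_left₀ _ hε.ne']

end Pool.Agent.N866.GN.MT
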