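import Pool.Agent.N866.GN.M1b
import Pool.Agent.N157.GN.Mub

/-!
# Project GN, MT1, part d: the local factors
-/

set_option autoImplicit false

namespace Pool.Agent.N866.GN.MT

open Finset
open Pool.Agent.N782.GN
open Pool.Agent.H304R3.HK (UH bb LamK lg_bb)
open Pool.Agent.H304R3.HK.M1 (CG mem_CG bb_eq)
open Pool.Agent.N521.GN (nn nn_real nn_mul nn_P nn_pos nn_cast dvd_ct ct_dvd ct_pos ct_sq_dvd Dp mem_Dp Dp_nn Dp_ne
  UU card_UU mem_UU P_ne isUnit_iff mul_star_self ct_natmul)

/-- the character modulo 4 -/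
noncomputable def ch (p : ℕ) : ℝ := ((ZMod.χ₄ (p : ZMod 4) : ℤ) : ℝ)

theorem card_CG_prime {p : ℕ} (hp : p.Prime) : ((CG p).card : ℝ) = 4 * (1 + ch p) := by
  have I : Pool.Agent.H304R3.HK.M3.In Pool.Agent.N27.GN.h0 :=
    ⟨Pool.Agent.H304R3.HK.bb_zero _ Pool.Agent.N27.GN.UH_h0.h0,
      fun k m hm => Pool.Agent.H304R3.HK.bb_two_odd _ Pool.Agent.N27.GN.UH_h0.hi k m hm⟩
  have h1 : ((CG p).card : ℂ) = 4 * bb Pool.Agent.N27.GN.h0 p := by
    rw [bb_eq, ← mul_assoc]
    norm_num
    rw [Finset.card_eq_sum_ones]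
    push_cast
    refine Finset.sum_congr rfl fun z hz => ?_
    have := Pool.Agent.N27.GN.CG_ne hp.ne_zero hz
    simp [Pool.Agent.N27.GN.h0, this]
  have h2 : ((((CG p).card : ℝ)) : ℂ) = ((4 * (1 + ch p) : ℝ) : ℂ) := by
    push_cast
    rw [h1]
    congr 1
    rcases Pool.Agent.H304R3.HK.M3.p_cases hp with rfl | ⟨ho, h3⟩ | ⟨ho, h1⟩
    · have e := Pool.Agent.H304R3.HK.M3.b_two I 1
      rw [pow_one, pow_one] at e
      rw [e]
      have e2 : ch 2 = 0 := by
        unfold ch
        have : ZMod.χ₄ ((2 : ℕ) : ZMod 4) = 0 := by decide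
        rw [this]; simp
      rw [e2]
      have e3 : (⟨1, 1⟩ : ZI) ≠ 0 := by
        intro h
        have := congrArg Zsqrtd.im h
        simp at this
      simp [Pool.Agent.N27.GN.h0, e3]
    · rw [Pool.Agent.H304R3.HK.M3.b_odd I p ho, (Pool.Agent.H304R2.EC.Sh_inert _ p hp h3 0).1]
      have e2 : ch p = -1 := by
        unfold ch
        rw [ZMod.χ₄_nat_three_mod_four h3]; simp
      rw [e2]; simp
    · obtain ⟨a, b, hb0, hb, hab, hn, hPS⟩ := Pool.Agent.H304R2.EC.PS_split p hp h1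
      have e2 : ch p = 1 := by
        unfold ch
        rw [ZMod.χ₄_nat_one_mod_four h1]; simp
      rw [e2, Pool.Agent.H304R3.HK.M3.b_odd I p ho]
      unfold Pool.Agent.H304R2.EC.Sh
      rw [hPS, Finset.sum_pair]
      · have n1 : (⟨a, b⟩ : ZI) ≠ 0 := by
          intro h
          have := congrArg Zsqrtd.im h
          simp at this
          exact hb0 this
        have n2 : (⟨a, -b⟩ : ZI) ≠ 0 := by
          intro h
          have := congrArg Zsqrtd.im h
          simp at this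
          exact hb0 this
        simp [Pool.Agent.N27.GN.h0, n1, n2]
      · intro heq
        rw [Prod.mk.injEq] at heq
        omega
  exact_mod_cast h2

theorem mem_CG' {n : ℕ} {z : ZI} : z ∈ CG n ↔ nn z = n := by
  rw [mem_CG, ← nn_cast]
  exact_mod_cast Iff.rfl

/-- sums over the divisors of a rational prime -/
theorem sum_Dp {p : ℕ} (hp : p.Prime) (F : ZI → ℝ) :
    ∑ g ∈ Dp p, F g = ∑ u ∈ UU, F u + ∑ g ∈ CG p, F g + ∑ u ∈ UU, F (((p : ℕ) : ZI) * u) := by
  classical
  have hp1 := hp.one_lt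
  have hpp : p ≠ p ^ 2 := by
    intro h
    nlinarith
  have h1p2 : 1 ≠ p ^ 2 := by
    intro h
    nlinarith
  have hmaps : ∀ g ∈ Dp p, nn g ∈ ({1, p, p ^ 2} : Finset ℕ) := by
    intro g hg
    obtain ⟨k, hk, he⟩ := (Nat.dvd_prime_pow hp).1 (Dp_nn hp hg)
    rw [he]
    interval_cases k <;> simp
  rw [← sum_fiberwise_of_maps_to hmaps, sum_insert, sum_insert, sum_singleton, ← add_assoc]
  · have s1 : (Dp p).filter (fun g => nn g = 1) = UU := by
      ext g
      rw [mem_filter, mem_Dp hp, mem_UU, isUnit_iff]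
      constructor
      · exact fun h => h.2
      · intro h
        exact ⟨((isUnit_iff g).2 h).dvd, h⟩
    have s2 : (Dp p).filter (fun g => nn g = p) = CG p := by
      ext g
      rw [mem_filter, mem_Dp hp, mem_CG']
      constructor
      · exact fun h => h.2
      · intro h
        refine ⟨⟨star g, ?_⟩, h⟩
        rw [mul_star_self, ← nn_cast, h]
        push_cast
        rfl
    have s3 : (Dp p).filter (fun g => nn g = p ^ 2) = UU.image (fun u => ((p : ℕ) : ZI) * u) := by
      ext g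
      rw [mem_filter, mem_Dp hp, mem_image]
      constructor
      · rintro ⟨⟨c, hc⟩, h⟩
        have h2 : nn c = 1 := by
          have h3 := nn_P p
          rw [hc, nn_mul, h] at h3
          have hpos : 0 < p ^ 2 := by positivity
          have h4 : p ^ 2 * nn c = p ^ 2 * 1 := by rw [h3]; ring
          exact Nat.eq_of_mul_eq_mul_left hpos h4
        refine ⟨star c, ?_, ?_⟩
        · rw [mem_UU]
          exact Pool.Agent.N521.GN.unit_star ((isUnit_iff c).2 h2)
        · rw [hc, mul_assoc, mul_star_self, ← nn_cast, h2]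
          simp
      · rintro ⟨u, hu, rfl⟩
        rw [mem_UU] at hu
        constructor
        · obtain ⟨v, rfl⟩ := hu
          exact Units.mul_right_dvd.2 dvd_rfl
        · rw [nn_mul, nn_P, (isUnit_iff u).1 hu]
          ring
    rw [s1, s2, s3, sum_image]
    intro u _ v _ h
    exact mul_left_cancel₀ (P_ne hp) h
  · simp only [mem_singleton]; exact hpp
  · simp only [mem_insert, mem_singleton, not_or]
    exact ⟨hp1.ne, h1p2⟩

theorem prime_of_nn {p : ℕ} (hp : p.Prime) {g : ZI} (hg : nn g = p) : Prime g := by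
  apply Irreducible.prime
  constructor
  · rw [isUnit_iff, hg]
    exact hp.one_lt.ne'
  · intro a b hab
    rw [isUnit_iff, isUnit_iff]
    have h1 : nn a * nn b = p := by rw [← nn_mul, ← hab, hg]
    have h2 : nn a ∣ p := ⟨nn b, h1.symm⟩
    rcases (Nat.dvd_prime hp).1 h2 with h3 | h3
    · exact Or.inl h3
    · right
      rw [h3] at h1
      have : p * nn b = p * 1 := by rw [h1, mul_one]
      exact Nat.eq_of_mul_eq_mul_left hp.pos this

theorem ct_one {z : ZI} (hz : Squarefree (nn z)) : ct z = 1 := by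
  have h1 := hz (ct z) (ct_sq_dvd z)
  exact Nat.isUnit_iff.1 h1

theorem kap_one {l : ℤ} {z : ZI} (hz : Squarefree (nn z)) : kap l z = 1 := by
  unfold kap
  rw [ct_one hz]
  simp

theorem ct_cast (p : ℕ) : ct ((p : ℕ) : ZI) = p := by
  unfold ct
  simp

theorem mu_P (hm : S_MUB) {p : ℕ} (hp : p.Prime) : mu ((p : ℕ) : ZI) = ch p := by
  classical
  have h1 := hm.2.2.2.1 ((p : ℕ) : ZI) (P_ne hp)
  have h2 : (bl (nz ((p : ℕ) : ZI))).filter (fun d => d ∣ ((p : ℕ) : ZI)) = Dp p := by
    ext g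
    rw [mem_filter, mem_bl, mem_Dp hp]
    constructor
    · exact fun h => h.2
    · intro h
      have h3 := (mem_Dp hp g).2 h
      unfold Dp at h3
      rw [mem_filter, mem_bl] at h3
      refine ⟨⟨h3.1.1, ?_⟩, h⟩
      rw [nz_cast, sq]
      exact h3.1.2
  have h3 : ¬ IsUnit ((p : ℕ) : ZI) := by
    rw [isUnit_iff, nn_P]
    intro h
    have := hp.two_le
    nlinarith
  rw [if_neg h3] at h1
  have h4 : ∑ d ∈ Dp p, mu d = 0 := by
    rw [← h2]
    convert h1
  rw [sum_Dp hp] at h4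
  have e1 : ∑ u ∈ UU, mu u = 4 := by
    rw [sum_congr rfl (fun u hu => Pool.Agent.N157.GN.mu_unit ((mem_UU u).1 hu)), sum_const, card_UU]
    norm_num
  have e2 : ∑ g ∈ CG p, mu g = -(4 * (1 + ch p)) := by
    rw [sum_congr rfl (fun g hg => Pool.Agent.N157.GN.mu_prime (prime_of_nn hp (mem_CG'.1 hg))), sum_const,
      nsmul_eq_mul, card_CG_prime hp]
    ring
  have e3 : ∑ u ∈ UU, mu (((p : ℕ) : ZI) * u) = 4 * mu ((p : ℕ) : ZI) := by
    rw [sum_congr rfl (fun u hu => by rw [mul_comm, hm.2.2.1 u _ ((mem_UU u).1 hu)]), sum_const, card_UU]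
    norm_num
  rw [e1, e2, e3] at h4
  linarith

/-- the local factor -/
theorem loc (hm : S_MUB) {p : ℕ} (hp : p.Prime) (l : ℤ) (G : ℕ → ℝ) :
    1 / 4 * ∑ g ∈ Dp p, mu g * kap l g * G (nn g) =
      G 1 - (1 + ch p) * G p + ch p * gl l p * G (p ^ 2) := by
  rw [sum_Dp hp]
  have e1 : ∑ u ∈ UU, mu u * kap l u * G (nn u) = 4 * G 1 := by
    have : ∀ u ∈ UU, mu u * kap l u * G (nn u) = G 1 := by
      intro u hu
      have hu' := (mem_UU u).1 hu
      have h1 := (isUnit_iff u).1 hu'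
      rw [Pool.Agent.N157.GN.mu_unit hu', kap_one (by rw [h1]; exact squarefree_one), h1]
      ring
    rw [sum_congr rfl this, sum_const, card_UU]
    norm_num
  have e2 : ∑ g ∈ CG p, mu g * kap l g * G (nn g) = -(4 * (1 + ch p)) * G p := by
    have : ∀ g ∈ CG p, mu g * kap l g * G (nn g) = -G p := by
      intro g hg
      have h1 := mem_CG'.1 hg
      rw [Pool.Agent.N157.GN.mu_prime (prime_of_nn hp h1),
        kap_one (by rw [h1]; exact hp.prime.squarefree), h1]
      ring
    rw [sum_congr rfl this, sum_const, nsmul_eq_mul, card_CG_prime hp]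
    ring
  have e3 : ∑ u ∈ UU, mu (((p : ℕ) : ZI) * u) * kap l (((p : ℕ) : ZI) * u) * G (nn (((p : ℕ) : ZI) * u)) =
      4 * (ch p * gl l p * G (p ^ 2)) := by
    have : ∀ u ∈ UU, mu (((p : ℕ) : ZI) * u) * kap l (((p : ℕ) : ZI) * u) * G (nn (((p : ℕ) : ZI) * u)) =
        ch p * gl l p * G (p ^ 2) := by
      intro u hu
      have hu' := (mem_UU u).1 hu
      have h1 := (isUnit_iff u).1 hu'
      have h2 : mu (((p : ℕ) : ZI) * u) = ch p := by
        rw [mul_comm, hm.2.2.1 u _ hu', mu_P hm hp]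
      have h3 : kap l (((p : ℕ) : ZI) * u) = gl l p := by
        rw [kap_eq, ct_natmul, ct_one (by rw [h1]; exact squarefree_one), mul_one]
      rw [h2, h3, nn_mul, nn_P, h1, mul_one, sq]
    rw [sum_congr rfl this, sum_const, card_UU]
    norm_num
  rw [e1, e2, e3]
  ring

end Pool.Agent.N866.GN.MT
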