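import Pool.Agent.N866.GN.M1d

/-!
# Project GN, MT1, part e: the Euler product
-/

set_option autoImplicit false

namespace Pool.Agent.N866.GN.MT

open Finset Filter Topology
open Pool.Agent.N782.GN
open Pool.Agent.H304R3.HK (UH bb LamK lg_bb)
open Pool.Agent.H304R3.HK.M1 (CG mem_CG bb_eq)
open Pool.Agent.N521.GN (nn nn_real nn_mul nn_P nn_pos nn_cast dvd_ct ct_dvd ct_pos ct_sq_dvd Dp mem_Dp Dp_nn Dp_ne
  UU card_UU mem_UU P_ne isUnit_iff mul_star_self ct_natmul dec kap_mul kap_nonneg cop_of_pow co_norm co mem_co)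

open Classical in
/-- coefficients over the elements coprime to `q` -/
noncomputable def cf (l : ℤ) (q n : ℕ) : ℝ :=
  1 / 4 * ∑ b ∈ CG n, (if IsCoprime b ((q : ℕ) : ZI) then mu b * kap l b else 0)

theorem sum_real (F : ZI → ℝ) (g : ℕ → ℝ) (x : ℝ) (hx : 0 ≤ x) :
    ∑ n ∈ Icc 1 ⌊x⌋₊, (1 / 4 * ∑ b ∈ CG n, F b) * g n = 1 / 4 * ∑ b ∈ bl x, F b * g (nn b) := by
  classical
  have h1 : ∀ n ∈ Icc 1 ⌊x⌋₊, (1 / 4 * ∑ b ∈ CG n, F b) * g n = 1 / 4 *
      ∑ z ∈ bl x with nn z = n, F z * g (nn z) := by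
    intro n hn
    rw [mem_Icc] at hn
    have h2 : (bl x).filter (fun z => nn z = n) = CG n := by
      ext z
      rw [mem_filter, mem_bl, mem_CG']
      constructor
      · exact fun h => h.2
      · intro h
        refine ⟨⟨?_, ?_⟩, h⟩
        · rintro rfl
          have h3 : nn (0 : ZI) = 0 := by decide
          omega
        · rw [← nn_real, h]
          exact (Nat.le_floor_iff hx).1 hn.2
    rw [h2, mul_assoc, Finset.sum_mul]
    congr 1
    refine sum_congr rfl fun z hz => ?_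
    rw [mem_CG'.1 hz]
  rw [sum_congr rfl h1, ← Finset.mul_sum]
  congr 1
  refine sum_fiberwise_of_maps_to (g := nn) ?_ _
  intro z hz
  rw [mem_bl] at hz
  rw [mem_Icc]
  refine ⟨nn_pos hz.1, Nat.le_floor ?_⟩
  rw [nn_real]
  exact hz.2

theorem kap_le_l {l : ℤ} (hl : 1 ≤ l) (b : ZI) : kap l b ≤ l := by
  unfold kap
  split_ifs with h
  · have := Int.le_of_dvd (by omega) h
    exact_mod_cast this
  · exact_mod_cast (by omega : (0 : ℤ) ≤ l)

theorem cf_le {l : ℤ} (hl : 1 ≤ l) (q : ℕ) {n : ℕ} (hn : n ≠ 0) : |cf l q n| ≤ l * n.divisors.card := by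
  classical
  have hl0 : (0 : ℝ) ≤ l := by exact_mod_cast (by omega : (0 : ℤ) ≤ l)
  unfold cf
  rw [abs_mul, abs_of_nonneg (by norm_num : (0 : ℝ) ≤ 1 / 4)]
  have h1 : |∑ b ∈ CG n, (if IsCoprime b ((q : ℕ) : ZI) then mu b * kap l b else 0)| ≤ (CG n).card * (l : ℝ) := by
    refine (abs_sum_le_sum_abs _ _).trans ?_
    rw [← nsmul_eq_mul]
    refine sum_le_card_nsmul _ _ _ fun b _ => ?_
    split_ifs
    · rw [abs_mul, abs_of_nonneg (kap_nonneg l b)]
      calc |mu b| * kap l b ≤ 1 * l := mul_le_mul (abs_mu_le b) (kap_le_l hl b) (kap_nonneg l b) zero_le_one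
        _ = l := one_mul _
    · rw [abs_zero]; exact hl0
  have h2 := Pool.Agent.N27.GN.CG_card n hn
  calc 1 / 4 * |∑ b ∈ CG n, (if IsCoprime b ((q : ℕ) : ZI) then mu b * kap l b else 0)|
      ≤ 1 / 4 * ((CG n).card * (l : ℝ)) := by gcongr
    _ ≤ 1 / 4 * ((4 * n.divisors.card) * (l : ℝ)) := by gcongr
    _ = l * n.divisors.card := by ring

/-- the majorant -/
noncomputable def mj (l : ℤ) (s : ℝ) (n : ℕ) : ℝ := l * (if n = 0 then 0 else (n.divisors.card : ℝ) / (n : ℝ) ^ s)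

theorem mj_summable (l : ℤ) {s : ℝ} (hs : 1 < s) : Summable (mj l s) :=
  (Pool.Agent.N27.GN.dseries hs).1.mul_left _

theorem cf_mj {l : ℤ} (hl : 1 ≤ l) (q : ℕ) {s : ℝ} (hs : 0 < s) (n : ℕ) :
    ‖cf l q n * (n : ℝ) ^ (-s)‖ ≤ mj l s n := by
  unfold mj
  rcases eq_or_ne n 0 with rfl | hn
  · rw [if_pos rfl, Nat.cast_zero, Real.zero_rpow (by linarith), mul_zero, norm_zero, mul_zero]
  · rw [if_neg hn, norm_mul, Real.norm_of_nonneg (by positivity : (0 : ℝ) ≤ (n : ℝ) ^ (-s)),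
      Real.rpow_neg (Nat.cast_nonneg n), ← div_eq_mul_inv, ← mul_div_assoc]
    exact div_le_div_of_nonneg_right (cf_le hl q hn) (by positivity)

theorem cf_summable {l : ℤ} (hl : 1 ≤ l) (q : ℕ) {s : ℝ} (hs : 1 < s) :
    Summable (fun n : ℕ => cf l q n * (n : ℝ) ^ (-s)) :=
  Summable.of_norm_bounded (mj_summable l hs) (cf_mj hl q (by linarith))

/-- the Dirichlet series -/
noncomputable def DD (l : ℤ) (q : ℕ) (s : ℝ) : ℝ := ∑' n : ℕ, cf l q n * (n : ℝ) ^ (-s)

theorem DD_tendsto {l : ℤ} (hl : 1 ≤ l) (q : ℕ) {s : ℝ} (hs : 1 < s) :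
    Tendsto (fun y : ℝ => ∑ n ∈ Icc 1 ⌊y⌋₊, cf l q n * (n : ℝ) ^ (-s)) atTop (𝓝 (DD l q s)) := by
  have h1 := (cf_summable hl q hs).hasSum.tendsto_sum_nat
  have h2 := (h1.comp (tendsto_add_atTop_nat 1)).comp tendsto_nat_floor_atTop (α := ℝ)
  refine h2.congr fun y => ?_
  simp only [Function.comp]
  rw [sum_range_succ', Nat.cast_zero, Real.zero_rpow (by linarith), mul_zero, add_zero]
  rw [Finset.range_eq_Ico, Finset.sum_Ico_add' (fun n : ℕ => cf l q n * (n : ℝ) ^ (-s)) 0 ⌊y⌋₊ 1]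
  refine sum_congr ?_ fun _ _ => rfl
  ext n
  rw [mem_Ico, mem_Icc]
  omega

theorem coprime_cast {p q : ℕ} (h : Nat.Coprime p q) : IsCoprime ((p : ℕ) : ZI) ((q : ℕ) : ZI) := by
  have h1 := (Nat.isCoprime_iff_coprime.2 h).map (Int.castRingHom ZI)
  simpa using h1

/-- one step of the Euler product -/
theorem DD_dec (hm : S_MUB) {l : ℤ} (hl : 1 ≤ l) {p q : ℕ} (hp : p.Prime) (hq : Nat.Coprime p q) {s : ℝ}
    (hs : 1 < s) : DD l q s = (1 - (1 + ch p) * (p : ℝ) ^ (-s) + ch p * gl l p * ((p ^ 2 : ℕ) : ℝ) ^ (-s)) *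
      DD l (q * p) s := by
  classical
  set G : ℕ → ℝ := fun n => (n : ℝ) ^ (-s) with hG
  have hGm : ∀ a b : ℕ, G (a * b) = G a * G b := by
    intro a b
    simp only [hG]
    push_cast
    exact Real.mul_rpow (Nat.cast_nonneg a) (Nat.cast_nonneg b)
  have hloc := loc hm hp l G
  have hG1 : G 1 = 1 := by simp [hG]
  rw [hG1] at hloc
  -- the finite identity
  have key : ∀ y : ℝ, 0 ≤ y → ∑ n ∈ Icc 1 ⌊y⌋₊, cf l q n * (n : ℝ) ^ (-s) =
      1 / 4 * ∑ g ∈ Dp p, mu g * kap l g * G (nn g) *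
        ∑ n ∈ Icc 1 ⌊y / nz g⌋₊, cf l (q * p) n * (n : ℝ) ^ (-s) := by
    intro y hy
    unfold cf
    rw [sum_real (fun b => if IsCoprime b ((q : ℕ) : ZI) then mu b * kap l b else 0) G y hy]
    have e1 : ∑ b ∈ bl y, (if IsCoprime b ((q : ℕ) : ZI) then mu b * kap l b else 0) * G (nn b) =
        ∑ b ∈ bl y, mu b * ((if IsCoprime b ((q : ℕ) : ZI) then kap l b else 0) * G (nn b)) := by
      refine sum_congr rfl fun b _ => ?_
      split_ifs <;> ring
    rw [e1, dec hm hp]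
    congr 1
    rw [mul_sum]
    refine sum_congr rfl fun g hg => ?_
    have hg0 := Dp_ne hp hg
    have hnz : 0 < nz g := by have := one_le_nz hg0; linarith
    have hgp := (mem_Dp hp g).1 hg
    have hgq : IsCoprime g ((q : ℕ) : ZI) := (coprime_cast hq).of_isCoprime_of_dvd_left hgp
    rw [sum_real (fun b => if IsCoprime b ((q * p : ℕ) : ZI) then mu b * kap l b else 0) G (y / nz g)
      (by positivity)]
    have e2 : ∑ b ∈ co p (y / nz g), mu b * ((if IsCoprime (g * b) ((q : ℕ) : ZI) then kap l (g * b) else 0) *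
        G (nn (g * b))) = kap l g * G (nn g) *
        ∑ b ∈ bl (y / nz g), (if IsCoprime b ((q * p : ℕ) : ZI) then mu b * kap l b else 0) * G (nn b) := by
      unfold co
      rw [sum_filter, mul_sum]
      refine sum_congr rfl fun b _ => ?_
      have hiff : IsCoprime b ((q * p : ℕ) : ZI) ↔ IsCoprime b ((q : ℕ) : ZI) ∧ IsCoprime b ((p : ℕ) : ZI) := by
        push_cast
        exact IsCoprime.mul_right_iff
      by_cases hb : IsCoprime b ((p : ℕ) : ZI)
      · rw [if_pos hb]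
        by_cases hbq : IsCoprime b ((q : ℕ) : ZI)
        · rw [if_pos (IsCoprime.mul_left hgq hbq), if_pos (hiff.2 ⟨hbq, hb⟩),
            kap_mul (cop_of_pow hp (Dp_nn hp hg) hb), nn_mul, hGm]
          ring
        · rw [if_neg (fun h => hbq (IsCoprime.mul_left_iff.1 h).2), if_neg (fun h => hbq (hiff.1 h).1)]
          ring
      · rw [if_neg hb, if_neg (fun h => hb (hiff.1 h).2)]
        ring
    rw [e2]
    ring
  have hL := DD_tendsto hl q hs
  have hR : Tendsto (fun y : ℝ => 1 / 4 * ∑ g ∈ Dp p, mu g * kap l g * G (nn g) *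
        ∑ n ∈ Icc 1 ⌊y / nz g⌋₊, cf l (q * p) n * (n : ℝ) ^ (-s)) atTop
      (𝓝 (1 / 4 * ∑ g ∈ Dp p, mu g * kap l g * G (nn g) * DD l (q * p) s)) := by
    apply Tendsto.const_mul
    apply tendsto_finsetSum
    intro g hg
    apply Tendsto.const_mul
    have hnz : 0 < nz g := by have := one_le_nz (Dp_ne hp hg); linarith
    exact (DD_tendsto hl (q * p) hs).comp (tendsto_id.atTop_div_const hnz)
  have h5 := tendsto_nhds_unique (hL.congr' (by
    filter_upwards [eventually_ge_atTop (0 : ℝ)] with y hy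
    exact key y hy)) hR
  rw [h5, ← sum_mul, ← mul_assoc, hloc]

/-- the Euler factor -/
noncomputable def Fl (l : ℤ) (s : ℝ) (p : ℕ) : ℝ :=
  1 - (1 + ch p) * (p : ℝ) ^ (-s) + ch p * gl l p * ((p ^ 2 : ℕ) : ℝ) ^ (-s)

theorem DD_prod (hm : S_MUB) {l : ℤ} (hl : 1 ≤ l) {s : ℝ} (hs : 1 < s) (S : Finset ℕ) :
    (∀ p ∈ S, p.Prime) → DD l 1 s = (∏ p ∈ S, Fl l s p) * DD l (∏ p ∈ S, p) s := by
  classical
  induction S using Finset.induction_on with
  | empty => intro _; simp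
  | insert p S hpS ih =>
    intro h
    have hp := h p (mem_insert_self _ _)
    rw [ih (fun r hr => h r (mem_insert_of_mem hr)), prod_insert hpS, prod_insert hpS]
    have hco : Nat.Coprime p (∏ r ∈ S, r) := by
      apply Nat.Coprime.prod_right
      intro r hr
      rw [Nat.coprime_primes hp (h r (mem_insert_of_mem hr))]
      rintro rfl
      exact hpS hr
    rw [DD_dec hm hl hp hco hs, mul_comm (∏ r ∈ S, r) p]
    unfold Fl
    ring

theorem cf_one (l : ℤ) (q : ℕ) : cf l q 1 = 1 := by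
  classical
  have h1 : CG 1 = UU := by
    ext z
    rw [mem_CG', mem_UU, isUnit_iff]
  unfold cf
  rw [h1]
  have : ∀ u ∈ UU, (if IsCoprime u ((q : ℕ) : ZI) then mu u * kap l u else 0) = 1 := by
    intro u hu
    have hu' := (mem_UU u).1 hu
    have huc : IsCoprime u ((q : ℕ) : ZI) := by
      obtain ⟨v, rfl⟩ := hu'
      exact ⟨((v⁻¹ : ZIˣ) : ZI), 0, by simp⟩
    rw [if_pos huc, Pool.Agent.N157.GN.mu_unit hu', kap_one (by
      rw [(isUnit_iff u).1 hu']; exact squarefree_one)]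
    ring
  rw [sum_congr rfl this, sum_const, card_UU]
  norm_num

theorem cf_zero_of {l : ℤ} {q n p : ℕ} (hp : p.Prime) (hpn : p ∣ n) (hpq : p ∣ q) : cf l q n = 0 := by
  classical
  unfold cf
  have : ∀ b ∈ CG n, (if IsCoprime b ((q : ℕ) : ZI) then mu b * kap l b else 0) = 0 := by
    intro b hb
    rw [if_neg]
    intro h
    have h1 : IsCoprime b ((p : ℕ) : ZI) := by
      refine h.of_isCoprime_of_dvd_right ?_
      obtain ⟨c, rfl⟩ := hpq
      exact ⟨((c : ℕ) : ZI), by push_cast; rfl⟩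
    have h2 := co_norm hp h1
    rw [mem_CG'.1 hb] at h2
    exact (hp.coprime_iff_not_dvd.1 h2) hpn
  rw [sum_congr rfl this, sum_const_zero, mul_zero]

theorem DD_tail (hm : S_MUB) {l : ℤ} (hl : 1 ≤ l) {s : ℝ} (hs : 1 < s) :
    Tendsto (fun N : ℕ => DD l (∏ p ∈ Nat.primesBelow N, p) s) atTop (𝓝 1) := by
  have h1 : Tendsto (fun N : ℕ => ∑' n : ℕ, cf l (∏ p ∈ Nat.primesBelow N, p) n * (n : ℝ) ^ (-s)) atTop
      (𝓝 (∑' n : ℕ, (if n = 1 then (1 : ℝ) else 0))) := by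
    refine tendsto_tsum_of_dominated_convergence (mj_summable l hs) ?_ ?_
    · intro n
      apply tendsto_const_nhds.congr'
      filter_upwards [eventually_gt_atTop n] with N hN
      rcases eq_or_ne n 0 with rfl | hn0
      · rw [if_neg (by norm_num), Nat.cast_zero, Real.zero_rpow (by linarith), mul_zero]
      rcases eq_or_ne n 1 with rfl | hn1
      · rw [if_pos rfl, cf_one]
        simp
      · rw [if_neg hn1]
        obtain ⟨p, hp, hpn⟩ := Nat.exists_prime_and_dvd hn1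
        have hpN : p ∈ Nat.primesBelow N := by
          rw [Nat.mem_primesBelow]
          exact ⟨lt_of_le_of_lt (Nat.le_of_dvd (by omega) hpn) hN, hp⟩
        rw [cf_zero_of hp hpn (dvd_prod_of_mem _ hpN), zero_mul]
    · exact Eventually.of_forall fun N n => cf_mj hl _ (by linarith) n
  rw [tsum_ite_eq] at h1
  exact h1

/-- the Euler product -/
theorem DD_euler (hm : S_MUB) {l : ℤ} (hl : 1 ≤ l) {s : ℝ} (hs : 1 < s) :
    Tendsto (fun N : ℕ => ∏ p ∈ Nat.primesBelow N, Fl l s p) atTop (𝓝 (DD l 1 s)) := by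
  have h1 := DD_tail hm hl hs
  have h2 : Tendsto (fun N : ℕ => DD l 1 s / DD l (∏ p ∈ Nat.primesBelow N, p) s) atTop (𝓝 (DD l 1 s / 1)) :=
    tendsto_const_nhds.div h1 one_ne_zero
  rw [div_one] at h2
  refine h2.congr' ?_
  filter_upwards [h1.eventually_ne one_ne_zero] with N hN
  rw [div_eq_iff hN]
  exact DD_prod hm hl hs _ (fun p hp => Nat.prime_of_mem_primesBelow hp)

end Pool.Agent.N866.GN.MT
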