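import Pool.Agent.N866.GN.M1e
import Pool.Agent.N866.GN.M1c

/-!
# Project GN, MT1, part f: the singular series as a limit
-/

set_option autoImplicit false

namespace Pool.Agent.N866.GN.MT

open Finset Filter Topology
open Pool.Agent.N782.GN

theorem abs_ch (n : ℕ) : |ch n| ≤ 1 := by
  have h : ∀ a : ZMod 4, |(ZMod.χ₄ a : ℤ)| ≤ 1 := by decide
  unfold ch
  rw [← Int.cast_abs]
  exact_mod_cast h _

theorem ch_two : ch 2 = 0 := by
  unfold ch
  have : ZMod.χ₄ ((2 : ℕ) : ZMod 4) = 0 := by decide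
  rw [this]; simp

/-- `1 - y` is the Euler factor divided by the one of zeta -/
noncomputable def yy (l : ℤ) (s : ℝ) (n : ℕ) : ℝ :=
  ch n * ((n : ℝ) ^ (-s) * (1 - gl l n * (n : ℝ) ^ (-s))) / (1 - (n : ℝ) ^ (-s))

theorem x_bd {n : ℕ} (hn : 2 ≤ n) {s : ℝ} (hs : 1 ≤ s) :
    0 < (n : ℝ) ^ (-s) ∧ (n : ℝ) ^ (-s) ≤ 1 / n ∧ (n : ℝ) ^ (-s) ≤ 1 / 2 := by
  have hn0 : (0 : ℝ) < n := by exact_mod_cast (by omega : 0 < n)
  have hn1 : (1 : ℝ) ≤ n := by exact_mod_cast (by omega : 1 ≤ n)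
  have hn2 : (2 : ℝ) ≤ n := by exact_mod_cast hn
  have h1 : (n : ℝ) ^ (-s) ≤ 1 / n := by
    calc (n : ℝ) ^ (-s) ≤ (n : ℝ) ^ (-1 : ℝ) := Real.rpow_le_rpow_of_exponent_le hn1 (by linarith)
      _ = 1 / n := by rw [Real.rpow_neg_one, one_div]
  refine ⟨by positivity, h1, h1.trans (one_div_le_one_div_of_le (by norm_num) hn2)⟩

theorem Fl_eq (l : ℤ) {s : ℝ} (hs : 1 ≤ s) {p : ℕ} (hp : p.Prime) :
    Fl l s p = (1 - (p : ℝ) ^ (-s)) * (1 - yy l s p) := by
  obtain ⟨h1, h2, h3⟩ := x_bd hp.two_le hs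
  have hne : 1 - (p : ℝ) ^ (-s) ≠ 0 := by linarith
  have e : ((p ^ 2 : ℕ) : ℝ) ^ (-s) = ((p : ℝ) ^ (-s)) ^ 2 := by
    push_cast
    rw [← Real.rpow_natCast, ← Real.rpow_natCast, ← Real.rpow_mul (Nat.cast_nonneg p),
      ← Real.rpow_mul (Nat.cast_nonneg p), mul_comm]
  unfold Fl yy
  rw [e]
  field_simp
  ring

theorem gl_le (l : ℤ) (n : ℕ) : gl l n ≤ n := by
  unfold gl
  split_ifs
  · exact le_rfl
  · positivity

theorem gl_sub {l : ℤ} (hl : 1 ≤ l) {n : ℕ} : |gl l n - 1| ≤ l := by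
  have hl1 : (1 : ℝ) ≤ l := by exact_mod_cast hl
  unfold gl
  split_ifs with h
  · have h1 := Int.le_of_dvd (by omega) h
    have h2 : (n : ℝ) ≤ l := by exact_mod_cast h1
    have h3 : (0 : ℝ) ≤ n := Nat.cast_nonneg n
    rw [abs_le]
    constructor <;> linarith
  · rw [zero_sub, abs_neg, abs_one]
    exact hl1

theorem yy_bd {l : ℤ} {s : ℝ} (hs : 1 ≤ s) {p : ℕ} (hp : p.Prime) :
    |yy l s p| ≤ 1 / 2 ∧ |yy l s p| ≤ 3 / 2 * (p : ℝ) ^ (-s) := by
  obtain ⟨h1, h2, h3⟩ := x_bd hp.two_le hs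
  rcases eq_or_ne p 2 with rfl | hp2
  · unfold yy
    rw [ch_two]
    simp
    positivity
  · have hp3 : 3 ≤ p := by have := hp.two_le; omega
    have hp3' : (3 : ℝ) ≤ p := by exact_mod_cast hp3
    have hp0 : (0 : ℝ) < p := by linarith
    have hx3 : (p : ℝ) ^ (-s) ≤ 1 / 3 := h2.trans (one_div_le_one_div_of_le (by norm_num) hp3')
    have hk0 : 0 ≤ gl l p * (p : ℝ) ^ (-s) := mul_nonneg (gl_nonneg l p) h1.le
    have hk1 : gl l p * (p : ℝ) ^ (-s) ≤ 1 := by
      calc gl l p * (p : ℝ) ^ (-s) ≤ p * (1 / p) := mul_le_mul (gl_le l p) h2 h1.le hp0.le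
        _ = 1 := by field_simp
    have h4 : |yy l s p| ≤ 3 / 2 * (p : ℝ) ^ (-s) := by
      unfold yy
      rw [abs_div, abs_mul, abs_of_nonneg (by linarith : 0 ≤ 1 - (p : ℝ) ^ (-s)), div_le_iff₀ (by linarith),
        abs_of_nonneg (mul_nonneg h1.le (by linarith))]
      calc |ch p| * ((p : ℝ) ^ (-s) * (1 - gl l p * (p : ℝ) ^ (-s))) ≤ 1 * ((p : ℝ) ^ (-s) * 1) :=
            mul_le_mul (abs_ch p) (mul_le_mul_of_nonneg_left (by linarith) h1.le)
              (mul_nonneg h1.le (by linarith)) zero_le_one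
        _ ≤ 3 / 2 * (p : ℝ) ^ (-s) * (1 - (p : ℝ) ^ (-s)) := by nlinarith
    exact ⟨by linarith, h4⟩

/-- the absolutely convergent part of the logarithm -/
noncomputable def ww (l : ℤ) (s : ℝ) (n : ℕ) : ℝ :=
  if n.Prime then Real.log (1 - yy l s n) + ch n * (n : ℝ) ^ (-s) else 0

theorem ww_bd {l : ℤ} (hl : 1 ≤ l) {s : ℝ} (hs : 1 ≤ s) (n : ℕ) :
    ‖ww l s n‖ ≤ (5 + 2 * l) * (1 / (n : ℝ) ^ 2) := by
  have hl1 : (1 : ℝ) ≤ l := by exact_mod_cast hl
  unfold ww
  split_ifs with hp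
  · obtain ⟨h1, h2, h3⟩ := x_bd hp.two_le hs
    obtain ⟨y1, y2⟩ := yy_bd (l := l) hs hp
    have hn0 : (0 : ℝ) < n := by exact_mod_cast hp.pos
    set x := (n : ℝ) ^ (-s) with hx
    have hx2 : x ^ 2 ≤ 1 / (n : ℝ) ^ 2 := by
      calc x ^ 2 ≤ (1 / n) ^ 2 := by gcongr
        _ = 1 / (n : ℝ) ^ 2 := by rw [div_pow, one_pow]
    have h4 := Real.abs_log_sub_add_sum_range_le (show |yy l s n| < 1 by linarith) 1
    simp only [range_one, sum_singleton, zero_add, pow_one, Nat.cast_zero, div_one] at h4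
    have h5 : |yy l s n| ^ (1 + 1) / (1 - |yy l s n|) ≤ 9 / 2 * x ^ 2 := by
      rw [div_le_iff₀ (by linarith)]
      have h6 : |yy l s n| ^ (1 + 1) ≤ (3 / 2 * x) ^ 2 := by
        have : |yy l s n| ^ (1 + 1) = |yy l s n| ^ 2 := by norm_num
        rw [this]
        gcongr
      have h7 : 0 ≤ x ^ 2 := by positivity
      nlinarith
    have h6 : |ch n * x - yy l s n| ≤ 2 * l * x ^ 2 := by
      have e : ch n * x - yy l s n = ch n * (x ^ 2 * (gl l n - 1)) / (1 - x) := by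
        have hne : 1 - x ≠ 0 := by linarith
        unfold yy
        rw [← hx]
        field_simp
        ring
      rw [e, abs_div, abs_mul, abs_mul, abs_of_nonneg (by positivity : 0 ≤ x ^ 2),
        abs_of_nonneg (by linarith : 0 ≤ 1 - x), div_le_iff₀ (by linarith)]
      calc |ch n| * (x ^ 2 * |gl l n - 1|) ≤ 1 * (x ^ 2 * l) := by
            gcongr
            · exact abs_ch n
            · exact gl_sub hl
        _ ≤ 2 * l * x ^ 2 * (1 - x) := by
            have : 0 ≤ x ^ 2 * l := by positivity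
            nlinarith
    rw [Real.norm_eq_abs]
    have e : Real.log (1 - yy l s n) + ch n * x = (yy l s n + Real.log (1 - yy l s n)) + (ch n * x - yy l s n) := by
      ring
    rw [e]
    refine (abs_add_le _ _).trans ?_
    have h7 : 0 ≤ x ^ 2 := by positivity
    calc _ ≤ 9 / 2 * x ^ 2 + 2 * l * x ^ 2 := add_le_add (h4.trans h5) h6
      _ ≤ (5 + 2 * l) * x ^ 2 := by nlinarith
      _ ≤ _ := by gcongr
  · rw [norm_zero]
    positivity

theorem bd_summable (l : ℤ) : Summable (fun n : ℕ => (5 + 2 * (l : ℝ)) * (1 / (n : ℝ) ^ 2)) :=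
  (Real.summable_one_div_nat_pow.2 (by norm_num)).mul_left _

theorem ww_summable {l : ℤ} (hl : 1 ≤ l) {s : ℝ} (hs : 1 ≤ s) : Summable (ww l s) :=
  Summable.of_norm_bounded (bd_summable l) (ww_bd hl hs)

theorem ww_tendsto {l : ℤ} (hl : 1 ≤ l) :
    Tendsto (fun ε : ℝ => ∑' n : ℕ, ww l (1 + ε) n) (𝓝[>] 0) (𝓝 (∑' n : ℕ, ww l 1 n)) := by
  refine tendsto_tsum_of_dominated_convergence (bd_summable l) ?_ ?_
  · intro n
    unfold ww
    split_ifs with hp
    · obtain ⟨h1, h2, h3⟩ := x_bd hp.two_le (le_refl (1 : ℝ))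
      obtain ⟨y1, y2⟩ := yy_bd (l := l) (le_refl (1 : ℝ)) hp
      have hn0 : (0 : ℝ) < n := by exact_mod_cast hp.pos
      have hc : ContinuousAt (fun ε : ℝ => (n : ℝ) ^ (-(1 + ε))) 0 := by
        refine ContinuousAt.rpow (by fun_prop) (by fun_prop) (Or.inl hn0.ne')
      have hy : ContinuousAt (fun ε : ℝ => yy l (1 + ε) n) 0 := by
        unfold yy
        refine ContinuousAt.div (by fun_prop) (by fun_prop) ?_
        rw [add_zero]
        linarith
      have hlog : ContinuousAt (fun ε : ℝ => Real.log (1 - yy l (1 + ε) n) + ch n * (n : ℝ) ^ (-(1 + ε))) 0 := by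
        refine ContinuousAt.add (ContinuousAt.log (by fun_prop) ?_) (by fun_prop)
        rw [add_zero]
        have := (abs_le.1 y1).2
        linarith
      have := hlog.tendsto
      rw [add_zero] at this
      exact this.mono_left nhdsWithin_le_nhds
    · exact tendsto_const_nhds
  · filter_upwards [self_mem_nhdsWithin] with ε hε n
    have hε : 0 < ε := hε
    exact ww_bd hl (by linarith) n

/-- the conditionally convergent part -/
noncomputable def cc (n : ℕ) : ℝ := if n.Prime then ch n / n else 0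

theorem cc_summable (ε : ℝ) (hε : 0 < ε) : Summable (fun n : ℕ => |cc n| * (n : ℝ) ^ (-ε)) := by
  have h1 : Summable (fun n : ℕ => (n : ℝ) ^ (-(1 + ε))) := Real.summable_nat_rpow.2 (by linarith)
  refine Summable.of_nonneg_of_le (fun n => by positivity) (fun n => ?_) h1
  unfold cc
  split_ifs with hp
  · have hn0 : (0 : ℝ) < n := by exact_mod_cast hp.pos
    rw [abs_div, abs_of_pos hn0, neg_add, Real.rpow_add hn0, Real.rpow_neg_one]
    have := abs_ch n
    calc |ch n| / n * (n : ℝ) ^ (-ε) ≤ 1 / n * (n : ℝ) ^ (-ε) := by gcongr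
      _ = (n : ℝ)⁻¹ * (n : ℝ) ^ (-ε) := by rw [one_div]
  · rw [abs_zero, zero_mul]
    positivity

theorem log_prod {l : ℤ} {s : ℝ} (hs : 1 ≤ s) (N : ℕ) : ∏ p ∈ Nat.primesBelow N, (1 - yy l s p) =
    Real.exp (∑ n ∈ range N, (ww l s n - cc n * (n : ℝ) ^ (-(s - 1)))) := by
  have h1 : ∑ n ∈ range N, (ww l s n - cc n * (n : ℝ) ^ (-(s - 1))) =
      ∑ p ∈ Nat.primesBelow N, Real.log (1 - yy l s p) := by
    unfold Nat.primesBelow
    rw [sum_filter]
    refine sum_congr rfl fun n _ => ?_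
    unfold ww cc
    split_ifs with hp
    · have hn0 : (0 : ℝ) < n := by exact_mod_cast hp.pos
      have e : (n : ℝ) ^ (-s) = (n : ℝ)⁻¹ * (n : ℝ) ^ (-(s - 1)) := by
        rw [← Real.rpow_neg_one, ← Real.rpow_add hn0]
        congr 1
        ring
      rw [e]
      ring
    · ring
  rw [h1, Real.exp_sum]
  refine prod_congr rfl fun p hp => ?_
  have hp' := Nat.prime_of_mem_primesBelow hp
  have := (abs_le.1 (yy_bd (l := l) hs hp').1).2
  rw [Real.exp_log (by linarith)]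

/-- the real zeta function -/
noncomputable def zr (s : ℝ) : ℝ := (riemannZeta (s : ℂ)).re

theorem zr_tendsto {s : ℝ} (hs : 1 < s) :
    Tendsto (fun N : ℕ => ∏ p ∈ Nat.primesBelow N, (1 - (p : ℝ) ^ (-s))⁻¹) atTop (𝓝 (zr s)) := by
  have h1 := riemannZeta_eulerProduct (s := (s : ℂ)) (by simpa using hs)
  have h2 := (Complex.continuous_re.tendsto _).comp h1
  refine h2.congr fun N => ?_
  simp only [Function.comp]
  have h3 : (∏ p ∈ Nat.primesBelow N, (1 - (p : ℂ) ^ (-(s : ℂ)))⁻¹) =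
      ((∏ p ∈ Nat.primesBelow N, (1 - (p : ℝ) ^ (-s))⁻¹ : ℝ) : ℂ) := by
    push_cast
    refine prod_congr rfl fun p _ => ?_
    rw [Complex.ofReal_cpow (Nat.cast_nonneg p)]
    push_cast
    rfl
  rw [h3, Complex.ofReal_re]

theorem DD_zeta (hm : S_MUB) {l : ℤ} (hl : 1 ≤ l) {ε : ℝ} (hε : 0 < ε) :
    DD l 1 (1 + ε) * zr (1 + ε) =
      Real.exp (∑' n : ℕ, ww l (1 + ε) n - ∑' n : ℕ, cc n * (n : ℝ) ^ (-ε)) := by
  have hs : 1 < 1 + ε := by linarith
  have h1 := (DD_euler hm hl hs).mul (zr_tendsto hs)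
  have hcs : Summable (fun n : ℕ => cc n * (n : ℝ) ^ (-ε)) := by
    refine Summable.of_norm_bounded (cc_summable ε hε) fun n => ?_
    rw [norm_mul, Real.norm_eq_abs, Real.norm_of_nonneg (by positivity)]
  have h2 := ((ww_summable hl hs.le).hasSum.sub hcs.hasSum).tendsto_sum_nat
  have h3 := (Real.continuous_exp.tendsto _).comp h2
  refine tendsto_nhds_unique h1 (h3.congr fun N => ?_)
  simp only [Function.comp]
  have e : (1 + ε - 1) = ε := by ring
  have h4 := log_prod (l := l) hs.le N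
  rw [e] at h4
  rw [← h4, ← prod_mul_distrib]
  refine prod_congr rfl fun p hp => ?_
  have hp' := Nat.prime_of_mem_primesBelow hp
  obtain ⟨x1, x2, x3⟩ := x_bd hp'.two_le hs.le
  have hne : 1 - (p : ℝ) ^ (-(1 + ε)) ≠ 0 := by linarith
  rw [Fl_eq l hs.le hp']
  field_simp

theorem pp_eq (l : ℤ) (z : ℕ) : pp l z = ∏ p ∈ Nat.primesBelow (z + 1), (1 - yy l 1 p) := by
  unfold pp
  have h1 : ∏ p ∈ (Icc 3 z).filter (fun p : ℕ => p.Prime ∧ ¬ (p : ℤ) ∣ l), (1 - yy l 1 p) =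
      ∏ p ∈ Nat.primesBelow (z + 1), (1 - yy l 1 p) := by
    apply prod_subset
    · intro p hp
      rw [mem_filter, mem_Icc] at hp
      rw [Nat.mem_primesBelow]
      exact ⟨by omega, hp.2.1⟩
    · intro p hp hn
      rw [Nat.mem_primesBelow] at hp
      rw [mem_filter, mem_Icc] at hn
      have h2 : yy l 1 p = 0 := by
        rcases eq_or_ne p 2 with rfl | hp2
        · unfold yy
          rw [ch_two]
          simp
        · have hp3 : 3 ≤ p := by have := hp.2.two_le; omega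
          have hdvd : (p : ℤ) ∣ l := by
            by_contra h
            exact hn ⟨⟨hp3, by omega⟩, hp.2, h⟩
          have hn0 : (p : ℝ) ≠ 0 := by exact_mod_cast hp.2.ne_zero
          unfold yy gl
          rw [if_pos hdvd, Real.rpow_neg_one, mul_inv_cancel₀ hn0]
          simp
      rw [h2, sub_zero]
  rw [← h1]
  refine prod_congr rfl fun p hp => ?_
  rw [mem_filter, mem_Icc] at hp
  have hp1 : (3 : ℝ) ≤ p := by exact_mod_cast hp.1.1
  unfold yy gl
  rw [if_neg hp.2.2, Real.rpow_neg_one]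
  have h2 : (p : ℝ) ≠ 0 := by linarith
  have h3 : (p : ℝ) - 1 ≠ 0 := by linarith
  have h4 : 1 - (p : ℝ)⁻¹ ≠ 0 := by
    rw [sub_ne_zero]
    intro h
    have : (p : ℝ) = 1 := by
      have := congrArg (fun t : ℝ => t⁻¹) h
      simpa using this.symm
    linarith
  unfold ch
  field_simp
  ring

/-- the limit of `D ζ` is the singular series -/
theorem SS_limit (hm : S_MUB) (hs : S_SSL) {l : ℤ} (hl : 1 ≤ l) :
    Tendsto (fun ε : ℝ => DD l 1 (1 + ε) * zr (1 + ε)) (𝓝[>] 0) (𝓝 (SS l)) := by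
  obtain ⟨h1, h2⟩ := hs l (by omega)
  have h3 : Tendsto (fun z : ℕ => Real.log (pp l z)) atTop (𝓝 (Real.log (SS l))) :=
    (Real.continuousAt_log h2.ne').tendsto.comp h1
  have h4 : ∀ z : ℕ, Real.log (pp l z) = ∑ n ∈ range (z + 1), ww l 1 n - ∑ n ∈ range (z + 1), cc n := by
    intro z
    rw [pp_eq, log_prod le_rfl, Real.log_exp, ← sum_sub_distrib]
    refine sum_congr rfl fun n _ => ?_
    simp
  have h5 : Tendsto (fun z : ℕ => ∑ n ∈ range (z + 1), ww l 1 n) atTop (𝓝 (∑' n, ww l 1 n)) :=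
    (ww_summable hl le_rfl).hasSum.tendsto_sum_nat.comp (tendsto_add_atTop_nat 1)
  have h6 : Tendsto (fun N : ℕ => ∑ n ∈ Icc 1 N, cc n) atTop (𝓝 (∑' n, ww l 1 n - Real.log (SS l))) := by
    refine (h5.sub h3).congr fun N => ?_
    rw [h4]
    have e : ∑ n ∈ range (N + 1), cc n = ∑ n ∈ Icc 1 N, cc n := by
      rw [sum_range_succ']
      have e0 : cc 0 = 0 := by
        unfold cc
        rw [if_neg (by decide)]
      rw [e0, add_zero, Finset.range_eq_Ico, Finset.sum_Ico_add' cc 0 N 1]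
      refine sum_congr ?_ fun _ _ => rfl
      ext n
      rw [mem_Ico, mem_Icc]
      omega
    rw [e]
    ring
  have h7 := abel (f := cc) (by unfold cc; rw [if_neg (by decide)]) h6 cc_summable
  have h8 := (Real.continuous_exp.tendsto _).comp ((ww_tendsto hl).sub h7)
  have e : Real.exp (∑' n, ww l 1 n - (∑' n, ww l 1 n - Real.log (SS l))) = SS l := by
    rw [sub_sub_cancel, Real.exp_log h2]
  rw [e] at h8
  refine h8.congr' ?_
  filter_upwards [self_mem_nhdsWithin] with ε hε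
  exact (DD_zeta hm hl hε).symm

end Pool.Agent.N866.GN.MT
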