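import Pool.Agent.N782.GN.StmV
import Pool.Agent.H304R3.HK.LgB

/-!
# Project GN, P0A: characters modulo `q` on `ℤ[i]` and their sums
-/

set_option autoImplicit false

namespace Pool.Agent.N866.GN

open Finset
open Pool.Agent.N782.GN
open Pool.Agent.H304R3.HK (UH bb LamK lg_bb)
open Pool.Agent.H304R3.HK.M1 (CG mem_CG bb_eq)

/-! ### norms and the block `bl` -/

theorem norm_nn (z : ZI) : 0 ≤ Zsqrtd.norm z := GaussianInt.norm_nonneg z

theorem natAbs_norm (z : ZI) : ((Zsqrtd.norm z).natAbs : ℤ) = Zsqrtd.norm z :=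
  Int.natAbs_of_nonneg (norm_nn z)

theorem nz_natAbs (z : ZI) : nz z = ((Zsqrtd.norm z).natAbs : ℝ) := by
  unfold nz
  rw [← natAbs_norm z]
  simp

theorem norm_pos_of {z : ZI} (hz : z ≠ 0) : 1 ≤ (Zsqrtd.norm z).natAbs := by
  have h : Zsqrtd.norm z ≠ 0 := by
    intro h
    exact hz ((GaussianInt.norm_eq_zero (x := z)).1 h)
  have := norm_nn z
  omega

theorem one_le_nz {z : ZI} (hz : z ≠ 0) : 1 ≤ nz z := by
  rw [nz_natAbs]
  exact_mod_cast norm_pos_of hz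

theorem nz_mul (a b : ZI) : nz (a * b) = nz a * nz b := by
  unfold nz
  rw [Zsqrtd.norm_mul]
  push_cast
  rfl

/-- sums over `n` and sums over Gaussian integers -/
theorem sum_bb (f : ZI → ℂ) (g : ℕ → ℂ) (x : ℝ) (hx : 0 ≤ x) :
    ∑ n ∈ Icc 1 ⌊x⌋₊, bb f n * g n =
      (1 / 4 : ℂ) * ∑ z ∈ bl x, f z * g (Zsqrtd.norm z).natAbs := by
  classical
  have h1 : ∀ n ∈ Icc 1 ⌊x⌋₊, bb f n * g n = (1 / 4 : ℂ) *
      ∑ z ∈ bl x with (Zsqrtd.norm z).natAbs = n, f z * g (Zsqrtd.norm z).natAbs := by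
    intro n hn
    rw [mem_Icc] at hn
    have h2 : (bl x).filter (fun z => (Zsqrtd.norm z).natAbs = n) = CG n := by
      ext z
      rw [mem_filter, mem_bl, mem_CG]
      constructor
      · rintro ⟨_, h⟩
        rw [← h]
        exact (natAbs_norm z).symm
      · intro h
        have h3 : (Zsqrtd.norm z).natAbs = n := by rw [h]; simp
        refine ⟨⟨?_, ?_⟩, h3⟩
        · rintro rfl
          simp at h3
          omega
        · rw [nz_natAbs, h3]
          exact (Nat.le_floor_iff hx).1 hn.2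
    rw [h2, bb_eq, mul_assoc, Finset.sum_mul]
    congr 1
    refine sum_congr rfl fun z hz => ?_
    rw [mem_CG] at hz
    rw [hz]
    simp
  rw [sum_congr rfl h1, ← Finset.mul_sum]
  congr 1
  refine sum_fiberwise_of_maps_to (g := fun z : ZI => (Zsqrtd.norm z).natAbs) ?_ _
  intro z hz
  rw [mem_bl] at hz
  rw [mem_Icc]
  refine ⟨norm_pos_of hz.1, Nat.le_floor ?_⟩
  rw [← nz_natAbs]
  exact hz.2

theorem ph_zero (t : ℝ) {z : ZI} (hz : z ≠ 0) :
    (((Zsqrtd.norm z).natAbs : ℕ) : ℂ) ^ (-(t : ℂ) * Complex.I) = ph 0 t z := by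
  have h1 := norm_pos_of hz
  have h2 : (((Zsqrtd.norm z).natAbs : ℕ) : ℂ) ≠ 0 := by
    exact_mod_cast (by omega : (Zsqrtd.norm z).natAbs ≠ 0)
  rw [Complex.cpow_def_of_ne_zero h2, ← Complex.natCast_log]
  unfold ph
  rw [nz_natAbs]
  congr 1
  push_cast
  ring

theorem ds_bb (f : ZI → ℂ) (x t : ℝ) (hx : 0 ≤ x) :
    ds (bb f) x t = (1 / 4 : ℂ) * ∑ z ∈ bl x, f z * ph 0 t z := by
  unfold ds
  rw [sum_bb f (fun n => (n : ℂ) ^ (-(t : ℂ) * Complex.I)) x hx]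
  congr 1
  refine sum_congr rfl fun z hz => ?_
  rw [mem_bl] at hz
  rw [ph_zero t hz.1]

/-! ### representatives modulo `q` -/

/-- reduction modulo `q` -/
def red (q : ℕ) (z : ZI) : ZI := ⟨z.re % q, z.im % q⟩

/-- representatives modulo `q` -/
def Rq (q : ℕ) : Finset ZI :=
  ((range q) ×ˢ (range q)).map ⟨fun p : ℕ × ℕ => (⟨(p.1 : ℤ), (p.2 : ℤ)⟩ : ZI), by
    rintro ⟨a, b⟩ ⟨c, d⟩ h
    simpa [Zsqrtd.ext_iff] using h⟩

theorem card_Rq (q : ℕ) : (Rq q).card = q ^ 2 := by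
  unfold Rq
  rw [card_map, card_product, card_range, sq]

theorem mem_Rq {q : ℕ} {z : ZI} :
    z ∈ Rq q ↔ (0 ≤ z.re ∧ z.re < q) ∧ (0 ≤ z.im ∧ z.im < q) := by
  unfold Rq
  rw [mem_map]
  constructor
  · rintro ⟨⟨a, b⟩, h, rfl⟩
    rw [mem_product, mem_range, mem_range] at h
    simp only [Function.Embedding.coeFn_mk]
    omega
  · rintro ⟨⟨h1, h2⟩, ⟨h3, h4⟩⟩
    refine ⟨(z.re.toNat, z.im.toNat), ?_, ?_⟩
    · rw [mem_product, mem_range, mem_range]
      constructor <;> simp only <;> omega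
    · simp only [Function.Embedding.coeFn_mk]
      ext <;> simp [h1, h3]

theorem dvd_iff (q : ℕ) (w : ZI) : ((q : ℕ) : ZI) ∣ w ↔ (q : ℤ) ∣ w.re ∧ (q : ℤ) ∣ w.im := by
  rw [← Zsqrtd.intCast_dvd]
  simp

theorem red_mem {q : ℕ} (hq : 1 ≤ q) (z : ZI) : red q z ∈ Rq q := by
  have hq' : (q : ℤ) ≠ 0 := by omega
  have hq'' : (0 : ℤ) < q := by omega
  rw [mem_Rq]
  exact ⟨⟨Int.emod_nonneg _ hq', Int.emod_lt_of_pos _ hq''⟩,
    ⟨Int.emod_nonneg _ hq', Int.emod_lt_of_pos _ hq''⟩⟩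

theorem red_dvd (q : ℕ) (z : ZI) : ((q : ℕ) : ZI) ∣ z - red q z := by
  rw [dvd_iff]
  exact ⟨Int.dvd_self_sub_emod, Int.dvd_self_sub_emod⟩

theorem red_eq_iff {q : ℕ} {z r : ZI} (hr : r ∈ Rq q) :
    red q z = r ↔ ((q : ℕ) : ZI) ∣ z - r := by
  constructor
  · rintro rfl
    exact red_dvd q z
  · intro h
    rw [dvd_iff] at h
    rw [mem_Rq] at hr
    have e1 : z.re % q = r.re := by
      have h1 := (Int.emod_emod_of_dvd z.re (dvd_refl (q : ℤ)))
      have h2 : z.re % q = r.re % q :=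
        Int.emod_eq_emod_iff_emod_sub_eq_zero.2 (Int.emod_eq_zero_of_dvd h.1)
      rw [h2, Int.emod_eq_of_lt hr.1.1 hr.1.2]
    have e2 : z.im % q = r.im := by
      have h2 : z.im % q = r.im % q :=
        Int.emod_eq_emod_iff_emod_sub_eq_zero.2 (Int.emod_eq_zero_of_dvd h.2)
      rw [h2, Int.emod_eq_of_lt hr.2.1 hr.2.2]
    unfold red
    ext
    · exact e1
    · exact e2

theorem sum_cls {q : ℕ} (hq : 1 ≤ q) (F : ZI → ℂ) (x : ℝ) :
    ∑ z ∈ bl x, F z = ∑ r ∈ Rq q, ∑ z ∈ cls q r x, F z := by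
  classical
  rw [← sum_fiberwise_of_maps_to (s := bl x) (t := Rq q) (g := red q)
    (fun z _ => red_mem hq z) F]
  refine sum_congr rfl fun r hr => ?_
  unfold cls
  refine sum_congr ?_ fun _ _ => rfl
  ext z
  rw [mem_filter, mem_filter, red_eq_iff hr]

/-! ### characters -/

section chi

variable {q : ℕ} {χ : ZI →* ℂ}

theorem chi_le (h : Chi q χ) (a : ZI) : ‖χ a‖ ≤ 1 := by
  by_cases ha : χ a = 0
  · rw [ha, norm_zero]; exact zero_le_one
  · rw [h.nrm a ((h.supp a).1 ha)]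

theorem np_two (hq : 1 ≤ q) (h : Chi q χ) (hnp : ∃ a : ZI, IsCoprime a ((q : ℕ) : ZI) ∧ χ a ≠ 1) :
    2 ≤ q := by
  by_contra hlt
  have hq1 : q = 1 := by omega
  subst hq1
  obtain ⟨a, -, ha⟩ := hnp
  apply ha
  rw [h.per a 1 (by simp), map_one]

theorem chi_zero (hq : 2 ≤ q) (h : Chi q χ) : χ 0 = 0 := by
  by_contra h0
  have h1 := (h.supp 0).1 h0
  rw [isCoprime_zero_left] at h1
  have h2 : ((q : ℕ) : ZI) ∣ 1 := h1.dvd
  rw [dvd_iff] at h2
  have h3 : (q : ℤ) ∣ 1 := by simpa using h2.1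
  have h4 := Int.le_of_dvd one_pos h3
  omega

theorem uh_chi (hq : 2 ≤ q) (h : Chi q χ) (hi : χ ⟨0, 1⟩ = 1) : UH χ :=
  ⟨chi_zero hq h, chi_le h, hi⟩

/-- the sum of a nonprincipal character over the representatives vanishes -/
theorem sum_chi (hq : 1 ≤ q) (h : Chi q χ)
    (hnp : ∃ a : ZI, IsCoprime a ((q : ℕ) : ZI) ∧ χ a ≠ 1) : ∑ r ∈ Rq q, χ r = 0 := by
  classical
  obtain ⟨a, ha, hχ⟩ := hnp
  have hinj : Set.InjOn (fun r => red q (a * r)) (Rq q : Set ZI) := by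
    intro r hr r' hr' hrr
    have h1 : ((q : ℕ) : ZI) ∣ a * r - red q (a * r) := red_dvd q _
    have h2 : ((q : ℕ) : ZI) ∣ a * r' - red q (a * r') := red_dvd q _
    have h3 : ((q : ℕ) : ZI) ∣ a * (r - r') := by
      have h4 := dvd_sub h1 h2
      have h5 : red q (a * r) = red q (a * r') := hrr
      rw [h5] at h4
      have h6 : a * r - red q (a * r') - (a * r' - red q (a * r')) = a * (r - r') := by ring
      rwa [h6] at h4
    have h4 : ((q : ℕ) : ZI) ∣ r - r' := ha.symm.dvd_of_dvd_mul_left h3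
    have h5 := (red_eq_iff (q := q) (z := r) hr').2 h4
    have h6 := (red_eq_iff (q := q) (z := r) hr).2 (by simp)
    rw [← h6, h5]
  have himg : (Rq q).image (fun r => red q (a * r)) = Rq q := by
    refine eq_of_subset_of_card_le ?_ ?_
    · intro z hz
      obtain ⟨r, -, rfl⟩ := mem_image.1 hz
      exact red_mem hq _
    · rw [card_image_of_injOn hinj]
  have h1 : ∑ r ∈ Rq q, χ r = χ a * ∑ r ∈ Rq q, χ r := by
    conv_lhs => rw [← himg]
    rw [sum_image hinj, mul_sum]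
    refine sum_congr rfl fun r _ => ?_
    rw [← map_mul]
    exact (h.per _ _ (red_dvd q _)).symm
  have h2 : (1 - χ a) * ∑ r ∈ Rq q, χ r = 0 := by linear_combination h1
  exact (mul_eq_zero.1 h2).resolve_left (sub_ne_zero.2 hχ.symm)

end chi

end Pool.Agent.N866.GN
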