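import Pool.Agent.N866.GN.P0Aa
import Pool.Agent.H379R2.SW1
import Pool.Agent.H378R2.M1a

/-!
# Project GN, P0A: elementary bounds for twisted sums and for the zeta function
-/

set_option autoImplicit false

namespace Pool.Agent.N866.GN

open Finset
open Pool.Agent.N782.GN

/-- `u^{1-it}/(1-it)` -/
noncomputable def FI (t : ℝ) (u : ℝ) : ℂ :=
  (u : ℂ) ^ (1 - (t : ℂ) * Complex.I) / (1 - (t : ℂ) * Complex.I)

theorem one_sub_ne (t : ℝ) : (1 : ℂ) - (t : ℂ) * Complex.I ≠ 0 := by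
  intro h
  have := congrArg Complex.re h
  simp at this

theorem one_le_norm (t : ℝ) : 1 ≤ ‖(1 : ℂ) - (t : ℂ) * Complex.I‖ := by
  have := Complex.abs_re_le_norm ((1 : ℂ) - (t : ℂ) * Complex.I)
  simpa using this

theorem FI_deriv (t : ℝ) {u : ℝ} (hu : 0 < u) :
    HasDerivAt (FI t) ((u : ℂ) ^ (-(t : ℂ) * Complex.I)) u := by
  have hne := one_sub_ne t
  have h1 : HasDerivAt (fun y : ℝ => (y : ℂ)) 1 u := by
    simpa using (hasDerivAt_id u).ofReal_comp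
  have h3 : HasDerivAt (fun z : ℂ => z ^ (1 - (t : ℂ) * Complex.I) / (1 - (t : ℂ) * Complex.I))
      ((u : ℂ) ^ (-(t : ℂ) * Complex.I)) (u : ℂ) := by
    have h4 := ((hasDerivAt_id (u : ℂ)).cpow_const (c := 1 - (t : ℂ) * Complex.I)
      (Or.inl (by rw [id]; exact_mod_cast hu))).div_const (1 - (t : ℂ) * Complex.I)
    refine h4.congr_deriv ?_
    rw [show (1 : ℂ) - (t : ℂ) * Complex.I - 1 = -(t : ℂ) * Complex.I by ring]
    simp only [id]
    field_simp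
  have h5 := h3.comp u h1
  rw [mul_one] at h5
  exact h5

theorem FI_step (t : ℝ) {a b K : ℝ} (ha : 0 < a) (hab : a ≤ b) (c : ℂ)
    (h : ∀ u : ℝ, a ≤ u → u ≤ b → ‖(u : ℂ) ^ (-(t : ℂ) * Complex.I) - c‖ ≤ K) :
    ‖FI t b - FI t a - ((b - a : ℝ) : ℂ) * c‖ ≤ K * (b - a) := by
  have h1 := norm_image_sub_le_of_norm_deriv_le_segment' (a := a) (b := b)
    (f := fun u : ℝ => FI t u - (u : ℂ) * c)
    (f' := fun u : ℝ => (u : ℂ) ^ (-(t : ℂ) * Complex.I) - c) (C := K) ?_ ?_ b ⟨hab, le_rfl⟩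
  · refine le_trans (le_of_eq ?_) h1
    congr 1
    push_cast
    ring
  · intro u hu
    have hu0 : 0 < u := lt_of_lt_of_le ha hu.1
    have h2 : HasDerivAt (fun y : ℝ => (y : ℂ) * c) c u := by
      have := ((hasDerivAt_id u).ofReal_comp).mul_const c
      simpa using this
    exact ((FI_deriv t hu0).sub h2).hasDerivWithinAt
  · intro u hu
    exact h u hu.1 hu.2.le

theorem norm_pw (t : ℝ) {u : ℝ} (hu : 0 < u) : ‖(u : ℂ) ^ (-(t : ℂ) * Complex.I)‖ = 1 := by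
  rw [Complex.norm_cpow_eq_rpow_re_of_pos hu]
  simp

theorem sum_pw_nat (t : ℝ) (N : ℕ) (hN : 1 ≤ N) :
    ‖∑ n ∈ Icc 1 N, (n : ℂ) ^ (-(t : ℂ) * Complex.I) - FI t N‖ ≤ 2 + 3 * |t| * Real.sqrt N := by
  induction N, hN using Nat.le_induction with
  | base =>
    have h1 : ‖FI t ((1 : ℕ) : ℝ)‖ ≤ 1 := by
      unfold FI
      rw [norm_div]
      simp only [Nat.cast_one, Complex.ofReal_one, Complex.one_cpow, norm_one]
      rw [div_le_one (by have := one_le_norm t; linarith)]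
      exact one_le_norm t
    have h2 : ‖∑ n ∈ Icc (1 : ℕ) 1, ((n : ℕ) : ℂ) ^ (-(t : ℂ) * Complex.I)‖ ≤ 1 := by simp
    have h3 := norm_sub_le (∑ n ∈ Icc (1 : ℕ) 1, ((n : ℕ) : ℂ) ^ (-(t : ℂ) * Complex.I))
      (FI t ((1 : ℕ) : ℝ))
    have h4 : 0 ≤ 3 * |t| * Real.sqrt ((1 : ℕ) : ℝ) := by positivity
    linarith
  | succ n hn ih =>
    rw [sum_Icc_succ_top (by omega)]
    have hn0 : (0 : ℝ) < n := by exact_mod_cast hn
    have hn1 : (1 : ℝ) ≤ n := by exact_mod_cast hn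
    have h1 := FI_step t (a := (n : ℝ)) (b := ((n + 1 : ℕ) : ℝ)) (K := |t| / n) hn0
      (by push_cast; linarith) (((n + 1 : ℕ) : ℂ) ^ (-(t : ℂ) * Complex.I)) (by
        intro u hu1 hu2
        have hu0 : 0 < u := by linarith
        have h5 := Pool.Agent.H379R2.SW.cpow_diff (a := u) (b := ((n + 1 : ℕ) : ℝ)) hu0 hu2
          (s := (t : ℂ) * Complex.I) (by simp)
        have h6 : (((t : ℂ) * Complex.I)).re = 0 := by simp
        rw [h6] at h5
        have h7 : ‖(t : ℂ) * Complex.I‖ = |t| := by simp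
        rw [h7, neg_zero, zero_sub, Real.rpow_neg_one] at h5
        rw [norm_sub_rev]
        have e : -(t : ℂ) * Complex.I = -((t : ℂ) * Complex.I) := by ring
        rw [e]
        refine le_trans ?_ (h5.trans ?_)
        · apply le_of_eq
          congr 1
        · have h8 : u⁻¹ ≤ (n : ℝ)⁻¹ := inv_anti₀ hn0 hu1
          have h9 : ((n + 1 : ℕ) : ℝ) - u ≤ 1 := by push_cast; linarith
          have h10 : 0 ≤ ((n + 1 : ℕ) : ℝ) - u := by linarith
          calc |t| * u⁻¹ * (((n + 1 : ℕ) : ℝ) - u) ≤ |t| * (n : ℝ)⁻¹ * 1 := by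
                gcongr
            _ = |t| / n := by rw [mul_one, div_eq_mul_inv])
    have e1 : (((n + 1 : ℕ) : ℝ) - (n : ℝ)) = 1 := by push_cast; ring
    rw [e1] at h1
    simp only [Complex.ofReal_one, one_mul, mul_one] at h1
    have e2 : ∑ k ∈ Icc 1 n, (k : ℂ) ^ (-(t : ℂ) * Complex.I) +
        ((n + 1 : ℕ) : ℂ) ^ (-(t : ℂ) * Complex.I) - FI t ((n + 1 : ℕ) : ℝ) =
        (∑ k ∈ Icc 1 n, (k : ℂ) ^ (-(t : ℂ) * Complex.I) - FI t n) -
        (FI t ((n + 1 : ℕ) : ℝ) - FI t n - ((n + 1 : ℕ) : ℂ) ^ (-(t : ℂ) * Complex.I)) := by ring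
    rw [e2]
    refine (norm_sub_le _ _).trans ?_
    have h2 : 3 * Real.sqrt n + 1 / n ≤ 3 * Real.sqrt ((n + 1 : ℕ) : ℝ) := by
      set a := Real.sqrt n with ha
      set b := Real.sqrt ((n + 1 : ℕ) : ℝ) with hb
      have ha2 : a ^ 2 = n := Real.sq_sqrt hn0.le
      have hb2 : b ^ 2 = n + 1 := by
        rw [hb, Real.sq_sqrt (by positivity)]; push_cast; ring
      have ha1 : 1 ≤ a := by
        rw [ha]; exact Real.one_le_sqrt.2 hn1
      have hb0 : 0 ≤ b := Real.sqrt_nonneg _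
      have hab : a ≤ b := by
        apply Real.sqrt_le_sqrt; push_cast; linarith
      have hba : b ≤ a + 1 := by
        by_contra h
        push Not at h
        nlinarith
      rw [← ha2]
      have h3 : (b - a) * (a + b) = 1 := by nlinarith
      have h4 : 1 / a ^ 2 ≤ 3 * (b - a) := by
        rw [div_le_iff₀ (by positivity)]
        have h5 : a + b ≤ 3 * a ^ 2 := by nlinarith
        nlinarith
      linarith
    have h3 := mul_le_mul_of_nonneg_left h2 (abs_nonneg t)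
    have e3 : |t| * (3 * Real.sqrt n + 1 / n) = 3 * |t| * Real.sqrt n + |t| / n := by ring
    rw [e3] at h3
    linarith

/-- twisted sums of the constant one -/
theorem sum_pw (t : ℝ) {x : ℝ} (hx : 1 ≤ x) :
    ‖∑ n ∈ Icc 1 ⌊x⌋₊, (n : ℂ) ^ (-(t : ℂ) * Complex.I) - FI t x‖ ≤ 3 * (1 + |t|) * Real.sqrt x := by
  have hN : 1 ≤ ⌊x⌋₊ := Nat.le_floor (by simpa using hx)
  have hN1 : (1 : ℝ) ≤ ⌊x⌋₊ := by exact_mod_cast hN
  have hNx : (⌊x⌋₊ : ℝ) ≤ x := Nat.floor_le (by linarith)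
  have hNx' : x < ⌊x⌋₊ + 1 := Nat.lt_floor_add_one x
  have h1 := sum_pw_nat t ⌊x⌋₊ hN
  have h2 := FI_step t (a := (⌊x⌋₊ : ℝ)) (b := x) (K := 1) (by linarith) hNx 0 (by
    intro u hu1 _
    rw [sub_zero, norm_pw t (by linarith)])
  rw [mul_zero, sub_zero, one_mul] at h2
  have h3 : 1 ≤ Real.sqrt x := Real.one_le_sqrt.2 hx
  have h4 : Real.sqrt (⌊x⌋₊ : ℝ) ≤ Real.sqrt x := Real.sqrt_le_sqrt hNx
  have e : ∑ n ∈ Icc 1 ⌊x⌋₊, (n : ℂ) ^ (-(t : ℂ) * Complex.I) - FI t x =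
      (∑ n ∈ Icc 1 ⌊x⌋₊, (n : ℂ) ^ (-(t : ℂ) * Complex.I) - FI t ⌊x⌋₊) - (FI t x - FI t ⌊x⌋₊) := by
    ring
  rw [e]
  refine (norm_sub_le _ _).trans ?_
  have h5 : 3 * |t| * Real.sqrt (⌊x⌋₊ : ℝ) ≤ 3 * |t| * Real.sqrt x := by gcongr
  nlinarith

/-- the zeta function slightly to the left of the line `Re s = 1` -/
theorem zeta_up : ∃ C : ℝ, 1 ≤ C ∧ ∀ l : ℝ, 4 ≤ l → ∀ s : ℂ, 1 - 1 / l ≤ s.re → s.re ≤ 3 → s ≠ 1 →
    Real.log (|s.im| + 2) ≤ l → ‖riemannZeta s‖ ≤ C * (l + 1 / ‖s - 1‖) := by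
  refine ⟨Real.exp 3 * 3 + 3, by have := Real.exp_pos 3; linarith, ?_⟩
  intro l hl s hs1 hs2 hne htl
  have hl0 : 0 < l := by linarith
  set Q : ℝ := |s.im| + 2 with hQdef
  have hQ : 1 ≤ Q := by
    have := abs_nonneg s.im
    rw [hQdef]
    linarith
  have hl4 : 1 / l ≤ 1 / 4 := one_div_le_one_div_of_le (by norm_num) hl
  have hσ : 3 / 4 ≤ s.re := by linarith
  have hσ0 : 0 < s.re := by linarith
  obtain ⟨h1, h2, h3⟩ := Pool.Agent.H378R2.M1.ceil_bounds hQ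
  set N := ⌈Q ^ 2⌉₊ with hN
  have hN0 : 0 < N := h1
  have hNr : (0 : ℝ) < N := by exact_mod_cast h1
  have hsn : 0 < ‖s - 1‖ := norm_pos_iff.2 (sub_ne_zero.2 hne)
  have hlogN : Real.log N ≤ 2 * l + 1 := by
    calc Real.log N ≤ Real.log (2 * Q ^ 2) := Real.log_le_log hNr h3
      _ = Real.log 2 + 2 * Real.log Q := by
          rw [Real.log_mul (by norm_num) (by positivity), Real.log_pow]; push_cast; ring
      _ ≤ 2 * l + 1 := by
          have := Real.log_two_lt_d9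
          linarith
  have hlogN0 : 0 ≤ Real.log N := Real.log_nonneg (by exact_mod_cast h1)
  have ha : (1 - s.re) * Real.log N ≤ 3 := by
    have h5 : (1 - s.re) * Real.log N ≤ (1 / l) * Real.log N := by gcongr; linarith
    have h6 : (1 / l) * Real.log N ≤ (1 / l) * (3 * l) := by
      gcongr
      linarith
    have h7 : (1 / l) * (3 * l) = 3 := by field_simp
    linarith
  rw [Pool.Agent.H307R2.zeta_eq h1 hσ0 hne]
  have hA : ‖∑ n ∈ Finset.Icc 1 N, (n : ℂ) ^ (-s)‖ ≤ Real.exp 3 * (2 * l + 2) := by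
    calc ‖∑ n ∈ Finset.Icc 1 N, (n : ℂ) ^ (-s)‖
        ≤ ∑ n ∈ Finset.Icc 1 N, (n : ℝ) ^ (-s.re) := by
          refine norm_sum_le_of_le _ fun n hn => ?_
          rw [Finset.mem_Icc] at hn
          have hn0 : 0 < n := by omega
          rw [Complex.norm_natCast_cpow_of_pos hn0, Complex.neg_re]
      _ ≤ Real.exp 3 * (1 + Real.log N) :=
          Pool.Agent.H378R2.M1.sum_rpow_le (by norm_num) ha
      _ ≤ Real.exp 3 * (2 * l + 2) :=
          mul_le_mul_of_nonneg_left (by linarith) (Real.exp_pos 3).le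
  have hC : ‖(N : ℂ) ^ (1 - s) / (s - 1)‖ ≤ Real.exp 3 * (1 / ‖s - 1‖) := by
    rw [norm_div, Complex.norm_natCast_cpow_of_pos hN0, div_eq_mul_one_div]
    gcongr
    have e : (1 - s).re = 1 - s.re := by simp
    rw [e, Real.rpow_def_of_pos hNr, Real.exp_le_exp, mul_comm]
    exact ha
  have hB : ‖s * Pool.Agent.H307R2.TM N Pool.Agent.H307R2.Ez s‖ ≤ 8 / 3 := by
    have hs3 : ‖s‖ ≤ 2 * (|s.im| + 2) := by
      have := Complex.norm_le_abs_re_add_abs_im s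
      rw [abs_of_pos hσ0] at this
      have := abs_nonneg s.im
      linarith
    calc ‖s * Pool.Agent.H307R2.TM N Pool.Agent.H307R2.Ez s‖
        = ‖s‖ * ‖Pool.Agent.H307R2.TM N Pool.Agent.H307R2.Ez s‖ := norm_mul _ _
      _ ≤ (2 * (|s.im| + 2)) * (1 * ((N : ℝ) ^ (-s.re) / s.re)) :=
          mul_le_mul hs3 (Pool.Agent.H307R2.TM_norm_le h1 Pool.Agent.H307R2.Ez_norm_le hσ0)
            (norm_nonneg _) (by positivity)
      _ = 2 * (Q * ((N : ℝ) ^ (-s.re) / s.re)) := by rw [hQdef]; ring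
      _ ≤ 2 * (4 / 3) := by
          gcongr
          exact Pool.Agent.H378R2.M1.tail_le hQ hσ
      _ = 8 / 3 := by norm_num
  have he := Real.exp_pos 3
  have hp : 0 < 1 / ‖s - 1‖ := by positivity
  calc ‖∑ n ∈ Finset.Icc 1 N, (n : ℂ) ^ (-s) + (N : ℂ) ^ (1 - s) / (s - 1) +
        s * Pool.Agent.H307R2.TM N Pool.Agent.H307R2.Ez s‖
      ≤ Real.exp 3 * (2 * l + 2) + Real.exp 3 * (1 / ‖s - 1‖) + 8 / 3 :=
        (norm_add_le _ _).trans (add_le_add ((norm_add_le _ _).trans (add_le_add hA hC)) hB)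
    _ ≤ (Real.exp 3 * 3 + 3) * (l + 1 / ‖s - 1‖) := by nlinarith

/-! ### sums of characters -/

section chi

variable {q : ℕ} {χ : ZI →* ℂ}

theorem sum_cls_chi (h : Chi q χ) (r : ZI) (t x : ℝ) :
    ∑ z ∈ cls q r x, χ z * ph 0 t z = χ r * ∑ z ∈ cls q r x, ph 0 t z := by
  classical
  rw [mul_sum]
  refine sum_congr rfl fun z hz => ?_
  unfold cls at hz
  rw [mem_filter] at hz
  rw [h.per z r hz.2]

/-- sums of characters twisted by `N(z)^{-it}` -/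
theorem chi_tw (h0 : S_EL) : ∃ C : ℝ, 1 ≤ C ∧ ∀ (q : ℕ) (χ : ZI →* ℂ) (t x : ℝ), 1 ≤ q → Chi q χ → 1 ≤ x →
    ‖∑ z ∈ bl x, χ z * ph 0 t z - ((Real.pi / (q : ℝ) ^ 2 : ℝ) : ℂ) * (∑ r ∈ Rq q, χ r) * FI t x‖ ≤
      (q : ℝ) ^ 2 * (C * (1 + |t|) * Real.sqrt x) := by
  obtain ⟨C, hC, hEL⟩ := h0
  refine ⟨max C 1, le_max_right _ _, ?_⟩
  intro q χ t x hq hχ hx
  have e1 : ∑ z ∈ bl x, χ z * ph 0 t z - ((Real.pi / (q : ℝ) ^ 2 : ℝ) : ℂ) * (∑ r ∈ Rq q, χ r) * FI t x =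
      ∑ r ∈ Rq q, χ r * (∑ z ∈ cls q r x, ph 0 t z - ((Real.pi / (q : ℝ) ^ 2 : ℝ) : ℂ) * FI t x) := by
    rw [sum_cls hq (fun z => χ z * ph 0 t z) x]
    simp_rw [sum_cls_chi hχ, mul_sub, sum_sub_distrib]
    congr 1
    rw [mul_sum, sum_mul]
    refine sum_congr rfl fun r _ => ?_
    ring
  rw [e1]
  calc ‖∑ r ∈ Rq q, χ r * (∑ z ∈ cls q r x, ph 0 t z - ((Real.pi / (q : ℝ) ^ 2 : ℝ) : ℂ) * FI t x)‖
      ≤ ∑ r ∈ Rq q, max C 1 * (1 + |t|) * Real.sqrt x := by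
        refine norm_sum_le_of_le _ fun r _ => ?_
        have h1 := hEL 0 t q r x hq hx
        rw [if_pos rfl] at h1
        have h2 : (1 + |((0 : ℤ) : ℝ)| + |t|) = 1 + |t| := by simp
        rw [h2] at h1
        rw [norm_mul]
        calc ‖χ r‖ * ‖∑ z ∈ cls q r x, ph 0 t z - ((Real.pi / (q : ℝ) ^ 2 : ℝ) : ℂ) * FI t x‖
            ≤ 1 * (C * (1 + |t|) * Real.sqrt x) :=
              mul_le_mul (chi_le hχ r) h1 (norm_nonneg _) zero_le_one
          _ ≤ max C 1 * (1 + |t|) * Real.sqrt x := by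
              rw [one_mul]
              gcongr
              exact le_max_left _ _
    _ = (q : ℝ) ^ 2 * (max C 1 * (1 + |t|) * Real.sqrt x) := by
        rw [sum_const, card_Rq, nsmul_eq_mul]
        push_cast
        ring

end chi

end Pool.Agent.N866.GN
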