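import Pool.Agent.N866.GN.P0Ab
import Pool.Agent.N487.GN.InvA

/-!
# Project GN, P0A: growth of the Dirichlet series
-/

set_option autoImplicit false

namespace Pool.Agent.N866.GN

open Finset
open Pool.Agent.N782.GN
open Pool.Agent.H304R3.HK (UH bb LamK lg_bb)
open Pool.Agent.H304R3.HK.LogDerH (gco_summable)

/-- growth from bounds for the sums -/
theorem grow_gen (h2 : S_GROW) : ∃ C : ℝ, 1 ≤ C ∧ ∀ (f : ℕ → ℂ) (l K : ℝ), 3 ≤ l → 1 ≤ K →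
    2 * K ≤ Real.exp (2 * l) → f 0 = 0 → (∀ n : ℕ, ‖f n‖ ≤ n.divisors.card) →
    (∀ x t : ℝ, 1 ≤ x → ‖ds f x t‖ ≤ K * (1 + |t|) * Real.sqrt x) →
    ∃ L : ℂ → ℂ, DifferentiableOn ℂ L {s | 9 / 10 < s.re} ∧ (∀ s : ℂ, 1 < s.re → L s = LSeries f s) ∧
      ∀ s : ℂ, 1 - 1 / (8 * l) ≤ s.re → s.re ≤ 3 → |s.im| ≤ Real.exp l → ‖L s‖ ≤ C * l ^ 2 := by
  obtain ⟨C, hC, h⟩ := h2
  refine ⟨66 * C, by linarith, ?_⟩
  intro f l K hl hK hKl hf0 hfd hfs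
  have hexp : 1 + l ≤ Real.exp l := by
    have := Real.add_one_le_exp l
    linarith
  have hexp8 : 1 + 8 * l ≤ Real.exp (8 * l) := by
    have := Real.add_one_le_exp (8 * l)
    linarith
  have hs1 : ∀ x : ℝ, 1 ≤ x → ‖ds f x 0‖ ≤ K * x ^ (9 / 10 : ℝ) := by
    intro x hx
    have h1 := hfs x 0 hx
    rw [abs_zero, add_zero, mul_one] at h1
    refine h1.trans ?_
    apply mul_le_mul_of_nonneg_left _ (by linarith)
    rw [Real.sqrt_eq_rpow]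
    exact Real.rpow_le_rpow_of_exponent_le hx (by norm_num)
  have hs2 : ∀ x t : ℝ, Real.exp (8 * l) ≤ x → |t| ≤ Real.exp l → ‖ds f x t‖ ≤ x ^ (1 - 1 / 10 : ℝ) := by
    intro x t hx ht
    have hx1 : 1 ≤ x := by linarith
    have hx0 : 0 < x := by linarith
    refine (hfs x t hx1).trans ?_
    have h1 : K * (1 + |t|) ≤ Real.exp (3 * l) := by
      have e : Real.exp (3 * l) = Real.exp (2 * l) * Real.exp l := by
        rw [← Real.exp_add]; ring_nf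
      rw [e]
      have h3 : 1 + |t| ≤ 2 * Real.exp l := by linarith
      calc K * (1 + |t|) ≤ K * (2 * Real.exp l) := by gcongr
        _ = (2 * K) * Real.exp l := by ring
        _ ≤ _ := by gcongr
    have h3 : Real.exp (3 * l) ≤ x ^ (2 / 5 : ℝ) := by
      calc Real.exp (3 * l) ≤ Real.exp (8 * l) ^ (2 / 5 : ℝ) := by
            rw [← Real.exp_mul, Real.exp_le_exp]
            linarith
        _ ≤ _ := Real.rpow_le_rpow (Real.exp_pos _).le hx (by norm_num)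
    have e : x ^ (1 - 1 / 10 : ℝ) = x ^ (2 / 5 : ℝ) * Real.sqrt x := by
      rw [Real.sqrt_eq_rpow, ← Real.rpow_add hx0]
      norm_num
    rw [e]
    exact mul_le_mul_of_nonneg_right (h1.trans h3) (Real.sqrt_nonneg _)
  obtain ⟨L, hL1, hL2, hL3⟩ := h f (Real.exp l) (Real.exp (8 * l)) (1 / 10) K (by linarith) (by linarith)
    (by norm_num) le_rfl hf0 hfd hs1 hs2
  refine ⟨L, hL1, hL2, ?_⟩
  intro s hs1 hs2 hs3
  rw [Real.log_exp] at hL3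
  have h1 : 1 / (8 * l) ≤ 1 / 20 := one_div_le_one_div_of_le (by norm_num) (by linarith)
  have h3 := hL3 s (by
    rw [min_eq_right (by norm_num; norm_num at h1; exact h1)]
    exact hs1) hs2 hs3
  refine h3.trans ?_
  have e : (1 : ℝ) / (1 / 10) = 10 := by norm_num
  rw [e]
  have h4 : (8 * l) ^ 2 + 10 ≤ 66 * l ^ 2 := by nlinarith
  calc C * ((8 * l) ^ 2 + 10) ≤ C * (66 * l ^ 2) := by gcongr
    _ = 66 * C * l ^ 2 := by ring

theorem pi_le4 : Real.pi / 4 ≤ 1 := by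
  have := Real.pi_le_four
  linarith

/-- growth for nonprincipal characters -/
theorem grow_chi (h0 : S_EL) (h2 : S_GROW) : ∃ C : ℝ, 1 ≤ C ∧ ∀ (q : ℕ) (χ : ZI →* ℂ) (l : ℝ), 1 ≤ q →
    Chi q χ → χ ⟨0, 1⟩ = 1 → (∃ a : ZI, IsCoprime a ((q : ℕ) : ZI) ∧ χ a ≠ 1) → 3 ≤ l →
    C * (q : ℝ) ^ 2 ≤ Real.exp (2 * l) →
    ∃ L : ℂ → ℂ, DifferentiableOn ℂ L {s | 9 / 10 < s.re} ∧ (∀ s : ℂ, 1 < s.re → L s = LSeries (bb χ) s) ∧
      ∀ s : ℂ, 1 - 1 / (8 * l) ≤ s.re → s.re ≤ 3 → |s.im| ≤ Real.exp l → ‖L s‖ ≤ C * l ^ 2 := by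
  obtain ⟨C1, hC1, h1⟩ := chi_tw h0
  obtain ⟨C2, hC2, h3⟩ := grow_gen h2
  refine ⟨2 * C1 + C2, by linarith, ?_⟩
  intro q χ l hq hχ hi hnp hl hql
  have hq2 := np_two hq hχ hnp
  have hU := uh_chi hq2 hχ hi
  have hq1 : (1 : ℝ) ≤ (q : ℝ) ^ 2 := one_le_pow₀ (by exact_mod_cast hq)
  have H := lg_bb χ hU
  obtain ⟨L, hL1, hL2, hL3⟩ := h3 (bb χ) l ((q : ℝ) ^ 2 * C1) hl (by nlinarith) (by nlinarith)
    H.b0 H.bd (by
      intro x t hx
      rw [ds_bb χ x t (by linarith)]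
      have h4 := h1 q χ t x hq hχ hx
      rw [sum_chi hq hχ hnp, mul_zero, zero_mul, sub_zero] at h4
      rw [norm_mul]
      have e : ‖(1 / 4 : ℂ)‖ = 1 / 4 := by norm_num
      rw [e]
      have h5 : 0 ≤ (q : ℝ) ^ 2 * (C1 * (1 + |t|) * Real.sqrt x) := by positivity
      calc 1 / 4 * ‖∑ z ∈ bl x, χ z * ph 0 t z‖ ≤ 1 / 4 * ((q : ℝ) ^ 2 * (C1 * (1 + |t|) * Real.sqrt x)) := by
            gcongr
        _ ≤ (q : ℝ) ^ 2 * (C1 * (1 + |t|) * Real.sqrt x) := by linarith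
        _ = _ := by ring)
  refine ⟨L, hL1, hL2, fun s hs1 hs2 hs3 => (hL3 s hs1 hs2 hs3).trans ?_⟩
  have : 0 ≤ l ^ 2 := by positivity
  nlinarith

/-- growth for all characters: away from one -/
theorem grow_prin (h0 : S_EL) (h2 : S_GROW) : ∃ C : ℝ, 1 ≤ C ∧ ∀ (q : ℕ) (χ : ZI →* ℂ) (l : ℝ), 1 ≤ q →
    Chi q χ → UH χ → 3 ≤ l → C * (q : ℝ) ^ 2 ≤ Real.exp (2 * l) →
    ∃ L : ℂ → ℂ, DifferentiableOn ℂ L {s | 9 / 10 < s.re ∧ s ≠ 1} ∧
      (∀ s : ℂ, 1 < s.re → L s = LSeries (bb χ) s) ∧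
      ∀ s : ℂ, 1 - 1 / (8 * l) ≤ s.re → s.re ≤ 3 → s ≠ 1 → |s.im| ≤ Real.exp l →
        ‖L s‖ ≤ C * (l ^ 2 + 1 / ‖s - 1‖) := by
  obtain ⟨C1, hC1, h1⟩ := chi_tw h0
  obtain ⟨C2, hC2, h3⟩ := grow_gen h2
  obtain ⟨C3, hC3, hz⟩ := zeta_up
  refine ⟨2 * (C1 + 3) + 2 * C2 + 8 * C3, by linarith, ?_⟩
  intro q χ l hq hχ hU hl hql
  have hq1 : (1 : ℝ) ≤ (q : ℝ) ^ 2 := one_le_pow₀ (by exact_mod_cast hq)
  have hq0 : (0 : ℝ) < (q : ℝ) ^ 2 := by linarith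
  have H := lg_bb χ hU
  set c : ℂ := (1 / 4 : ℂ) * (((Real.pi / (q : ℝ) ^ 2 : ℝ) : ℂ) * (∑ r ∈ Rq q, χ r)) with hc
  have hS : ‖∑ r ∈ Rq q, χ r‖ ≤ (q : ℝ) ^ 2 := by
    refine (norm_sum_le_of_le _ (fun r _ => chi_le hχ r)).trans ?_
    rw [sum_const, card_Rq, nsmul_eq_mul, mul_one]
    push_cast
    exact le_rfl
  have hcn : ‖c‖ ≤ 1 := by
    rw [hc, norm_mul, norm_mul, Complex.norm_real, Real.norm_of_nonneg (by positivity)]
    have e : ‖(1 / 4 : ℂ)‖ = 1 / 4 := by norm_num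
    rw [e]
    calc 1 / 4 * (Real.pi / (q : ℝ) ^ 2 * ‖∑ r ∈ Rq q, χ r‖)
        ≤ 1 / 4 * (Real.pi / (q : ℝ) ^ 2 * (q : ℝ) ^ 2) := by gcongr
      _ = Real.pi / 4 := by
          rw [div_mul_cancel₀ _ hq0.ne']; ring
      _ ≤ 1 := pi_le4
  set f : ℕ → ℂ := fun n => if n = 0 then 0 else (1 / 2 : ℂ) * (bb χ n - c) with hf
  have hf0 : f 0 = 0 := by simp [hf]
  have hfd : ∀ n : ℕ, ‖f n‖ ≤ n.divisors.card := by
    intro n
    by_cases hn : n = 0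
    · rw [hn, hf0]; simp
    · have h4 : 1 ≤ n.divisors.card := Finset.card_pos.2 ⟨1, Nat.one_mem_divisors.2 hn⟩
      have h4' : (1 : ℝ) ≤ n.divisors.card := by exact_mod_cast h4
      have h5 := norm_sub_le (bb χ n) c
      have h6 := H.bd n
      have e : ‖(1 / 2 : ℂ)‖ = 1 / 2 := by norm_num
      simp only [hf]
      rw [if_neg hn, norm_mul, e]
      linarith
  have hds : ∀ x t : ℝ, 1 ≤ x → ‖ds f x t‖ ≤ (q : ℝ) ^ 2 * (C1 + 3) * (1 + |t|) * Real.sqrt x := by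
    intro x t hx
    have h4 := h1 q χ t x hq hχ hx
    have h5 := sum_pw t hx
    have e1 : ds f x t = (1 / 2 : ℂ) * ((1 / 4 : ℂ) * (∑ z ∈ bl x, χ z * ph 0 t z -
        ((Real.pi / (q : ℝ) ^ 2 : ℝ) : ℂ) * (∑ r ∈ Rq q, χ r) * FI t x) -
        c * (∑ n ∈ Icc 1 ⌊x⌋₊, (n : ℂ) ^ (-(t : ℂ) * Complex.I) - FI t x)) := by
      have e2 : ds f x t = (1 / 2 : ℂ) * (ds (bb χ) x t -
          c * ∑ n ∈ Icc 1 ⌊x⌋₊, (n : ℂ) ^ (-(t : ℂ) * Complex.I)) := by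
        unfold ds
        rw [mul_sum, ← sum_sub_distrib, mul_sum]
        refine sum_congr rfl fun n hn => ?_
        rw [mem_Icc] at hn
        simp only [hf]
        rw [if_neg (by omega)]
        ring
      rw [e2, ds_bb χ x t (by linarith), hc]
      ring
    rw [e1, norm_mul]
    have e : ‖(1 / 2 : ℂ)‖ = 1 / 2 := by norm_num
    have e' : ‖(1 / 4 : ℂ)‖ = 1 / 4 := by norm_num
    rw [e]
    have hs0 : 0 ≤ Real.sqrt x := Real.sqrt_nonneg x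
    have ht0 : 0 ≤ |t| := abs_nonneg t
    have h6 : ‖(1 / 4 : ℂ) * (∑ z ∈ bl x, χ z * ph 0 t z -
        ((Real.pi / (q : ℝ) ^ 2 : ℝ) : ℂ) * (∑ r ∈ Rq q, χ r) * FI t x)‖ ≤
        1 / 4 * ((q : ℝ) ^ 2 * (C1 * (1 + |t|) * Real.sqrt x)) := by
      rw [norm_mul, e']
      gcongr
    have h7 : ‖c * (∑ n ∈ Icc 1 ⌊x⌋₊, (n : ℂ) ^ (-(t : ℂ) * Complex.I) - FI t x)‖ ≤
        3 * (1 + |t|) * Real.sqrt x := by
      rw [norm_mul]
      calc _ ≤ 1 * (3 * (1 + |t|) * Real.sqrt x) := mul_le_mul hcn h5 (norm_nonneg _) zero_le_one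
        _ = _ := one_mul _
    have h8 := norm_sub_le ((1 / 4 : ℂ) * (∑ z ∈ bl x, χ z * ph 0 t z -
        ((Real.pi / (q : ℝ) ^ 2 : ℝ) : ℂ) * (∑ r ∈ Rq q, χ r) * FI t x))
        (c * (∑ n ∈ Icc 1 ⌊x⌋₊, (n : ℂ) ^ (-(t : ℂ) * Complex.I) - FI t x))
    have h9 : 3 * (1 + |t|) * Real.sqrt x ≤ (q : ℝ) ^ 2 * (3 * (1 + |t|) * Real.sqrt x) := by
      have : 0 ≤ 3 * (1 + |t|) * Real.sqrt x := by positivity
      nlinarith
    have h10 : 0 ≤ (q : ℝ) ^ 2 * (C1 * (1 + |t|) * Real.sqrt x) := by positivity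
    have h11 : 0 ≤ (q : ℝ) ^ 2 * (3 * (1 + |t|) * Real.sqrt x) := by positivity
    have e3 : (q : ℝ) ^ 2 * (C1 + 3) * (1 + |t|) * Real.sqrt x =
      (q : ℝ) ^ 2 * (C1 * (1 + |t|) * Real.sqrt x) + (q : ℝ) ^ 2 * (3 * (1 + |t|) * Real.sqrt x) := by ring
    rw [e3]
    linarith
  obtain ⟨G, hG1, hG2, hG3⟩ := h3 f l ((q : ℝ) ^ 2 * (C1 + 3)) hl (by nlinarith) (by nlinarith)
    hf0 hfd hds
  refine ⟨fun s => c * riemannZeta s + 2 * G s, ?_, ?_, ?_⟩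
  · apply DifferentiableOn.add
    · apply DifferentiableOn.const_mul
      intro s hs
      exact (differentiableAt_riemannZeta hs.2).differentiableWithinAt
    · apply DifferentiableOn.const_mul
      exact hG1.mono fun s hs => hs.1
  · intro s hs
    have h4 := gco_summable (bb χ) _ H (LSeries (bb χ)) (Pool.Agent.N487.GN.hasSum_bb hU) s hs
    have h5 : LSeriesSummable (1 : ℕ → ℂ) s := LSeriesSummable_one_iff.2 hs
    have e1 : LSeries f s = LSeries ((1 / 2 : ℂ) • (bb χ - c • (1 : ℕ → ℂ))) s := by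
      apply LSeries_congr
      intro n hn
      simp only [hf]
      rw [if_neg hn]
      simp
    have e2 : LSeries f s = (1 / 2 : ℂ) * (LSeries (bb χ) s - c * riemannZeta s) := by
      rw [e1, LSeries_smul, LSeries_sub h4 (h5.smul c), LSeries_smul, LSeries_one_eq_riemannZeta hs]
    beta_reduce
    rw [hG2 s hs, e2]
    ring
  · intro s hs1 hs2 hs3 hs4
    beta_reduce
    have h4 := hG3 s hs1 hs2 hs4
    have h5 := hz (8 * l) (by linarith) s hs1 hs2 hs3 (by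
      rw [Real.log_le_iff_le_exp (by have := abs_nonneg s.im; linarith)]
      have e : Real.exp (8 * l) = Real.exp l * Real.exp (7 * l) := by
        rw [← Real.exp_add]; ring_nf
      rw [e]
      have h6 := Real.add_one_le_exp l
      have h7 := Real.add_one_le_exp (7 * l)
      nlinarith)
    have h6 : ‖c * riemannZeta s + 2 * G s‖ ≤ C3 * (8 * l + 1 / ‖s - 1‖) + 2 * (C2 * l ^ 2) := by
      refine (norm_add_le _ _).trans (add_le_add ?_ ?_)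
      · rw [norm_mul]
        calc _ ≤ 1 * (C3 * (8 * l + 1 / ‖s - 1‖)) := mul_le_mul hcn h5 (norm_nonneg _) zero_le_one
          _ = _ := one_mul _
      · rw [norm_mul]
        have e : ‖(2 : ℂ)‖ = 2 := by norm_num
        rw [e]
        gcongr
    refine h6.trans ?_
    have hp : 0 ≤ 1 / ‖s - 1‖ := by positivity
    have hll : l ≤ l ^ 2 := by nlinarith
    have hl2 : 0 ≤ l ^ 2 := by positivity
    have h7 : C3 * (8 * l + 1 / ‖s - 1‖) ≤ 8 * C3 * (l ^ 2 + 1 / ‖s - 1‖) := by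
      have h8 : C3 * (8 * l) ≤ C3 * (8 * l ^ 2) := by gcongr
      have h9 : 0 ≤ C3 * (1 / ‖s - 1‖) := by positivity
      nlinarith
    have h8 : 2 * (C2 * l ^ 2) ≤ 2 * C2 * (l ^ 2 + 1 / ‖s - 1‖) := by
      have h9 : 0 ≤ C2 * (1 / ‖s - 1‖) := by positivity
      nlinarith
    have h9 : 0 ≤ 2 * (C1 + 3) * (l ^ 2 + 1 / ‖s - 1‖) := by positivity
    nlinarith

end Pool.Agent.N866.GN
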