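import Pool.Agent.N866.GN.P0Ac

/-!
# Project GN, P0A: zero free region and bounds for the inverse
-/

set_option autoImplicit false

namespace Pool.Agent.N866.GN

open Finset
open Pool.Agent.N782.GN
open Pool.Agent.H304R3.HK (UH bb LamK lg_bb)

theorem use_inv (h3 : S_INVL) : ∃ (C : ℝ) (K : ℕ), 16 ≤ C ∧ ∀ (χ : ZI →* ℂ), UH χ →
    ∀ (l t θ : ℝ) (L1 L2 : ℂ → ℂ),
    C ≤ l → 22 * Real.log l ≤ l → |t| ≤ Real.exp l / 4 → 1 / l ^ 11 ≤ θ → θ ≤ 1 / (64 * l) →
    DifferentiableOn ℂ L1 {s | 9 / 10 < s.re} → (∀ s : ℂ, 1 < s.re → L1 s = LSeries (bb χ) s) →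
    (∀ s : ℂ, 1 - 1 / (8 * l) ≤ s.re → s.re ≤ 3 → |s.im| ≤ Real.exp l → ‖L1 s‖ ≤ l ^ 11) →
    DifferentiableOn ℂ L2 {s | 9 / 10 < s.re ∧ |s.im - 2 * t| < 8 * θ} →
    (∀ s : ℂ, 1 < s.re → L2 s = LSeries (bb (χ * χ)) s) →
    (∀ s : ℂ, 1 - 1 / (8 * l) ≤ s.re → s.re ≤ 3 → |s.im - 2 * t| < 8 * θ → ‖L2 s‖ ≤ l ^ 11) →
    ∀ σ : ℝ, 1 - 1 / l ^ 20 ≤ σ → σ ≤ 2 → L1 ⟨σ, t⟩ ≠ 0 ∧ ‖(L1 ⟨σ, t⟩)⁻¹‖ ≤ l ^ K := by
  obtain ⟨C, hC, h⟩ := h3
  refine ⟨C + 16, 22 * ⌈C⌉₊, by linarith, ?_⟩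
  intro χ hU l t θ L1 L2 hl hlog ht hθ1 hθ2 a1 a2 a3 b1 b2 b3 σ hσ1 hσ2
  have hl16 : 16 ≤ l := by linarith
  have hl0 : 0 < l := by linarith
  have hl1 : 1 ≤ l := by linarith
  have hCl : C ≤ l := by linarith
  have hθ0 : 0 < θ := lt_of_lt_of_le (by positivity) hθ1
  have hexp := Real.add_one_le_exp l
  have h64 : 1 / (64 * l) ≤ 1 / 1024 := one_div_le_one_div_of_le (by norm_num) (by linarith)
  have h8 : 16 * (1 / (64 * l)) = 2 * (1 / (8 * l)) := by field_simp; norm_num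
  have h4θ : 4 * θ ≤ 1 / (8 * l) := by
    have : 0 < 1 / (8 * l) := by positivity
    linarith
  have hR3 : (3 : ℝ) ≤ l ^ 11 := by
    calc (3 : ℝ) ≤ l := by linarith
      _ = l ^ 1 := (pow_one l).symm
      _ ≤ l ^ 11 := pow_le_pow_right₀ hl1 (by norm_num)
  have hRθ : l ^ 11 / θ ≤ l ^ 22 := by
    rw [div_le_iff₀ hθ0]
    calc l ^ 11 = l ^ 22 * (1 / l ^ 11) := by field_simp
      _ ≤ l ^ 22 * θ := by gcongr
  have hRθ1 : 3 ≤ l ^ 11 / θ := by
    rw [le_div_iff₀ hθ0]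
    nlinarith
  have hlog0 : 0 < Real.log (l ^ 11 / θ) := Real.log_pos (by linarith)
  have hlog1 : Real.log (l ^ 11 / θ) ≤ l := by
    calc Real.log (l ^ 11 / θ) ≤ Real.log (l ^ 22) := Real.log_le_log (by linarith) hRθ
      _ = 22 * Real.log l := by rw [Real.log_pow]; norm_num
      _ ≤ l := hlog
  obtain ⟨k1, k2⟩ := h χ hU t θ (l ^ 11) L1 L2 hθ0 (by linarith) hR3
    (a1.mono (by
      intro s hs
      have := hs.1
      change 9 / 10 < s.re
      linarith))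
    (fun s hs _ => a2 s hs)
    (by
      intro s s1 s2 s3
      apply a3 s (by linarith) s2
      have h5 := abs_sub_abs_le_abs_sub s.im t
      linarith)
    (b1.mono (by
      intro s hs
      refine ⟨?_, hs.2⟩
      have := hs.1
      linarith))
    (fun s hs _ => b2 s hs)
    (by
      intro s s1 s2 s3
      exact b3 s (by linarith) s2 s3)
    σ (by
      refine le_trans ?_ hσ1
      have h5 : 1 / l ^ 20 ≤ θ / (C * Real.log (l ^ 11 / θ)) := by
        rw [le_div_iff₀ (by positivity)]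
        calc 1 / l ^ 20 * (C * Real.log (l ^ 11 / θ)) ≤ 1 / l ^ 20 * (l * l) := by gcongr
          _ = 1 / l ^ 18 := by field_simp
          _ ≤ 1 / l ^ 11 := one_div_le_one_div_of_le (by positivity) (pow_le_pow_right₀ hl1 (by norm_num))
          _ ≤ θ := hθ1
      linarith) hσ2
  refine ⟨k1, k2.trans ?_⟩
  calc (l ^ 11 / θ) ^ C ≤ (l ^ 22) ^ C := Real.rpow_le_rpow (by linarith) hRθ (by linarith)
    _ = l ^ ((22 : ℕ) * C : ℝ) := by
        rw [← Real.rpow_natCast l 22, ← Real.rpow_mul hl0.le]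
    _ ≤ l ^ (((22 * ⌈C⌉₊ : ℕ)) : ℝ) := by
        apply Real.rpow_le_rpow_of_exponent_le hl1
        push_cast
        have := Nat.le_ceil C
        linarith
    _ = l ^ (22 * ⌈C⌉₊) := Real.rpow_natCast _ _

/-- the inverse near one, for real characters -/
theorem near_one (h5 : S_SIEG) (B : ℕ) : ∃ c : ℝ, 0 < c ∧ ∀ (q : ℕ) (χ : ZI →* ℂ) (L : ℂ → ℂ) (C l : ℝ),
    1 ≤ q → RChi q χ → IsL χ L → 16 ≤ l → 1 ≤ C → (q : ℝ) ≤ l ^ (100 * B) → 96 * C ≤ c * l → 2 ≤ c * l →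
    (∀ s : ℂ, 1 - 1 / (8 * l) ≤ s.re → s.re ≤ 3 → |s.im| ≤ Real.exp l → ‖L s‖ ≤ C * l ^ 2) →
    ∀ s : ℂ, ‖s - 1‖ ≤ 2 / l ^ 10 → L s ≠ 0 ∧ ‖(L s)⁻¹‖ ≤ l ^ 2 := by
  obtain ⟨c, hc, h⟩ := h5 (1 / (100 * (B + 1))) (by positivity)
  refine ⟨c, hc, ?_⟩
  intro q χ L C l hq hχ hL hl hC hql hcl hcl2 hbd s hs
  have hl0 : 0 < l := by linarith
  have hl1 : 1 ≤ l := by linarith
  have hq0 : (0 : ℝ) < q := by exact_mod_cast hq
  have h1 := h q χ L hq hχ hL
  have h2 : c / l ≤ (L 1).re := by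
    refine le_trans ?_ h1
    rw [div_eq_mul_inv]
    apply mul_le_mul_of_nonneg_left _ hc.le
    calc l⁻¹ = l ^ (-1 : ℝ) := by rw [Real.rpow_neg_one]
      _ ≤ l ^ (((100 * B : ℕ) : ℝ) * (-(1 / (100 * (B + 1))))) := by
          apply Real.rpow_le_rpow_of_exponent_le hl1
          push_cast
          have hB : (0 : ℝ) ≤ B := Nat.cast_nonneg B
          have e : (100 * (B : ℝ)) * (-(1 / (100 * (B + 1)))) = -(B / (B + 1)) := by
            field_simp
          rw [e]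
          have : (B : ℝ) / (B + 1) ≤ 1 := by
            rw [div_le_one (by positivity)]
            linarith
          linarith
      _ = (l ^ (100 * B)) ^ (-(1 / (100 * ((B : ℝ) + 1)))) := by
          rw [Real.rpow_mul hl0.le, Real.rpow_natCast]
      _ ≤ (q : ℝ) ^ (-(1 / (100 * ((B : ℝ) + 1)))) := by
          apply Real.rpow_le_rpow_of_nonpos hq0 hql
          have : (0 : ℝ) < 1 / (100 * ((B : ℝ) + 1)) := by positivity
          linarith
  have h18 : 1 / (8 * l) ≤ 1 / 128 := one_div_le_one_div_of_le (by norm_num) (by linarith)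
  have h180 : 0 < 1 / (8 * l) := by positivity
  have hreg : ∀ z ∈ Metric.ball (1 : ℂ) (1 / (8 * l)), 1 - 1 / (8 * l) ≤ z.re ∧ z.re ≤ 3 ∧
      |z.im| ≤ Real.exp l := by
    intro z hz
    rw [mem_ball_iff_norm] at hz
    have h3 := Complex.abs_re_le_norm (z - 1)
    have h4 := Complex.abs_im_le_norm (z - 1)
    rw [Complex.sub_re, Complex.one_re] at h3
    rw [Complex.sub_im, Complex.one_im, sub_zero] at h4
    have h6 := abs_le.1 (h3.trans hz.le)
    have h7 := Real.add_one_le_exp l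
    refine ⟨by linarith [h6.1], by linarith [h6.2], by linarith⟩
  have hs1 : s ∈ Metric.ball (1 : ℂ) (1 / (8 * l)) := by
    rw [mem_ball_iff_norm]
    refine lt_of_le_of_lt hs ?_
    rw [div_lt_div_iff₀ (by positivity) (by positivity)]
    have h3 : l ^ 3 ≤ l ^ 10 := pow_le_pow_right₀ hl1 (by norm_num)
    have h3' : 256 ≤ l * l := by nlinarith
    have h3'' : 256 * l ≤ l ^ 3 := by
      calc 256 * l ≤ (l * l) * l := by gcongr
        _ = l ^ 3 := by ring
    linarith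
  have h11 : (1 : ℂ) ∈ Metric.ball (1 : ℂ) (1 / (8 * l)) := Metric.mem_ball_self h180
  have hC2 : 0 < C * l ^ 2 := by positivity
  have hmaps : Set.MapsTo L (Metric.ball (1 : ℂ) (1 / (8 * l))) (Metric.ball (L 1) (3 * (C * l ^ 2))) := by
    intro z hz
    rw [mem_ball_iff_norm]
    obtain ⟨r1, r2, r3⟩ := hreg z hz
    obtain ⟨o1, o2, o3⟩ := hreg 1 h11
    have h3 := hbd z r1 r2 r3
    have h4 := hbd 1 o1 o2 o3
    have h6 := norm_sub_le (L z) (L 1)
    linarith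
  have hdiff : DifferentiableOn ℂ L (Metric.ball (1 : ℂ) (1 / (8 * l))) := by
    apply hL.diff.mono
    intro z hz
    have := (hreg z hz).1
    change 9 / 10 < z.re
    linarith
  have h3 := Complex.dist_le_div_mul_dist_of_mapsTo_ball hdiff (hmaps.mono_right Metric.ball_subset_closedBall) hs1
  rw [dist_eq_norm, dist_eq_norm] at h3
  have h4 : ‖L s - L 1‖ ≤ c / (2 * l) := by
    refine h3.trans ?_
    calc 3 * (C * l ^ 2) / (1 / (8 * l)) * ‖s - 1‖ ≤ 3 * (C * l ^ 2) / (1 / (8 * l)) * (2 / l ^ 10) := by gcongr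
      _ = 48 * C / l ^ 7 := by field_simp; norm_num
      _ ≤ c / (2 * l) := by
          rw [div_le_div_iff₀ (by positivity) (by positivity)]
          have h6 : l ^ 2 ≤ l ^ 7 := pow_le_pow_right₀ hl1 (by norm_num)
          calc 48 * C * (2 * l) = (96 * C) * l := by ring
            _ ≤ (c * l) * l := by gcongr
            _ = c * l ^ 2 := by ring
            _ ≤ c * l ^ 7 := by gcongr
  have h6 : c / (2 * l) ≤ ‖L s‖ := by
    have h7 := Complex.abs_re_le_norm (L 1)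
    have h8 := le_abs_self (L 1).re
    have h9 := norm_sub_norm_le (L 1) (L s)
    rw [norm_sub_rev] at h9
    have e : c / l = c / (2 * l) + c / (2 * l) := by field_simp; norm_num
    linarith
  have hpos : 0 < c / (2 * l) := by positivity
  refine ⟨?_, ?_⟩
  · intro h0
    rw [h0, norm_zero] at h6
    linarith
  · rw [norm_inv]
    calc ‖L s‖⁻¹ ≤ (c / (2 * l))⁻¹ := inv_anti₀ hpos h6
      _ ≤ l ^ 2 := by
          rw [inv_div, div_le_iff₀ hc]
          nlinarith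

theorem chi_sq {q : ℕ} {χ : ZI →* ℂ} (h : Chi q χ) : Chi q (χ * χ) where
  per a b hab := by rw [MonoidHom.mul_apply, MonoidHom.mul_apply, h.per a b hab]
  supp a := by
    rw [MonoidHom.mul_apply, ← h.supp a]
    simp
  nrm a ha := by
    rw [MonoidHom.mul_apply, norm_mul, h.nrm a ha, mul_one]

open Filter in
theorem ev (a b c d : ℝ) (M : ℕ) (hc : 0 < c) : ∀ᶠ l : ℝ in atTop, a ≤ l ∧ b ≤ c * l ∧ 22 * Real.log l ≤ l ∧
    d * (l ^ M) ^ 2 ≤ Real.exp (2 * l) := by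
  have h1 : ∀ᶠ l : ℝ in atTop, a ≤ l := eventually_ge_atTop a
  have h2 : ∀ᶠ l : ℝ in atTop, b ≤ c * l := (tendsto_id.const_mul_atTop hc).eventually_ge_atTop b
  have h3 : ∀ᶠ l : ℝ in atTop, 22 * Real.log l ≤ l := by
    have h4 := Real.isLittleO_log_id_atTop.bound (c := 1 / 22) (by norm_num)
    filter_upwards [h4, eventually_ge_atTop (1 : ℝ)] with l h5 h6
    rw [Real.norm_of_nonneg (Real.log_nonneg h6), id, Real.norm_of_nonneg (by linarith)] at h5
    linarith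
  have h4 : ∀ᶠ l : ℝ in atTop, d * (l ^ M) ^ 2 ≤ Real.exp (2 * l) := by
    have h5 := (isLittleO_pow_exp_pos_mul_atTop (2 * M) (b := 2) (by norm_num)).bound
      (c := 1 / (|d| + 1)) (by positivity)
    filter_upwards [h5, eventually_ge_atTop (1 : ℝ)] with l h6 h7
    rw [Real.norm_of_nonneg (by positivity), Real.norm_of_nonneg (Real.exp_pos _).le] at h6
    have h8 : (l ^ M) ^ 2 = l ^ (2 * M) := by ring
    rw [h8]
    have h9 : (|d| + 1) * l ^ (2 * M) ≤ Real.exp (2 * l) := by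
      have := mul_le_mul_of_nonneg_left h6 (by positivity : 0 ≤ |d| + 1)
      rwa [← mul_assoc, mul_one_div_cancel (by positivity), one_mul] at this
    have h10 : d * l ^ (2 * M) ≤ (|d| + 1) * l ^ (2 * M) := by
      gcongr
      linarith [le_abs_self d]
    linarith
  filter_upwards [h1, h2, h3, h4] with l a1 a2 a3 a4
  exact ⟨a1, a2, a3, a4⟩

theorem inv_all (h0 : S_EL) (h2 : S_GROW) (h3 : S_INVL) (h5 : S_SIEG) (B : ℕ) : ∃ (K : ℕ) (l₀ : ℝ), 16 ≤ l₀ ∧
    ∀ (q : ℕ) (χ : ZI →* ℂ) (l : ℝ), l₀ ≤ l → 1 ≤ q → (q : ℝ) ≤ l ^ (100 * B) → Chi q χ → χ ⟨0, 1⟩ = 1 →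
    (∃ a : ZI, IsCoprime a ((q : ℕ) : ZI) ∧ χ a ≠ 1) →
    ∃ L : ℂ → ℂ, DifferentiableOn ℂ L {s | 9 / 10 < s.re} ∧ (∀ s : ℂ, 1 < s.re → L s = LSeries (bb χ) s) ∧
      ∀ s : ℂ, 1 - 1 / l ^ 20 ≤ s.re → s.re ≤ 3 → |s.im| ≤ Real.exp l / 4 → L s ≠ 0 ∧ ‖(L s)⁻¹‖ ≤ l ^ K := by
  obtain ⟨C1, hC1, g1⟩ := grow_chi h0 h2
  obtain ⟨C2, hC2, g2⟩ := grow_prin h0 h2
  obtain ⟨C3, K3, hC3, g3⟩ := use_inv h3
  obtain ⟨c, hc, g4⟩ := near_one h5 B
  obtain ⟨l₀, hev⟩ := Filter.eventually_atTop.1 (ev (C3 + C1 + 2 * C2) (96 * C1 + 2) c (C1 + C2) (100 * B) hc)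
  refine ⟨K3 + 42, max l₀ 16, le_max_right _ _, ?_⟩
  intro q χ l hl hq hql hχ hi hnp
  obtain ⟨e1, e2, e3, e4⟩ := hev l ((le_max_left _ _).trans hl)
  have hl16 : 16 ≤ l := (le_max_right _ _).trans hl
  have hl0 : 0 < l := by linarith
  have hl1 : 1 ≤ l := by linarith
  have hq2 := np_two hq hχ hnp
  have hU := uh_chi hq2 hχ hi
  have hq0 : (0 : ℝ) ≤ q := Nat.cast_nonneg q
  have hqq : (q : ℝ) ^ 2 ≤ (l ^ (100 * B)) ^ 2 := pow_le_pow_left₀ hq0 hql 2
  have hq1' : C1 * (q : ℝ) ^ 2 ≤ Real.exp (2 * l) := by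
    refine le_trans ?_ e4
    calc C1 * (q : ℝ) ^ 2 ≤ C1 * (l ^ (100 * B)) ^ 2 := by gcongr
      _ ≤ (C1 + C2) * (l ^ (100 * B)) ^ 2 := by gcongr; linarith
  have hq2' : C2 * (q : ℝ) ^ 2 ≤ Real.exp (2 * l) := by
    refine le_trans ?_ e4
    calc C2 * (q : ℝ) ^ 2 ≤ C2 * (l ^ (100 * B)) ^ 2 := by gcongr
      _ ≤ (C1 + C2) * (l ^ (100 * B)) ^ 2 := by gcongr; linarith
  have hχ2 := chi_sq hχ
  have hi2 : (χ * χ) ⟨0, 1⟩ = 1 := by rw [MonoidHom.mul_apply, hi, mul_one]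
  have hU2 := uh_chi hq2 hχ2 hi2
  obtain ⟨L, l1, l2, l3⟩ := g1 q χ l hq hχ hi hnp (by linarith) hq1'
  refine ⟨L, l1, l2, ?_⟩
  have hpow : ∀ {a b : ℕ}, a ≤ b → l ^ a ≤ l ^ b := fun h => pow_le_pow_right₀ hl1 h
  have l3' : ∀ s : ℂ, 1 - 1 / (8 * l) ≤ s.re → s.re ≤ 3 → |s.im| ≤ Real.exp l → ‖L s‖ ≤ l ^ 11 := by
    intro s a1 a2 a3
    refine (l3 s a1 a2 a3).trans ?_
    calc C1 * l ^ 2 ≤ l * l ^ 2 := by gcongr; linarith
      _ = l ^ 3 := by ring
      _ ≤ l ^ 11 := hpow (by norm_num)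
  intro s s1 s2 s3
  rcases le_total (1 + 1 / l ^ 20) s.re with hright | hleft
  · -- to the right
    have hp : 0 < 1 / l ^ 20 := by positivity
    have h6 := Pool.Agent.N487.GN.inv_le hU (s := s) (by linarith)
    rw [l2 s (by linarith)]
    refine ⟨h6.1, h6.2.trans ?_⟩
    have h7 : 1 / (s.re - 1) ≤ l ^ 20 := by
      rw [div_le_iff₀ (by linarith)]
      have h8 : 1 / l ^ 20 ≤ s.re - 1 := by linarith
      calc (1 : ℝ) = l ^ 20 * (1 / l ^ 20) := by field_simp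
        _ ≤ _ := by gcongr
    have h8 : 0 ≤ 1 / (s.re - 1) := by
      apply div_nonneg zero_le_one; linarith
    have h9 : 1 + 1 / (s.re - 1) ≤ l ^ 21 := by
      have h10 : (1 : ℝ) ≤ l ^ 20 := one_le_pow₀ hl1
      calc 1 + 1 / (s.re - 1) ≤ 2 * l ^ 20 := by linarith
        _ ≤ l * l ^ 20 := by gcongr; linarith
        _ = l ^ 21 := by ring
    calc (1 + 1 / (s.re - 1)) ^ 2 ≤ (l ^ 21) ^ 2 := by gcongr
      _ = l ^ 42 := by ring
      _ ≤ l ^ (K3 + 42) := hpow (by omega)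
  have h20 : 1 / l ^ 20 ≤ 1 / l ^ 10 := one_div_le_one_div_of_le (by positivity) (hpow (by norm_num))
  have h101 : 1 / l ^ 10 ≤ 1 := by
    rw [div_le_one (by positivity)]
    exact one_le_pow₀ hl1
  have h64 : 1 / l ^ 11 ≤ 1 / (64 * l) := by
    apply one_div_le_one_div_of_le (by positivity)
    calc 64 * l ≤ (l * l) * l := by gcongr; nlinarith
      _ = l ^ 3 := by ring
      _ ≤ l ^ 11 := hpow (by norm_num)
  have hs : s = ⟨s.re, s.im⟩ := rfl
  have hK : l ^ K3 ≤ l ^ (K3 + 42) := hpow (by omega)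
  by_cases hnp2 : ∃ a : ZI, IsCoprime a ((q : ℕ) : ZI) ∧ (χ * χ) a ≠ 1
  · -- the square is not principal
    obtain ⟨L2, m1, m2, m3⟩ := g1 q (χ * χ) l hq hχ2 hi2 hnp2 (by linarith) hq1'
    have h6 := g3 χ hU l s.im (1 / (64 * l)) L L2 (by linarith) e3 s3 h64 le_rfl l1 l2 l3'
      (m1.mono fun z hz => hz.1) m2 (by
        intro z a1 a2 a3
        have e : 8 * (1 / (64 * l)) ≤ 1 := by
          rw [mul_one_div, div_le_one (by positivity)]
          linarith
        refine (m3 z a1 a2 ?_).trans ?_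
        · have h7 := abs_sub_abs_le_abs_sub z.im (2 * s.im)
          rw [abs_mul, abs_two] at h7
          have h8 := Real.add_one_le_exp l
          linarith
        · calc C1 * l ^ 2 ≤ l * l ^ 2 := by gcongr; linarith
            _ = l ^ 3 := by ring
            _ ≤ l ^ 11 := hpow (by norm_num)) s.re s1 (by linarith)
    exact ⟨h6.1, h6.2.trans hK⟩
  · push Not at hnp2
    rcases le_total (1 / l ^ 10) |s.im| with hfar | hnear
    · -- away from the real axis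
      obtain ⟨L2, m1, m2, m3⟩ := g2 q (χ * χ) l hq hχ2 hU2 (by linarith) hq2'
      set θ : ℝ := min (1 / (64 * l)) (|s.im| / 16) with hθ
      have hθ1 : 1 / l ^ 11 ≤ θ := by
        refine le_min h64 ?_
        rw [le_div_iff₀ (by norm_num)]
        refine le_trans ?_ hfar
        calc 1 / l ^ 11 * 16 ≤ 1 / l ^ 11 * l := by gcongr
          _ = 1 / l ^ 10 := by field_simp
      have hθ2 : 8 * θ ≤ |s.im| / 2 := by
        have := min_le_right (1 / (64 * l)) (|s.im| / 16)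
        linarith
      have hθ0 : 0 < |s.im| := lt_of_lt_of_le (by positivity) hfar
      have hz : ∀ z : ℂ, |z.im - 2 * s.im| < 8 * θ → |s.im| ≤ |z.im| ∧ |z.im| ≤ Real.exp l := by
        intro z hz
        have h7 := abs_sub_abs_le_abs_sub z.im (2 * s.im)
        have h8 := abs_sub_abs_le_abs_sub (2 * s.im) z.im
        rw [abs_sub_comm (2 * s.im) z.im] at h8
        rw [abs_mul, abs_two] at h7 h8
        constructor <;> linarith
      have h6 := g3 χ hU l s.im θ L L2 (by linarith) e3 s3 hθ1 (min_le_left _ _) l1 l2 l3'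
        (m1.mono fun z hz' => ⟨hz'.1, by
          rintro rfl
          have := (hz 1 hz'.2).1
          rw [Complex.one_im, abs_zero] at this
          linarith⟩) m2 (by
          intro z a1 a2 a3
          obtain ⟨z1, z2⟩ := hz z a3
          have h8 : |s.im| ≤ ‖z - 1‖ := by
            refine z1.trans ?_
            have := Complex.abs_im_le_norm (z - 1)
            rwa [Complex.sub_im, Complex.one_im, sub_zero] at this
          have h9 : z ≠ 1 := by
            rintro rfl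
            rw [sub_self, norm_zero] at h8
            linarith
          refine (m3 z a1 a2 h9 z2).trans ?_
          have h10 : 1 / ‖z - 1‖ ≤ l ^ 10 := by
            rw [div_le_iff₀ (by linarith)]
            calc (1 : ℝ) = l ^ 10 * (1 / l ^ 10) := by field_simp
              _ ≤ l ^ 10 * ‖z - 1‖ := by gcongr; linarith
          have h11 : l ^ 2 ≤ l ^ 10 := hpow (by norm_num)
          calc C2 * (l ^ 2 + 1 / ‖z - 1‖) ≤ C2 * (2 * l ^ 10) := by gcongr; linarith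
            _ = (2 * C2) * l ^ 10 := by ring
            _ ≤ l * l ^ 10 := by gcongr; linarith
            _ = l ^ 11 := by ring) s.re s1 (by linarith)
      exact ⟨h6.1, h6.2.trans hK⟩
    · -- near one
      have hR : RChi q χ := by
        refine ⟨hχ, ?_, hi, hnp⟩
        intro a
        by_cases ha : IsCoprime a ((q : ℕ) : ZI)
        · have h6 := hnp2 a ha
          rw [MonoidHom.mul_apply] at h6
          rcases mul_self_eq_one_iff.1 h6 with h7 | h7 <;> rw [h7] <;> simp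
        · have h6 : χ a = 0 := by
            by_contra h7
            exact ha ((hχ.supp a).1 h7)
          rw [h6, Complex.zero_im]
      have h6 := g4 q χ L C1 l hq hR ⟨l1, l2⟩ hl16 hC1 hql (by linarith) (by linarith) l3 s (by
        have h7 := Complex.norm_le_abs_re_add_abs_im (s - 1)
        rw [Complex.sub_re, Complex.sub_im, Complex.one_re, Complex.one_im, sub_zero] at h7
        have h8 : |s.re - 1| ≤ 1 / l ^ 20 := by
          rw [abs_le]; constructor <;> linarith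
        have e : 2 / l ^ 10 = 1 / l ^ 10 + 1 / l ^ 10 := by ring
        rw [e]
        linarith)
      exact ⟨h6.1, h6.2.trans (hpow (by omega))⟩

end Pool.Agent.N866.GN
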